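import Pool.Agent.TC47.Defs
import Pool.Agent.LibChromRoots.Zeros

/-!
# A1: zeros near a zero of `P`
Plan: `LibChromRoots.hurwitz` (Zeros.lean) with `f n z = (z-1) (R n).eval z / (z-2)^(n+1)`, `g = P.eval`,
`c = z0`, radius `r < ε` so small that (i) `P` has no zero on the sphere (P ≠ 0 has finitely many roots:
infinitely many radii; or `Polynomial` roots are isolated), (ii) 1 is not in the closed ball
(z0 ≠ 1 as |1 - 2| = 1), (iii) ρ := |z0 - 2| - r > 1, so |z - 2| ≥ ρ on the ball. There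
f n z - g z = (-1/(z-2))^(n+1) (-(P.eval z) + (z-1) Q.eval z) has norm ≤ ρ^(-(n+1)) M. A zero z of f n
in the closed ball with n ≥ 3 gives (R n).eval z = 0 because z ≠ 1, z ≠ 2.
-/

namespace Pool.Agent.TC47

open Filter Topology

theorem near_root (P Q : Polynomial ℂ) (hP : P ≠ 0) (z0 : ℂ) (h0 : P.eval z0 = 0)
    (h2 : 1 < ‖z0 - 2‖) (R : ℕ → Polynomial ℂ)
    (hR : ∀ m : ℕ, 1 ≤ m → ∀ z : ℂ, (z - 1) * (R m).eval z =
      ((z - 2) ^ (m + 1) - (-1) ^ (m + 1)) * P.eval z + (-1) ^ (m + 1) * ((z - 1) * Q.eval z))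
    (ε : ℝ) (hε : 0 < ε) : ∃ m : ℕ, 3 ≤ m ∧ ∃ z : ℂ, ‖z - z0‖ < ε ∧ (R m).eval z = 0 := by
  classical
  have h1 : 0 < ‖z0 - 1‖ := by
    rw [norm_pos_iff, sub_ne_zero]
    rintro rfl
    norm_num at h2
  have hδ : 0 < min ε (min (‖z0 - 2‖ - 1) ‖z0 - 1‖) :=
    lt_min hε (lt_min (by linarith) h1)
  obtain ⟨r, hr, hrt⟩ := (Set.Ioo_infinite hδ).exists_notMem_finset
    (P.roots.toFinset.image (fun w => ‖w - z0‖))
  obtain ⟨hr0, hrδ⟩ := hr
  have hrε : r < ε := lt_of_lt_of_le hrδ (min_le_left _ _)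
  have hr2 : r < ‖z0 - 2‖ - 1 :=
    lt_of_lt_of_le hrδ ((min_le_right _ _).trans (min_le_left _ _))
  have hr1 : r < ‖z0 - 1‖ :=
    lt_of_lt_of_le hrδ ((min_le_right _ _).trans (min_le_right _ _))
  have hρ : 1 < ‖z0 - 2‖ - r := by linarith
  set ρ : ℝ := ‖z0 - 2‖ - r with hρdef
  have hρ0 : 0 < ρ := by linarith
  have hball : ∀ z ∈ Metric.closedBall z0 r, ρ ≤ ‖z - 2‖ ∧ z - 2 ≠ 0 ∧ z - 1 ≠ 0 := by
    intro z hz
    rw [mem_closedBall_iff_norm] at hz
    have e1 : ‖z0 - 2‖ ≤ ‖z - z0‖ + ‖z - 2‖ := by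
      calc ‖z0 - 2‖ = ‖(z - 2) - (z - z0)‖ := by congr 1; ring
        _ ≤ ‖z - 2‖ + ‖z - z0‖ := norm_sub_le _ _
        _ = _ := by ring
    have e2 : ‖z0 - 1‖ ≤ ‖z - z0‖ + ‖z - 1‖ := by
      calc ‖z0 - 1‖ = ‖(z - 1) - (z - z0)‖ := by congr 1; ring
        _ ≤ ‖z - 1‖ + ‖z - z0‖ := norm_sub_le _ _
        _ = _ := by ring
    have e3 : ρ ≤ ‖z - 2‖ := by rw [hρdef]; linarith
    refine ⟨e3, ?_, ?_⟩
    · rw [← norm_pos_iff]; linarith
    · rw [← norm_pos_iff]; linarith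
  obtain ⟨M, hM⟩ := (isCompact_closedBall z0 r).exists_bound_of_continuousOn
    (f := fun z : ℂ => (z - 1) * Q.eval z - P.eval z)
    (((continuous_id.sub continuous_const).mul Q.continuous).sub P.continuous).continuousOn
  have hM0 : 0 ≤ M := le_trans (norm_nonneg _) (hM z0 (Metric.mem_closedBall_self hr0.le))
  have hdiff : ∀ n : ℕ, 1 ≤ n → ∀ z ∈ Metric.closedBall z0 r,
      ‖(z - 1) * (R n).eval z / (z - 2) ^ (n + 1) - P.eval z‖ ≤ M * ρ⁻¹ ^ (n + 1) := by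
    intro n hn z hz
    obtain ⟨hz1, hz2, hz3⟩ := hball z hz
    have hpw : (z - 2) ^ (n + 1) ≠ 0 := pow_ne_zero _ hz2
    have e1 : (z - 1) * (R n).eval z / (z - 2) ^ (n + 1) - P.eval z =
        (-1) ^ (n + 1) * ((z - 1) * Q.eval z - P.eval z) / (z - 2) ^ (n + 1) := by
      rw [hR n hn z, div_sub' hpw]
      congr 1
      ring
    rw [e1, norm_div, norm_mul, norm_pow, norm_neg, norm_one, one_pow, one_mul, norm_pow]
    have e2 : ρ ^ (n + 1) ≤ ‖z - 2‖ ^ (n + 1) := pow_le_pow_left₀ hρ0.le hz1 _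
    have e3 : 0 < ρ ^ (n + 1) := pow_pos hρ0 _
    rw [inv_pow, ← div_eq_mul_inv]
    exact div_le_div₀ hM0 (hM z hz) e3 e2
  have hlim : Tendsto (fun n : ℕ => M * ρ⁻¹ ^ (n + 1)) atTop (𝓝 0) := by
    have h := (tendsto_pow_atTop_nhds_zero_of_lt_one (inv_nonneg.2 hρ0.le)
      (inv_lt_one_of_one_lt₀ hρ)).comp (tendsto_add_atTop_nat 1)
    simpa using h.const_mul M
  have hu : TendstoUniformlyOn (fun (n : ℕ) (z : ℂ) => (z - 1) * (R n).eval z / (z - 2) ^ (n + 1))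
      (fun z => P.eval z) atTop (Metric.closedBall z0 r) := by
    rw [Metric.tendstoUniformlyOn_iff]
    intro e he
    filter_upwards [eventually_ge_atTop 1, hlim.eventually (gt_mem_nhds he)] with n hn hne z hz
    rw [dist_comm, dist_eq_norm]
    exact lt_of_le_of_lt (hdiff n hn z hz) hne
  have hmain := LibChromRoots.hurwitz
    (fun (n : ℕ) (z : ℂ) => (z - 1) * (R n).eval z / (z - 2) ^ (n + 1))
    (fun z => P.eval z) z0 r hr0 ?_ h0 P.continuous.continuousOn ?_ hu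
  · obtain ⟨n, hn3, z, hz, hzf⟩ := ((eventually_ge_atTop 3).and hmain).exists
    obtain ⟨hz1, hz2, hz3⟩ := hball z hz
    refine ⟨n, hn3, z, ?_, ?_⟩
    · rw [mem_closedBall_iff_norm] at hz
      exact lt_of_le_of_lt hz hrε
    · have hzf' : (z - 1) * (R n).eval z / (z - 2) ^ (n + 1) = 0 := hzf
      rw [div_eq_zero_iff] at hzf'
      rcases hzf' with h | h
      · exact (mul_eq_zero.1 h).resolve_left hz3
      · exact absurd h (pow_ne_zero _ hz2)
  · refine Eventually.of_forall (fun n => ?_)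
    refine DifferentiableOn.diffContOnCl ?_
    intro z hz
    have hz' : z ∈ Metric.closedBall z0 r := Metric.closure_ball_subset_closedBall hz
    obtain ⟨hz1, hz2, hz3⟩ := hball z hz'
    refine DifferentiableAt.differentiableWithinAt ?_
    refine DifferentiableAt.div ?_ ?_ (pow_ne_zero _ hz2)
    · exact (differentiableAt_id.sub_const _).mul (R n).differentiableAt
    · exact (differentiableAt_id.sub_const _).pow _
  · intro z hz hPz
    apply hrt
    rw [Finset.mem_image]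
    refine ⟨z, ?_, ?_⟩
    · rw [Multiset.mem_toFinset, Polynomial.mem_roots hP]
      exact hPz
    · rw [mem_sphere_iff_norm] at hz
      exact hz

end Pool.Agent.TC47
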