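import Pool.Agent.TC47.Defs

/-!
# C1: counting the colourings of the new vertices of a fan
Plan: induction on `m`. `Nf_zero`: `Nf x e 0 s = if s = e then 0 else 1` (one function on `Fin 0`).
`Nf_succ`: `Nf x e (m+1) s = sum over c of (if s ≠ c ∧ x ≠ c then Nf x e m c else 0)`; use
`(Fin.consEquiv (fun _ => α)).sum_comp` and `Fintype.sum_prod_type` exactly as in the lemmas
`sum_fin_succ`, `W_nil`, `W_cons` of Pool/Agent/Ch4/Count.lean (adapt them).
Step: with n = card α, for c ≠ x the induction hypothesis gives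
(n-1) Nf m c = (n-2)^(m+1) - (-1)^(m+1) + [c = e] (n-1)(-1)^(m+1).
Sum over all c ≠ x (n-1 terms, e is one of them): (n-1)((n-2)^(m+1) - (-1)^(m+1)) + (n-1)(-1)^(m+1)
= (n-1)(n-2)^(m+1); subtract the term c = s. Then `ring`.
-/

namespace Pool.Agent.TC47

open Filter Topology

variable {α : Type} [Fintype α]

/-- good colourings of the `m` new vertices: colour `x` of `A`, colour `s` of the vertex before,
colour `e` of the last vertex `u'` -/
def OKf (x e : α) : (m : ℕ) → α → (Fin m → α) → Prop
  | 0, s, _ => s ≠ e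
  | m + 1, s, c => s ≠ c 0 ∧ x ≠ c 0 ∧ OKf x e m (c 0) (fun i => c i.succ)

open Classical in
/-- the number of good colourings of the `m` new vertices -/
noncomputable def Nf (x e : α) (m : ℕ) (s : α) : ℂ :=
  ∑ c : Fin m → α, if OKf x e m s c then 1 else 0

open Classical in
private theorem C1_zero (x e s : α) : Nf x e 0 s = if s = e then 0 else 1 := by
  unfold Nf OKf
  by_cases h : s = e
  · simp [h]
  · simp [h]

open Classical in
private theorem C1_succ (x e : α) (m : ℕ) (s : α) :
    Nf x e (m + 1) s = ∑ c : α, if s ≠ c ∧ x ≠ c then Nf x e m c else 0 := by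
  have h0 : Nf x e (m + 1) s =
      ∑ x0 : α, ∑ t : Fin m → α, (if OKf x e (m + 1) s (Fin.cons x0 t) then (1 : ℂ) else 0) := by
    rw [Nf, ← (Fin.consEquiv (fun _ => α)).sum_comp, Fintype.sum_prod_type]
    rfl
  rw [h0]
  apply Finset.sum_congr rfl
  intro c _
  by_cases h1 : s ≠ c ∧ x ≠ c
  · rw [if_pos h1, Nf]
    apply Finset.sum_congr rfl
    intro t _
    congr 1
    rw [eq_iff_iff]
    constructor
    · rintro ⟨-, -, h2⟩
      exact h2
    · intro h2
      exact ⟨h1.1, h1.2, h2⟩
  · rw [if_neg h1]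
    apply Finset.sum_eq_zero
    intro t _
    rw [if_neg]
    rintro ⟨h2, h3, -⟩
    exact h1 ⟨h2, h3⟩

open Classical in
theorem Nf_closed (x e : α) (he : e ≠ x) (m : ℕ) (s : α) (hs : s ≠ x) :
    ((Fintype.card α : ℂ) - 1) * Nf x e m s =
      ((Fintype.card α : ℂ) - 2) ^ (m + 1) - (-1) ^ (m + 1) +
        (if s = e then ((Fintype.card α : ℂ) - 1) * (-1) ^ (m + 1) else 0) := by
  induction m generalizing s with
  | zero =>
    rw [C1_zero]
    by_cases h : s = e
    · rw [if_pos h, if_pos h]
      ring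
    · rw [if_neg h, if_neg h]
      ring
  | succ m ih =>
    rw [C1_succ, Finset.mul_sum]
    have key : ∀ c : α, ((Fintype.card α : ℂ) - 1) * (if s ≠ c ∧ x ≠ c then Nf x e m c else 0) =
        (((Fintype.card α : ℂ) - 2) ^ (m + 1) - (-1) ^ (m + 1)) +
        (if c = e then ((Fintype.card α : ℂ) - 1) * (-1) ^ (m + 1) else 0) -
        (if c = s then (((Fintype.card α : ℂ) - 2) ^ (m + 1) - (-1) ^ (m + 1)) +
          (if s = e then ((Fintype.card α : ℂ) - 1) * (-1) ^ (m + 1) else 0) else 0) -
        (if c = x then (((Fintype.card α : ℂ) - 2) ^ (m + 1) - (-1) ^ (m + 1)) else 0) := by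
      intro c
      by_cases hx : c = x
      · have h1 : ¬ (s ≠ c ∧ x ≠ c) := fun h => h.2 hx.symm
        have h2 : c ≠ e := fun h => he (h.symm.trans hx)
        have h3 : c ≠ s := fun h => hs (h.symm.trans hx)
        rw [if_neg h1, if_neg h2, if_neg h3, if_pos hx]
        ring
      · by_cases hc : c = s
        · have h1 : ¬ (s ≠ c ∧ x ≠ c) := fun h => h.1 hc.symm
          rw [if_neg h1, if_pos hc, if_neg hx]
          subst hc
          ring
        · have h1 : s ≠ c ∧ x ≠ c := ⟨fun h => hc h.symm, fun h => hx h.symm⟩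
          rw [if_pos h1, if_neg hc, if_neg hx, ih c hx]
          ring
    rw [Finset.sum_congr rfl fun c _ => key c]
    simp only [Finset.sum_sub_distrib, Finset.sum_add_distrib, Finset.sum_const, Finset.card_univ,
      nsmul_eq_mul, Finset.sum_ite_eq', Finset.mem_univ, if_true]
    by_cases h : s = e
    · rw [if_pos h, if_pos h]
      ring
    · rw [if_neg h, if_neg h]
      ring

end Pool.Agent.TC47
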