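import Pool.Agent.TC47.C1

/-!
# C2: the predicate `OKf` without recursion
Plan: induction on `m`, compare `Ch4.OK_iff` in Pool/Agent/Ch4/Count2.lean; use `Fin.cases` for
all quantifiers over `Fin (m+1)`; in the step the second component for `m+1` is `s ≠ c 0`.
-/

namespace Pool.Agent.TC47

open Filter Topology

theorem OKf_iff {α : Type} (x e : α) (m : ℕ) (s : α) (c : Fin m → α) :
    OKf x e m s c ↔ (m = 0 → s ≠ e) ∧ (∀ i : Fin m, i.val = 0 → s ≠ c i) ∧
      (∀ i : Fin m, x ≠ c i) ∧ (∀ i j : Fin m, i.val + 1 = j.val → c i ≠ c j) ∧
      (∀ i : Fin m, i.val + 1 = m → c i ≠ e) := by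
  induction m generalizing s with
  | zero =>
    constructor
    · intro h
      exact ⟨fun _ => h, fun i => i.elim0, fun i => i.elim0, fun i => i.elim0, fun i => i.elim0⟩
    · rintro ⟨h, -⟩
      exact h rfl
  | succ m ih =>
    have hO : OKf x e (m + 1) s c ↔ s ≠ c 0 ∧ x ≠ c 0 ∧ OKf x e m (c 0) (fun i => c i.succ) :=
      Iff.rfl
    rw [hO, ih]
    constructor
    · rintro ⟨h1, h2, h3, h4, h5, h6, h7⟩
      refine ⟨fun h => absurd h (Nat.succ_ne_zero m), ?_, ?_, ?_, ?_⟩
      · intro i hi
        have hi0 : i = 0 := Fin.ext hi
        rw [hi0]
        exact h1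
      · intro i
        refine Fin.cases h2 (fun i => h5 i) i
      · intro i j
        refine Fin.cases ?_ (fun i => ?_) i
        · refine Fin.cases ?_ (fun j => ?_) j
          · intro h
            simp at h
          · intro h
            apply h4 j
            simp only [Fin.val_succ, Fin.val_zero] at h
            omega
        · refine Fin.cases ?_ (fun j => ?_) j
          · intro h
            simp at h
          · intro h
            apply h6 i j
            simp only [Fin.val_succ] at h
            omega
      · intro i
        refine Fin.cases ?_ (fun i => ?_) i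
        · intro h
          apply h3
          simp only [Fin.val_zero] at h
          omega
        · intro h
          apply h7 i
          simp only [Fin.val_succ] at h
          omega
    · rintro ⟨-, h2, h3, h4, h5⟩
      refine ⟨h2 0 rfl, h3 0, ?_, ?_, fun i => h3 i.succ, ?_, ?_⟩
      · intro h
        apply h5 0
        simp only [Fin.val_zero]
        omega
      · intro i hi
        apply h4 0 i.succ
        simp only [Fin.val_succ, Fin.val_zero]
        omega
      · intro i j hij
        apply h4 i.succ j.succ
        simp only [Fin.val_succ]
        omega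
      · intro i hi
        apply h5 i.succ
        simp only [Fin.val_succ]
        omega

end Pool.Agent.TC47
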