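import Pool.Agent.TC47.C2

/-!
# C3: number of colourings of a graph with a fan
Plan: colourings of the fan with `k` colours are pairs (colouring `c` of `G`, function
`d : Fin m → Fin k` with `OKf (c A) (c u') m (c u) d`) (use `OKf_iff` (m ≥ 1) and `fan_adj`; note that
`c A ≠ c u`, `c A ≠ c u'` by `hu`, `hu'`). So the number of colourings is the sum over `c` of
`Nf (c A) (c u') m (c u)` (as complex numbers); now `Nf_closed` with card (Fin k) = k:
(k-1) * that = ((k-2)^(m+1) - (-1)^(m+1)) + [c u = c u'] (k-1)(-1)^(m+1); sum over `c`.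
`Nat.card` to `Fintype.card` by `Nat.card_eq_fintype_card` (classical Fintype instances:
`G.Coloring (Fin k)` is finite, e.g. `Fintype.ofFinite`), or write both sides with
`{c : V → Fin k // ∀ a b, G.Adj a b → c a ≠ c b}` as in Ch4.card_colorings / isChromaticPoly_G.
-/

namespace Pool.Agent.TC47

open Filter Topology

private def C3_equiv {V : Type} (G : SimpleGraph V) (A u u' : V) (m : ℕ) (hm : 1 ≤ m) (k : ℕ) :
    (fan G A u u' m).Coloring (Fin k) ≃
      Σ c : G.Coloring (Fin k), {d : Fin m → Fin k // OKf (c A) (c u') m (c u) d} where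
  toFun χ := ⟨SimpleGraph.Coloring.mk (fun v => χ (Sum.inl v)) (fun {a b} h => by
      apply χ.valid
      rw [fan_adj]
      exact Or.inl h), ⟨fun i => χ (Sum.inr i), by
      rw [OKf_iff]
      refine ⟨fun h0 => absurd h0 (by omega), fun i hi => ?_, fun i => ?_, fun i j hij => ?_,
        fun i hi => ?_⟩
      · refine χ.valid ((fan_adj G A u u' m (Sum.inl u) (Sum.inr i)).2 (Or.inl ?_))
        exact Or.inr (Or.inl ⟨rfl, hi⟩)
      · refine χ.valid ((fan_adj G A u u' m (Sum.inl A) (Sum.inr i)).2 (Or.inl ?_))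
        exact Or.inl rfl
      · refine χ.valid ((fan_adj G A u u' m (Sum.inr i) (Sum.inr j)).2 (Or.inl ?_))
        exact hij
      · refine χ.valid ((fan_adj G A u u' m (Sum.inr i) (Sum.inl u')).2 (Or.inr ?_))
        exact Or.inr (Or.inr ⟨rfl, hi⟩)⟩⟩
  invFun x := SimpleGraph.Coloring.mk (Sum.elim (fun v => x.1 v) x.2.1) (fun {a b} h => by
    obtain ⟨c, d, hd⟩ := x
    rw [OKf_iff] at hd
    obtain ⟨-, h1, h2, h3, h4⟩ := hd
    have key : ∀ a b, fanRel G A u u' m a b →
        Sum.elim (fun v => c v) d a ≠ Sum.elim (fun v => c v) d b := by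
      intro a b hab
      rcases a with a | i <;> rcases b with b | j
      · exact c.valid hab
      · rcases hab with hab | ⟨hab, hj⟩ | ⟨hab, hj⟩
        · subst hab
          exact h2 j
        · subst hab
          exact h1 j hj
        · subst hab
          exact (h4 j hj).symm
      · exact absurd hab (fun h => h)
      · exact h3 i j hab
    rw [fan_adj] at h
    rcases h with h | h
    · exact key a b h
    · exact (key b a h).symm)
  left_inv χ := by
    apply DFunLike.coe_injective
    funext v
    rcases v with v | i <;> rfl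
  right_inv x := rfl

theorem fan_count {V : Type} [Fintype V] (G : SimpleGraph V) (A u u' : V) (hu : G.Adj A u)
    (hu' : G.Adj A u') (m : ℕ) (hm : 1 ≤ m) (k : ℕ) :
    ((k : ℂ) - 1) * (Nat.card ((fan G A u u' m).Coloring (Fin k)) : ℂ) =
      (((k : ℂ) - 2) ^ (m + 1) - (-1) ^ (m + 1)) * (Nat.card (G.Coloring (Fin k)) : ℂ) +
      (-1) ^ (m + 1) * (((k : ℂ) - 1) *
        (Nat.card {c : G.Coloring (Fin k) // c u = c u'} : ℂ)) := by
  classical
  have : Finite (G.Coloring (Fin k)) :=
    Finite.of_injective (fun c : G.Coloring (Fin k) => (fun v => c v : V → Fin k))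
      (fun c c' h => DFunLike.coe_injective h)
  have := Fintype.ofFinite (G.Coloring (Fin k))
  have h1 : (Nat.card ((fan G A u u' m).Coloring (Fin k)) : ℂ) =
      ∑ c : G.Coloring (Fin k), Nf (c A) (c u') m (c u) := by
    rw [Nat.card_congr (C3_equiv G A u u' m hm k), Nat.card_sigma, Nat.cast_sum]
    refine Finset.sum_congr rfl fun c _ => ?_
    unfold Nf
    rw [Finset.sum_boole, Nat.card_eq_fintype_card, Fintype.card_subtype]
  have h2 : ∀ c : G.Coloring (Fin k), ((k : ℂ) - 1) * Nf (c A) (c u') m (c u) =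
      ((k : ℂ) - 2) ^ (m + 1) - (-1) ^ (m + 1) +
        (if c u = c u' then ((k : ℂ) - 1) * (-1) ^ (m + 1) else 0) := by
    intro c
    have h3 := Nf_closed (c A) (c u') (c.valid hu').symm m (c u) (c.valid hu).symm
    rw [Fintype.card_fin] at h3
    convert h3
  rw [h1, Finset.mul_sum, Finset.sum_congr rfl (fun c _ => h2 c), Finset.sum_add_distrib,
    Finset.sum_const, Finset.card_univ, nsmul_eq_mul, ← Finset.sum_filter, Finset.sum_const,
    nsmul_eq_mul, Nat.card_eq_fintype_card, Nat.card_eq_fintype_card, Fintype.card_subtype]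
  ring

end Pool.Agent.TC47
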