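import Pool.Agent.TC47.C3
import Pool.Agent.Ch3.Stmt
import Pool.Agent.LibChromRoots.Whitney

/-!
# C4: the chromatic polynomial of a graph with a fan
Plan: `LibChromRoots.constraint_poly` (E = the edges as a finset of ordered pairs, F = {(u, u')})
gives `Q` with `Q k = number of colourings with c u = c u'` for all natural `k` (bijection between
`{c : V → Fin k // ...}` and `{c : G.Coloring (Fin k) // c u = c u'}`); or Q = P - (chromatic polynomial of
G with the edge u u' added). `LibChromRoots.chromSum_poly` and `chromSum_nat` (or constraint_poly with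
F empty) give the chromatic polynomial `R` of the fan. The identity holds for all natural numbers by
`fan_count`, hence as polynomials (`LibChromRoots.poly_eq_of_nat` for the two sides written as
polynomials in `Polynomial.X`), hence for all `z`.
-/

namespace Pool.Agent.TC47

open Filter Topology

private theorem C4_adj {V : Type} [Fintype V] (G : SimpleGraph V) (F : Finset (V × V)) :
    ∃ P : Polynomial ℂ, ∀ k : ℕ, P.eval (k : ℂ) =
      (Nat.card {c : G.Coloring (Fin k) // ∀ e ∈ F, c e.1 = c e.2} : ℂ) := by
  classical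
  obtain ⟨P, hP⟩ := LibChromRoots.constraint_poly
    (Finset.univ.filter fun e : V × V => G.Adj e.1 e.2) F
  refine ⟨P, fun k => ?_⟩
  rw [hP k]
  congr 1
  refine Nat.card_congr ?_
  refine
    { toFun := fun c => ⟨SimpleGraph.Coloring.mk c.1 (fun {a b} hab =>
        c.2.1 (a, b) (Finset.mem_filter.2 ⟨Finset.mem_univ _, hab⟩)), fun e he => c.2.2 e he⟩
      invFun := fun c => ⟨fun v => c.1 v, fun e he => c.1.valid (Finset.mem_filter.1 he).2,
        fun e he => c.2 e he⟩
      left_inv := fun c => by
        apply Subtype.ext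
        rfl
      right_inv := fun c => by
        apply Subtype.ext
        ext v
        rfl }

theorem fan_poly {V : Type} [Fintype V] (G : SimpleGraph V) (A u u' : V) (hu : G.Adj A u)
    (hu' : G.Adj A u') (P : Polynomial ℂ) (hP : Ch3.IsChromaticPoly G P) :
    ∃ Q : Polynomial ℂ, ∀ m : ℕ, 1 ≤ m → ∃ R : Polynomial ℂ,
      Ch3.IsChromaticPoly (fan G A u u' m) R ∧ ∀ z : ℂ, (z - 1) * R.eval z =
        ((z - 2) ^ (m + 1) - (-1) ^ (m + 1)) * P.eval z +
          (-1) ^ (m + 1) * ((z - 1) * Q.eval z) := by
  obtain ⟨Q, hQ⟩ := C4_adj G {(u, u')}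
  have hQ' : ∀ k : ℕ, Q.eval (k : ℂ) = (Nat.card {c : G.Coloring (Fin k) // c u = c u'} : ℂ) := by
    intro k
    rw [hQ k]
    congr 1
    exact Nat.card_congr (Equiv.subtypeEquivRight fun c => by simp)
  refine ⟨Q, fun m hm => ?_⟩
  obtain ⟨R, hR⟩ := C4_adj (fan G A u u' m) ∅
  have hR' : Ch3.IsChromaticPoly (fan G A u u' m) R := by
    intro k
    rw [hR k]
    congr 1
    exact Nat.card_congr (Equiv.subtypeUnivEquiv fun c => by simp)
  refine ⟨R, hR', ?_⟩
  have key : (Polynomial.X - 1) * R =
      ((Polynomial.X - 2) ^ (m + 1) - (-1) ^ (m + 1)) * P +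
        (-1) ^ (m + 1) * ((Polynomial.X - 1) * Q) := by
    refine LibChromRoots.poly_eq_of_nat _ _ fun k => ?_
    have h := fan_count G A u u' hu hu' m hm k
    rw [← hR' k, ← hP k, ← hQ' k] at h
    simpa using h
  intro z
  have h := congrArg (Polynomial.eval z) key
  simpa using h


end Pool.Agent.TC47
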