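import Pool.Agent.TC47.Sets
import Pool.Agent.LibChromRoots.Whitney

/-!
# D1: a chromatic root of a graph is a chromatic root of a connected component
Plan. Strong induction on the number of vertices, or directly: let `C` range over the (finitely many)
connected components of `G` and let `G_C = G.induce C.supp`. Colourings of `G` with `k` colours are families of
colourings of the `G_C` (an edge never leaves its component), so their number is the product over `C` of the numbers for
`G_C`; with chromatic polynomials `P_C` (`LibChromRoots.chromSum_poly`, `chromSum_nat`, or `constraint_poly`)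
`P` = product of the `P_C` as polynomials (`LibChromRoots.poly_eq_of_nat`), so `P.eval z = 0` gives
some `P_C.eval z = 0` (`Polynomial.eval_prod`, `Finset.prod_eq_zero_iff`). `G_C` is connected
(`SimpleGraph.ConnectedComponent.connected_toSimpleGraph` or `..induce_supp..connected`) and has a drawing (`straight_comap` with the
inclusion; `G.induce s = G.comap (Embedding.subtype s)`).
-/

namespace Pool.Agent.TC47

private theorem D1_card {V : Type} (G : SimpleGraph V) (q : ℕ) :
    Nat.card (G.Coloring (Fin q)) = Nat.card {c : V → Fin q // ∀ a b, G.Adj a b → c a ≠ c b} := by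
  refine Nat.card_congr ⟨fun c => ⟨fun v => c v, fun a b h => c.valid h⟩,
    fun c => SimpleGraph.Coloring.mk c.1 (fun {a b} h => c.2 a b h), ?_, ?_⟩
  · intro c
    rfl
  · intro c
    rfl

private theorem D1_comp {V : Type} (G : SimpleGraph V) (q : ℕ)
    (d : ∀ C : G.ConnectedComponent, {c : C.supp → Fin q //
      ∀ a b, (G.induce C.supp).Adj a b → c a ≠ c b}) (C : G.ConnectedComponent) (v : V)
    (hv : v ∈ C.supp) :
    (d (G.connectedComponentMk v)).1 ⟨v, SimpleGraph.ConnectedComponent.mem_supp_iff _ _ |>.2 rfl⟩ =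
      (d C).1 ⟨v, hv⟩ := by
  have h : G.connectedComponentMk v = C := (SimpleGraph.ConnectedComponent.mem_supp_iff _ _).1 hv
  subst h
  rfl

private theorem D1_prod {V : Type} [Fintype V] (G : SimpleGraph V) [Fintype G.ConnectedComponent]
    (q : ℕ) :
    Nat.card {c : V → Fin q // ∀ a b, G.Adj a b → c a ≠ c b} =
      ∏ C : G.ConnectedComponent, Nat.card {c : C.supp → Fin q //
        ∀ a b, (G.induce C.supp).Adj a b → c a ≠ c b} := by
  rw [← Nat.card_pi]
  refine Nat.card_congr ⟨fun c C => ⟨fun x => c.1 x.1, fun a b h => c.2 a.1 b.1 h⟩,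
    fun d => ⟨fun v => (d (G.connectedComponentMk v)).1
      ⟨v, SimpleGraph.ConnectedComponent.mem_supp_iff _ _ |>.2 rfl⟩, ?_⟩, ?_, ?_⟩
  · intro a b h
    have hmk : G.connectedComponentMk a = G.connectedComponentMk b :=
      SimpleGraph.ConnectedComponent.sound h.reachable
    have ha : a ∈ (G.connectedComponentMk b).supp :=
      (SimpleGraph.ConnectedComponent.mem_supp_iff _ _).2 hmk
    have h1 := D1_comp G q d (G.connectedComponentMk b) a ha
    have h2 : (d (G.connectedComponentMk b)).1 ⟨a, ha⟩ ≠ (d (G.connectedComponentMk b)).1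
        ⟨b, SimpleGraph.ConnectedComponent.mem_supp_iff _ _ |>.2 rfl⟩ :=
      (d (G.connectedComponentMk b)).2 _ _ h
    exact fun h3 => h2 (h1.symm.trans h3)
  · intro c
    rfl
  · intro d
    funext C
    apply Subtype.ext
    funext x
    exact D1_comp G q d C x.1 x.2

theorem exists_component {V : Type} [Fintype V] (G : SimpleGraph V) (h : StraightPlanar G)
    (P : Polynomial ℂ) (hP : Ch3.IsChromaticPoly G P) (z : ℂ) (hz : P.eval z = 0) :
    ∃ (W : Type) (_ : Fintype W) (H : SimpleGraph W) (Q : Polynomial ℂ), H.Connected ∧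
      StraightPlanar H ∧ Ch3.IsChromaticPoly H Q ∧ Q.eval z = 0 := by
  classical
  haveI : Finite G.ConnectedComponent := Quot.finite _
  letI : Fintype G.ConnectedComponent := Fintype.ofFinite _
  have hex : ∀ C : G.ConnectedComponent, ∃ Q : Polynomial ℂ, ∀ k : ℕ, Q.eval (k : ℂ) =
      (Nat.card {c : C.supp → Fin k // ∀ a b, (G.induce C.supp).Adj a b → c a ≠ c b} : ℂ) := by
    intro C
    obtain ⟨Q, hQ⟩ := LibChromRoots.chromSum_poly (G.induce C.supp)
    refine ⟨Q, fun k => ?_⟩
    rw [hQ, LibChromRoots.chromSum_nat]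
    rfl
  choose Q hQ using hex
  have hprod : P = ∏ C : G.ConnectedComponent, Q C := by
    apply LibChromRoots.poly_eq_of_nat
    intro k
    rw [hP k, D1_card, D1_prod, Polynomial.eval_prod]
    push_cast
    exact Finset.prod_congr rfl fun C _ => (hQ C k).symm
  rw [hprod, Polynomial.eval_prod] at hz
  obtain ⟨C, -, hC⟩ := Finset.prod_eq_zero_iff.1 hz
  refine ⟨C.supp, Fintype.ofFinite _, G.induce C.supp, Q C, ?_, ?_, ?_, hC⟩
  · exact C.connected_toSimpleGraph
  · exact straight_comap (fun x : C.supp => x.1) Subtype.val_injective G h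
  · intro k
    rw [hQ C k, D1_card]

end Pool.Agent.TC47
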