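import Mathlib

/-!
# Straight-line drawings and fans (MP_60451a_co, chromatic roots of 3-connected planar graphs)
-/

namespace Pool.Agent.TC47

/-- `f` is a straight-line plane drawing of `G`: distinct vertices have distinct places, the
segment of an edge contains no other vertex, and the segments of two edges without a common
end are disjoint. -/
def Drawing {V : Type} (G : SimpleGraph V) (f : V → ℂ) : Prop :=
  Function.Injective f ∧
  (∀ u v w : V, G.Adj u v → w ≠ u → w ≠ v → f w ∉ segment ℝ (f u) (f v)) ∧
  (∀ u v x y : V, G.Adj u v → G.Adj x y → u ≠ x → u ≠ y → v ≠ x → v ≠ y →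
    Disjoint (segment ℝ (f u) (f v)) (segment ℝ (f x) (f y)))

/-- `G` has a straight-line plane drawing. -/
def StraightPlanar {V : Type} (G : SimpleGraph V) : Prop := ∃ f : V → ℂ, Drawing G f

/-- The edges of a fan at `A` from `u` to `u'` with `m` new vertices, each listed in one
direction only: the new vertices form a path `0, 1, .., m - 1`, all of them are joined to `A`,
the first one is joined to `u` and the last one to `u'`. -/
def fanRel {V : Type} (G : SimpleGraph V) (A u u' : V) (m : ℕ) : V ⊕ Fin m → V ⊕ Fin m → Prop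
  | .inl x, .inl y => G.Adj x y
  | .inl x, .inr i => x = A ∨ (x = u ∧ i.val = 0) ∨ (x = u' ∧ i.val + 1 = m)
  | .inr i, .inr j => i.val + 1 = j.val
  | .inr _, .inl _ => False

/-- The graph `G` with a fan at `A` from `u` to `u'` with `m` new vertices. -/
def fan {V : Type} (G : SimpleGraph V) (A u u' : V) (m : ℕ) : SimpleGraph (V ⊕ Fin m) :=
  SimpleGraph.fromRel (fanRel G A u u' m)

variable {V : Type}

lemma fanRel_irrefl (G : SimpleGraph V) (A u u' : V) (m : ℕ) (x : V ⊕ Fin m) :
    ¬ fanRel G A u u' m x x := by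
  rcases x with x | i
  · exact G.irrefl
  · intro h
    simp only [fanRel] at h
    omega

lemma fan_adj (G : SimpleGraph V) (A u u' : V) (m : ℕ) (x y : V ⊕ Fin m) :
    (fan G A u u' m).Adj x y ↔ fanRel G A u u' m x y ∨ fanRel G A u u' m y x := by
  rw [fan, SimpleGraph.fromRel_adj]
  constructor
  · exact fun h => h.2
  · intro h
    refine ⟨?_, h⟩
    rintro rfl
    exact h.elim (fanRel_irrefl G A u u' m x) (fanRel_irrefl G A u u' m x)

/-- number of components of `G - S` -/
noncomputable def cc (G : SimpleGraph V) (S : Finset V) : ℕ :=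
  Nat.card (G.induce ((↑S : Set V)ᶜ)).ConnectedComponent

open Classical in
/-- the total number of superfluous components of `G - S`, `S` with `k` elements -/
noncomputable def defect [Fintype V] (G : SimpleGraph V) (k : ℕ) : ℕ :=
  ∑ S : Finset V, if S.card = k then cc G S - 1 else 0

/-- the point with polar coordinates `r`, `θ` -/
noncomputable def pt (r θ : ℝ) : ℂ := (r : ℂ) * Complex.exp (θ * Complex.I)

/-- `u`, `u'` are neighbours of `A`, in the directions `α < β` counterclockwise from the direction
`τ`, and no neighbour of `A` is in a direction between them. -/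
def Corner (G : SimpleGraph V) (f : V → ℂ) (A u u' : V) (τ : ℂ) (α β : ℝ) : Prop :=
  G.Adj A u ∧ G.Adj A u' ∧ τ ≠ 0 ∧ 0 < α ∧ α < β ∧ β < 2 * Real.pi ∧
  (∃ r : ℝ, 0 < r ∧ f u - f A = τ * pt r α) ∧ (∃ r : ℝ, 0 < r ∧ f u' - f A = τ * pt r β) ∧
  ∀ y : V, G.Adj A y → ∀ r θ : ℝ, 0 < r → α < θ → θ < β → f y - f A ≠ τ * pt r θ

end Pool.Agent.TC47
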