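import Pool.Agent.TC47.WheelDefs
import Pool.Agent.Ch3.Stmt

/-!
# W3: the chromatic polynomial of the wheel with subdivided rim
Pool/Agent/Ch4/Count.lean counts the colourings of the rim of a wheel with TWO hubs: `Ch4.W x y z s u` is the number of good
colourings of the rest of the rim with hub colours x (joined to all rim vertices) and y, closing colour z, current colour u;
`Ch4.W_ne` gives it for x ≠ y by `Ch4.Pn (card)`. Here there is only the hub y. Trick: colour set α' = Option α with x = none:
colourings c : Fin n → Option α with all values ≠ none are colourings in α. So for y, z in α, y ≠ z, the number of good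
colourings of the rest of the rim in α is `Ch4.W none (some y) (some z) s (some z) = (Ch4.Pn (k + 1) s).1` (card (Option α) = k+1;
W_ne with u = z). Number of all colourings = sum over y, z with y ≠ z = k (k-1) (Pn (k+1) s).1. Follow Ch4/Count2.lean
(`OK_iff`, `decomp`, `proper_iff`, `card_colorings`, `isChromaticPoly_G`) with the one hub; or avoid Option: copy the recursion of
Ch4.W with only y (states: current colour = z, = y, other) and compare with Pn (q+1). P = the polynomial
X * ((X - 1) * (Ch4.Pn (X + 1) s).1) (`Ch4.map_Pn` with `Polynomial.evalRingHom`). Needs s.length ≥ 2 only so that the rim is a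
simple cycle (wrel irreflexive).
-/

namespace Pool.Agent.TC47

section W3aux

open Finset Classical

variable {α : Type}

private def W3_OK (y z : α) : (s : List Bool) → α → (Fin s.length → α) → Prop
  | [], u, _ => u ≠ z
  | b :: s, u, c => u ≠ c 0 ∧ (b = true → y ≠ c 0) ∧ W3_OK y z s (c 0) (fun i => c i.succ)

private noncomputable def W3_W [Fintype α] (y z : α) (s : List Bool) (u : α) : ℂ :=
  ∑ c : Fin s.length → α, if W3_OK y z s u c then 1 else 0

private lemma W3_nil [Fintype α] (y z u : α) : W3_W y z [] u = if u = z then 0 else 1 := by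
  unfold W3_W W3_OK
  by_cases h : u = z
  · simp [h]
  · simp [h]

private lemma W3_cons [Fintype α] (y z : α) (b : Bool) (s : List Bool) (u : α) :
    W3_W y z (b :: s) u =
      ∑ c : α, if u ≠ c ∧ (b = true → y ≠ c) then W3_W y z s c else 0 := by
  rw [W3_W]
  have h := Ch4.sum_fin_succ (n := s.length) (α := α)
    (fun c => if W3_OK y z (b :: s) u c then (1:ℂ) else 0)
  refine h.trans ?_
  apply Finset.sum_congr rfl
  intro c _
  by_cases h1 : u ≠ c ∧ (b = true → y ≠ c)
  · rw [if_pos h1, W3_W]
    apply Finset.sum_congr rfl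
    intro t _
    congr 1
    rw [eq_iff_iff]
    constructor
    · rintro ⟨-, -, h2⟩
      exact h2
    · intro h2
      exact ⟨h1.1, h1.2, h2⟩
  · rw [if_neg h1]
    apply Finset.sum_eq_zero
    intro t _
    rw [if_neg]
    rintro ⟨h2, h3, -⟩
    exact h1 ⟨h2, h3⟩

private lemma W3_ne [Fintype α] (y z : α) (hzy : z ≠ y) (s : List Bool) : ∀ u,
    W3_W y z s u = if u = z then (Ch4.Pn ((Fintype.card α : ℂ) + 1) s).1 else
      if u = y then (Ch4.Pn ((Fintype.card α : ℂ) + 1) s).2.1 else
        (Ch4.Pn ((Fintype.card α : ℂ) + 1) s).2.2 := by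
  induction s with
  | nil =>
    intro u; rw [W3_nil]
    by_cases h : u = z
    · simp [h, Ch4.Pn]
    · simp [h, Ch4.Pn]
  | cons b s ih =>
    intro u
    rw [W3_cons]
    cases b
    · by_cases huz : u = z
      · subst huz
        rw [if_pos rfl, Ch4.sum_two _ y u (Ch4.Pn ((Fintype.card α : ℂ) + 1) s).2.2
          (fun e => hzy e.symm)]
        · rw [if_pos ⟨hzy, by simp⟩, if_neg (fun h => h.1 rfl), ih y,
            if_neg (fun e => hzy e.symm), if_pos rfl]
          simp only [Ch4.Pn]; ring
        · intro c h1 h2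
          rw [if_pos ⟨fun e => h2 e.symm, by simp⟩, ih c, if_neg h2, if_neg h1]
      · rw [if_neg huz]
        by_cases huy : u = y
        · subst huy
          rw [if_pos rfl, Ch4.sum_two _ u z (Ch4.Pn ((Fintype.card α : ℂ) + 1) s).2.2 huz]
          · rw [if_neg (fun h => h.1 rfl), if_pos ⟨huz, by simp⟩, ih z, if_pos rfl]
            simp only [Ch4.Pn]; ring
          · intro c h1 h2
            rw [if_pos ⟨fun e => h1 e.symm, by simp⟩, ih c, if_neg h2, if_neg h1]
        · rw [if_neg huy, Ch4.sum_three _ y u z (Ch4.Pn ((Fintype.card α : ℂ) + 1) s).2.2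
            (fun e => huy e.symm) (fun e => hzy e.symm) huz]
          · rw [if_pos ⟨huy, by simp⟩, if_neg (fun h => h.1 rfl), if_pos ⟨huz, by simp⟩, ih z,
              if_pos rfl, ih y, if_neg (fun e => hzy e.symm), if_pos rfl]
            simp only [Ch4.Pn]; ring
          · intro c h1 h2 h3
            rw [if_pos ⟨fun e => h2 e.symm, by simp⟩, ih c, if_neg h3, if_neg h1]
    · by_cases huz : u = z
      · subst huz
        rw [if_pos rfl, Ch4.sum_two _ y u (Ch4.Pn ((Fintype.card α : ℂ) + 1) s).2.2
          (fun e => hzy e.symm)]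
        · rw [if_neg (fun h => h.2 rfl rfl), if_neg (fun h => h.1 rfl)]
          simp only [Ch4.Pn]; ring
        · intro c h1 h2
          rw [if_pos ⟨fun e => h2 e.symm, fun _ e => h1 e.symm⟩, ih c, if_neg h2, if_neg h1]
      · rw [if_neg huz]
        by_cases huy : u = y
        · subst huy
          rw [if_pos rfl, Ch4.sum_two _ u z (Ch4.Pn ((Fintype.card α : ℂ) + 1) s).2.2 huz]
          · rw [if_neg (fun h => h.1 rfl), if_pos ⟨huz, fun _ => huz⟩, ih z, if_pos rfl]
            simp only [Ch4.Pn]; ring
          · intro c h1 h2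
            rw [if_pos ⟨fun e => h1 e.symm, fun _ e => h1 e.symm⟩, ih c, if_neg h2, if_neg h1]
        · rw [if_neg huy, Ch4.sum_three _ y u z (Ch4.Pn ((Fintype.card α : ℂ) + 1) s).2.2
            (fun e => huy e.symm) (fun e => hzy e.symm) huz]
          · rw [if_neg (fun h => h.2 rfl rfl), if_neg (fun h => h.1 rfl),
              if_pos ⟨huz, fun _ e => hzy e.symm⟩, ih z, if_pos rfl]
            simp only [Ch4.Pn]; ring
          · intro c h1 h2 h3
            rw [if_pos ⟨fun e => h2 e.symm, fun _ e => h1 e.symm⟩, ih c, if_neg h3, if_neg h1]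

private lemma W3_sum [Fintype α] (s : List Bool) : (∑ y : α, ∑ z : α,
    if y ≠ z then W3_W y z s z else 0) =
    (Fintype.card α : ℂ) * (((Fintype.card α : ℂ) - 1) *
      (Ch4.Pn ((Fintype.card α : ℂ) + 1) s).1) := by
  have h1 : ∀ y : α, (∑ z : α, if y ≠ z then W3_W y z s z else 0) =
      ((Fintype.card α : ℂ) - 1) * (Ch4.Pn ((Fintype.card α : ℂ) + 1) s).1 := by
    intro y
    have h2 : ∀ z : α, (if y ≠ z then W3_W y z s z else 0) =
        (Ch4.Pn ((Fintype.card α : ℂ) + 1) s).1 +
          if z = y then -(Ch4.Pn ((Fintype.card α : ℂ) + 1) s).1 else 0 := by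
      intro z
      by_cases h : z = y
      · subst h
        rw [if_neg (fun h => h rfl), if_pos rfl]; ring
      · rw [if_pos (fun e => h e.symm), W3_ne y z h s z, if_pos rfl, if_neg h]; ring
    rw [Finset.sum_congr rfl (fun z _ => h2 z)]
    simp only [Finset.sum_add_distrib, Finset.sum_const, Finset.card_univ, nsmul_eq_mul,
      Finset.sum_ite_eq', Finset.mem_univ, if_true]
    ring
  rw [Finset.sum_congr rfl (fun y _ => h1 y), Finset.sum_const, Finset.card_univ, nsmul_eq_mul]

private lemma W3_OK_iff (y z : α) (s : List Bool) : ∀ (u : α) (c : Fin s.length → α),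
    W3_OK y z s u c ↔
      (∀ i j : Fin (s.length + 1), i.val + 1 = j.val →
        (Fin.cons u c : Fin (s.length + 1) → α) i ≠ (Fin.cons u c : Fin (s.length + 1) → α) j) ∧
      (∀ i : Fin s.length, Ch4.Xw s i.val → y ≠ c i) ∧
      (Fin.cons u c : Fin (s.length + 1) → α) (Fin.last _) ≠ z := by
  induction s with
  | nil =>
    intro u c
    constructor
    · intro h
      refine ⟨?_, ?_, h⟩
      · intro i j hij; have := i.2; have := j.2; simp only [List.length_nil] at *; omega
      · intro i; exact i.elim0
    · rintro ⟨-, -, h⟩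
      exact h
  | cons b s ih =>
    intro u c
    have e0 : ∀ (i : Fin (s.length + 1)), (Fin.cons u c : Fin ((b :: s).length + 1) → α) i.succ =
      (Fin.cons (c 0) (fun i => c i.succ) : Fin (s.length + 1) → α) i := by
      intro i
      refine Fin.cases ?_ (fun i => ?_) i
      · rfl
      · rfl
    have e1 : (Fin.cons u c : Fin ((b :: s).length + 1) → α) (Fin.last _) =
      (Fin.cons (c 0) (fun i => c i.succ) : Fin (s.length + 1) → α) (Fin.last _) :=
      e0 (Fin.last _)
    rw [W3_OK, ih, e1]
    constructor
    · rintro ⟨h1, h3, h4, h6, h7⟩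
      refine ⟨?_, ?_, ?_⟩
      · intro i j
        refine Fin.cases ?_ (fun i => ?_) i
        · refine Fin.cases ?_ (fun j => ?_) j
          · intro h; simp at h
          · intro h
            have : j = 0 := by
              apply Fin.ext
              simp only [Fin.val_succ, Fin.val_zero] at h ⊢
              omega
            subst this
            exact h1
        · refine Fin.cases ?_ (fun j => ?_) j
          · intro h; simp at h
          · intro h
            rw [e0, e0]
            exact h4 i j (by simp only [Fin.val_succ] at h; omega)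
      · intro i
        refine Fin.cases ?_ (fun i => ?_) i
        · exact h3
        · exact h6 i
      · exact h7
    · rintro ⟨h1, h3, h4⟩
      refine ⟨h1 0 (Fin.succ 0) rfl, h3 0, ?_, fun i => h3 i.succ, h4⟩
      intro i j hij
      have := h1 i.succ j.succ (by simp only [Fin.val_succ]; omega)
      rw [e0, e0] at this
      exact this

private def W3_dec (α : Type) (s : List Bool) : (WV s → α) ≃ α × (Fin (s.length + 1) → α) where
  toFun c := (c (.inl ()), fun i => c (.inr i))
  invFun t := fun v => match v with
    | .inl _ => t.1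
    | .inr i => t.2 i
  left_inv c := by
    funext v
    rcases v with b | i
    · rfl
    · rfl
  right_inv t := rfl

private lemma W3_proper (s : List Bool) (y z : α) (c : Fin s.length → α) :
    (∀ u v, wrel s u v → (W3_dec α s).symm (y, Fin.cons z c) u ≠
      (W3_dec α s).symm (y, Fin.cons z c) v) ↔ y ≠ z ∧ W3_OK y z s z c := by
  rw [W3_OK_iff]
  constructor
  · intro h
    refine ⟨h (.inl ()) (.inr 0) trivial, ?_, ?_, ?_⟩
    · intro i j hij
      exact h (.inr i) (.inr j) (Or.inl hij)
    · intro i hi
      exact h (.inl ()) (.inr i.succ) hi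
    · exact h (.inr (Fin.last _)) (.inr 0) (Or.inr ⟨rfl, rfl⟩)
  · rintro ⟨h2, h3, h5, h6⟩ u v huv
    rcases u with b | i
    · rcases v with b' | j
      · exact huv.elim
      · revert huv
        refine Fin.cases ?_ (fun j => ?_) j
        · intro _; exact h2
        · intro hj; exact h5 j hj
    · rcases v with b' | j
      · exact huv.elim
      · rcases huv with h | ⟨rfl, rfl⟩
        · exact h3 i j h
        · exact h6

private lemma W3_card [Fintype α] (s : List Bool) :
    (Nat.card {c : WV s → α // ∀ x y, wrel s x y → c x ≠ c y} : ℂ) =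
      (Fintype.card α : ℂ) * (((Fintype.card α : ℂ) - 1) *
        (Ch4.Pn ((Fintype.card α : ℂ) + 1) s).1) := by
  rw [Nat.card_eq_fintype_card, Fintype.card_subtype, Finset.card_filter, Nat.cast_sum]
  simp only [Nat.cast_ite, Nat.cast_one, Nat.cast_zero]
  rw [← (W3_dec α s).symm.sum_comp, Fintype.sum_prod_type, ← W3_sum]
  apply Finset.sum_congr rfl; intro y _
  rw [Ch4.sum_fin_succ]
  apply Finset.sum_congr rfl; intro z _
  simp only [W3_proper]
  by_cases h : y ≠ z
  · rw [if_pos h, W3_W]
    apply Finset.sum_congr rfl; intro c _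
    simp only [h, true_and, ne_eq, not_false_eq_true]
  · rw [if_neg h]
    apply Finset.sum_eq_zero; intro c _
    rw [if_neg (fun h' => h h'.1)]

end W3aux

private lemma W3_adj (s : List Bool) (hs : s ≠ []) (x y : WV s) :
    (wh s).Adj x y ↔ wrel s x y ∨ wrel s y x := by
  rw [wh, SimpleGraph.fromRel_adj]
  constructor
  · exact fun h => h.2
  · intro h
    refine ⟨?_, h⟩
    rintro rfl
    have h0 : ¬ wrel s x x := by
      rcases x with b | i
      · exact id
      · rintro (h | ⟨h1, h2⟩)
        · omega
        · rw [h1] at h2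
          have := congrArg Fin.val h2
          simp only [Fin.val_last, Fin.val_zero] at this
          exact hs (List.length_eq_zero_iff.mp this)
    exact h.elim h0 h0

theorem wh_poly (s : List Bool) (hs : 2 ≤ s.length) : ∃ P : Polynomial ℂ,
    Ch3.IsChromaticPoly (wh s) P ∧
      ∀ q : ℂ, P.eval q = q * ((q - 1) * (Ch4.Pn (q + 1) s).1) := by
  have hs' : s ≠ [] := by
    rintro rfl
    simp at hs
  have hev : ∀ q : ℂ, (Polynomial.X * ((Polynomial.X - 1) *
      (Ch4.Pn ((Polynomial.X : Polynomial ℂ) + 1) s).1)).eval q =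
      q * ((q - 1) * (Ch4.Pn (q + 1) s).1) := by
    intro q
    have h := Ch4.map_Pn (Polynomial.evalRingHom q) ((Polynomial.X : Polynomial ℂ) + 1) s
    rw [Polynomial.eval_mul, Polynomial.eval_mul, Polynomial.eval_X, Polynomial.eval_sub,
      Polynomial.eval_X, Polynomial.eval_one]
    have h1 : (Polynomial.evalRingHom q) ((Polynomial.X : Polynomial ℂ) + 1) = q + 1 := by
      simp
    rw [h1] at h
    rw [h]
    rfl
  refine ⟨_, ?_, hev⟩
  intro k
  rw [hev]
  have h2 := W3_card (α := Fin k) s
  rw [Fintype.card_fin] at h2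
  rw [← h2]
  congr 1
  apply Nat.card_congr
  refine ⟨fun c => ⟨fun v => c.1 v, ?_⟩, fun c => ⟨fun v => c v, ?_⟩, ?_, ?_⟩
  · intro a b hab
    rw [W3_adj s hs'] at hab
    rcases hab with h | h
    · exact c.2 a b h
    · exact fun e => c.2 b a h e.symm
  · intro a b hab
    have : (wh s).Adj a b := by
      rw [W3_adj s hs']; exact Or.inl hab
    exact c.map_rel this
  · intro c
    rfl
  · intro c
    rfl

end Pool.Agent.TC47
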