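import Pool.Agent.TC47.WheelDefs
import Pool.Agent.Ch4.Final

/-!
# W4: a zero of the closed form is a zero of the polynomial
-/

namespace Pool.Agent.TC47

open Pool.Agent.Ch4

theorem wh_closed (n b m : ℕ) (v : ℂ) (hn : 3 ≤ n) (hv : 1 - v ≠ 0)
    (h : (1 + v) ^ n * ((1 - v ^ (m + 2)) / (1 - v)) ^ b = 1 + v) :
    ∃ s : List Bool, 2 ≤ s.length ∧ (1 - v) * ((1 - v - 1) * (Ch4.Pn (1 - v + 1) s).1) = 0 := by
  obtain ⟨n', rfl⟩ : ∃ n', n = n' + 3 := ⟨n - 3, by omega⟩
  set gs : List ℕ := 0 :: 0 :: (List.replicate n' 0 ++ List.replicate b m) with hgs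
  refine ⟨bw gs, ?_, ?_⟩
  · rw [hgs]; simp [bw]
  · have hq : (1 - v + 1 : ℂ) = 2 - v := by ring
    rw [hq]
    have h0 := Pn_block (2 - v) (bw gs) (Uv (2 - v) gs) (Pn_bw (2 - v) gs) 0
    have h1 : (Pn (2 - v) (bw gs)).1 = (Uv (2 - v) (0 :: gs)).1 := by
      have h0' : Pn (2 - v) (bw gs) = _ := h0
      rw [h0']; rfl
    obtain ⟨h3, h4⟩ := Uv_sum (2 - v) (0 :: gs)
    have e2 : (List.map (fun g => g + 1) (0 :: gs)).sum = n' + 3 + b * (m + 1) := by
      rw [hgs]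
      simp only [List.map_cons, List.map_append, List.map_replicate, List.sum_cons,
        List.sum_append, List.sum_replicate, smul_eq_mul]
      ring
    have e3 : (List.map (fun g => Ac (2 - v) (g + 1)) (0 :: gs)).prod =
        (Ac (2 - v) 1) ^ (n' + 3) * (Ac (2 - v) (m + 1)) ^ b := by
      rw [hgs]
      simp only [List.map_cons, List.map_append, List.map_replicate, List.prod_cons,
        List.prod_append, List.prod_replicate, zero_add]
      ring
    have e4 : Ac (2 - v) 1 = -(1 + v) := by simp only [Ac]; ring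
    have e5 : Ac (2 - v) (m + 1) = (-1) ^ (m + 1) * ((1 - v ^ (m + 2)) / (1 - v)) := by
      have h6 := Ac_closed (2 - v) (m + 1)
      have h7 : (2 - v - 1 : ℂ) = 1 - v := by ring
      have h8 : (2 - v - 2 : ℂ) = -v := by ring
      rw [h7, h8] at h6
      rw [mul_div_assoc', eq_div_iff hv]
      rw [mul_comm] at h6
      rw [h6, neg_pow]
      ring
    rw [e3, e4, e5] at h3
    rw [e2] at h4
    rw [neg_pow (1 + v), mul_pow ((-1 : ℂ) ^ (m + 1)), ← pow_mul] at h3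
    have e9 : ((-1 : ℂ)) ^ (n' + 3 + b * (m + 1)) = (-1) ^ (n' + 3) * (-1) ^ ((m + 1) * b) := by
      rw [pow_add, mul_comm b]
    rw [e9] at h4
    rw [h1]
    have h5 : (1 - v - 1) * (Uv (2 - v) (0 :: gs)).1 = 0 := by
      have : (1 - v - 1) * (Uv (2 - v) (0 :: gs)).1 =
        ((Uv (2 - v) (0 :: gs)).1 + (2 - v - 3) * (Uv (2 - v) (0 :: gs)).2) -
        (1 + v) * ((Uv (2 - v) (0 :: gs)).1 - (Uv (2 - v) (0 :: gs)).2) := by ring
      rw [this, h3, h4]
      linear_combination (-1) ^ (n' + 3) * (-1) ^ ((m + 1) * b) * h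
    rw [h5, mul_zero]

end Pool.Agent.TC47
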