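import Pool.Agent.TC47.Main
import Pool.Agent.TC47.W3
import Pool.Agent.TC47.W4
import Pool.Agent.TC47.W5
import Pool.Agent.Ch4.Final

/-!
# Density outside two lenses
-/

namespace Pool.Agent.TC47

open Filter Topology
open Pool.Agent.Ch3 (rootSet)

lemma threeConnRoots_subset_rootSet : threeConnRoots ⊆ rootSet := by
  rintro q ⟨n, G, h1, h2, h3⟩
  exact ⟨n, G, h1, planarG_of_straight G h2, h3⟩

theorem dense_in (z : ℂ) (h0 : ‖z - 1‖ < 1) (h1 : 1 < ‖z‖) (h2 : 1 < ‖z - 2‖) :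
    z ∈ closure threeConnRoots := by
  rw [Metric.mem_closure_iff]
  intro ε hε
  obtain ⟨n, b, m, v, hn, hv, hv1, h⟩ := wh_zero (1 - z) (by rw [norm_sub_rev]; exact h0)
    (by rw [show 1 - (1 - z) = z by ring]; exact h1)
    (by rw [show 1 + (1 - z) = -(z - 2) by ring, norm_neg]; exact h2)
    (min (ε / 2) (‖z - 2‖ - 1)) (lt_min (by linarith) (by linarith))
  have hv2 : (1 : ℂ) - v ≠ 0 := by
    intro h'
    have : v = 1 := by linear_combination -h'
    rw [this, norm_one] at hv1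
    exact lt_irrefl _ hv1
  obtain ⟨s, hs, hz⟩ := wh_closed n b m v hn hv2 h
  obtain ⟨P, hP, hPq⟩ := wh_poly s hs
  have he : ‖(1 - v) - z‖ < min (ε / 2) (‖z - 2‖ - 1) := by
    rw [show (1 - v) - z = -(v - (1 - z)) by ring, norm_neg]
    exact hv
  have he1 : ‖(1 - v) - z‖ < ε / 2 := lt_of_lt_of_le he (min_le_left _ _)
  have he2 : ‖(1 - v) - z‖ < ‖z - 2‖ - 1 := lt_of_lt_of_le he (min_le_right _ _)
  have hfar : 1 < ‖(1 - v) - 2‖ := by
    have : ‖z - 2‖ ≤ ‖(1 - v) - 2‖ + ‖(1 - v) - z‖ := by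
      calc ‖z - 2‖ = ‖((1 - v) - 2) - ((1 - v) - z)‖ := by congr 1; ring
        _ ≤ _ := norm_sub_le _ _
    linarith
  have hcl := good_all (wh s) (wh_connected s hs) (wh_straight s hs) P (1 - v) hP
    ((hPq (1 - v)).trans hz) hfar
  rw [Metric.mem_closure_iff] at hcl
  obtain ⟨q, hq, hq1⟩ := hcl (ε / 2) (by linarith)
  refine ⟨q, hq, ?_⟩
  calc dist z q ≤ dist z (1 - v) + dist (1 - v) q := dist_triangle _ _ _
    _ < ε / 2 + ε / 2 := by
      refine add_lt_add ?_ hq1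
      rw [dist_comm, dist_eq_norm]
      exact he1
    _ = ε := by ring

theorem dense_two_lenses (z : ℂ) (h : 1 ≤ ‖z - 1‖ ∨ (1 ≤ ‖z‖ ∧ 1 ≤ ‖z - 2‖)) :
    z ∈ closure rootSet := by
  rcases h with h | ⟨h1, h2⟩
  · exact Ch4.dense_ext_closed z h
  · rcases le_or_gt 1 ‖z - 1‖ with h | h
    · exact Ch4.dense_ext_closed z h
    -- move away from the real axis
    set σ : ℝ := if 0 ≤ z.im then 1 else -1 with hσ
    have hσ1 : σ * z.im = |z.im| := by
      rw [hσ]
      split_ifs with h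
      · rw [one_mul, abs_of_nonneg h]
      · rw [abs_of_neg (not_le.mp h)]; ring
    have hσ2 : σ ^ 2 = 1 := by
      rw [hσ]; split_ifs <;> norm_num
    have hkey : ∀ (c η : ℝ), 0 < η → ‖z - c‖ < ‖(z + (σ * η : ℝ) * Complex.I) - c‖ := by
      intro c η hη
      have e1 : ‖z - c‖ ^ 2 = (z.re - c) ^ 2 + z.im ^ 2 := by
        rw [← Complex.normSq_eq_norm_sq, Complex.normSq_apply]
        simp
        ring
      have e2 : ‖(z + (σ * η : ℝ) * Complex.I) - c‖ ^ 2 = (z.re - c) ^ 2 + (z.im + σ * η) ^ 2 := by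
        rw [← Complex.normSq_eq_norm_sq, Complex.normSq_apply]
        simp
        ring
      have e3 : (z.im + σ * η) ^ 2 = z.im ^ 2 + 2 * η * |z.im| + η ^ 2 := by
        rw [← hσ1]; linear_combination η ^ 2 * hσ2
      have e4 : ‖z - c‖ ^ 2 < ‖(z + (σ * η : ℝ) * Complex.I) - c‖ ^ 2 := by
        rw [e1, e2, e3]
        have := abs_nonneg z.im
        nlinarith [mul_pos hη hη, mul_nonneg hη.le this]
      exact lt_of_pow_lt_pow_left₀ 2 (norm_nonneg _) e4
    have hcont : Tendsto (fun η : ℝ => z + (σ * η : ℝ) * Complex.I) (𝓝[>] 0) (𝓝 z) := by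
      have : Continuous (fun η : ℝ => z + (σ * η : ℝ) * Complex.I) := by fun_prop
      have h3 := this.tendsto 0
      simp only [mul_zero, Complex.ofReal_zero, zero_mul, add_zero] at h3
      exact h3.mono_left nhdsWithin_le_nhds
    refine isClosed_closure.mem_of_tendsto hcont ?_
    have hnear : ∀ᶠ η : ℝ in 𝓝[>] 0, ‖(z + (σ * η : ℝ) * Complex.I) - 1‖ < 1 := by
      have h3 : Tendsto (fun η : ℝ => ‖(z + (σ * η : ℝ) * Complex.I) - 1‖) (𝓝[>] 0)
          (𝓝 ‖z - 1‖) := (hcont.sub_const 1).norm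
      exact h3.eventually_lt_const h
    filter_upwards [hnear, self_mem_nhdsWithin] with η hη1 hη2
    refine closure_mono threeConnRoots_subset_rootSet (dense_in _ hη1 ?_ ?_)
    · have := hkey 0 η hη2
      simp only [Complex.ofReal_zero, sub_zero] at this
      linarith
    · have := hkey 2 η hη2
      rw [show ((2 : ℝ) : ℂ) = 2 by norm_num] at this
      linarith

end Pool.Agent.TC47
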