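import Pool.Agent.TC47.GS

/-!
# G1: places of the new vertices, and rays
Facts used by G2 and G3 (h : Setup ..). Plan. `new_pt`: the radius of vertex j = i+1 (1 ≤ j ≤ m) is r. `new_norm`: norm of pt.
`fnew_inj`: inl-inl by `h.dr`; inl v = inr i: v = A: 0 ≠ pt r _ (r > 0); v ≠ A: ‖f v‖ > r; inr-inr: `pt_inj`
(directions in (0, 2π)) and `dir_lt`. `nb_dir`: f y ≠ 0 (injective, y ≠ A), `exists_pt`; θ in (α, β) is excluded by
`h.free`; if θ = α and y ≠ u: f y = pt s α and f u = pt ρ α are on one ray from f A = 0, so one of them is in the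
segment from 0 to the other, against `h.dr` (edges A u, A y); in the same way θ = β gives y = u'.
`path_old`: j = 0: `h.disu` / the vertex form `h.offu` with w = pth 1 (norm r); j = m: `h.disu'`, `h.offu'` with
`segment_symm`, w = pth m; 1 ≤ j < m: `pth_norm` against `h.away` / `h.small`.
-/

namespace Pool.Agent.TC47

variable {V : Type} {G : SimpleGraph V} {f : V → ℂ} {A u u' : V} {ρ ρ' r α β : ℝ} {m : ℕ}

private theorem G1_norm_pt {r : ℝ} (hr : 0 < r) (θ : ℝ) : ‖pt r θ‖ = r := by
  unfold pt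
  rw [norm_mul, Complex.norm_exp_ofReal_mul_I, mul_one, Complex.norm_real, Real.norm_eq_abs,
    abs_of_pos hr]

private theorem G1_pt_ne {r : ℝ} (hr : 0 < r) (θ : ℝ) : pt r θ ≠ 0 := by
  intro h
  have h1 := G1_norm_pt hr θ
  rw [h, norm_zero] at h1
  linarith

private theorem G1_seg {s t : ℝ} (hs : 0 < s) (hst : s ≤ t) (θ : ℝ) :
    pt s θ ∈ segment ℝ (0 : ℂ) (pt t θ) := by
  have ht : 0 < t := lt_of_lt_of_le hs hst
  rw [segment_eq_image]
  refine ⟨s / t, ⟨by positivity, (div_le_one ht).2 hst⟩, ?_⟩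
  have htc : (t : ℂ) ≠ 0 := by exact_mod_cast ht.ne'
  simp only [smul_zero, zero_add, Complex.real_smul, pt]
  push_cast
  field_simp

theorem pth_first (h : Setup G f A u u' ρ ρ' r α β m) : pth ρ ρ' r α β m 0 = f u := by
  unfold pth
  rw [if_pos rfl, dir_zero, h.fu]

theorem pth_last (h : Setup G f A u u' ρ ρ' r α β m) : pth ρ ρ' r α β m (m + 1) = f u' := by
  unfold pth
  rw [if_neg (by omega), if_pos rfl, dir_last, h.fu']

theorem new_norm (h : Setup G f A u u' ρ ρ' r α β m) (j : ℕ) (hj : 1 ≤ j) (hj' : j ≤ m) :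
    pth ρ ρ' r α β m j = pt r (dir α β m j) ∧ ‖pth ρ ρ' r α β m j‖ = r := by
  have h1 : pth ρ ρ' r α β m j = pt r (dir α β m j) := by
    unfold pth
    rw [if_neg (by omega), if_neg (by omega)]
  refine ⟨h1, ?_⟩
  rw [h1]
  exact G1_norm_pt h.r0 _

private theorem G1_dir_pos (h : Setup G f A u u' ρ ρ' r α β m) (j : ℕ) (hj : 1 ≤ j) :
    α < dir α β m j := by
  have h1 := dir_lt h.ab m (show 0 < j by omega)
  rwa [dir_zero] at h1

private theorem G1_dir_lt (h : Setup G f A u u' ρ ρ' r α β m) (j : ℕ) (hj : j ≤ m) :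
    dir α β m j < β := by
  have h1 := dir_lt h.ab m (show j < m + 1 by omega)
  rwa [dir_last] at h1

private theorem G1_ne (h : Setup G f A u u' ρ ρ' r α β m) (v : V) (j : ℕ) (hj : 1 ≤ j)
    (hj' : j ≤ m) : f v ≠ pth ρ ρ' r α β m j := by
  intro he
  have h1 := (new_norm h j hj hj').2
  rw [← he] at h1
  by_cases hv : v = A
  · rw [hv, h.fA, norm_zero] at h1
    exact absurd h1 h.r0.ne
  · have := h.small v hv
    linarith

theorem fnew_inj (h : Setup G f A u u' ρ ρ' r α β m) :
    Function.Injective (fnew f ρ ρ' r α β m) := by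
  rintro (v | i) (w | j) he
  · exact congrArg Sum.inl (h.dr.1 he)
  · exact absurd he (G1_ne h v (j.val + 1) (by omega) (by omega))
  · exact absurd he.symm (G1_ne h w (i.val + 1) (by omega) (by omega))
  · have he' : pth ρ ρ' r α β m (i.val + 1) = pth ρ ρ' r α β m (j.val + 1) := he
    rw [(new_norm h (i.val + 1) (by omega) (by omega)).1,
      (new_norm h (j.val + 1) (by omega) (by omega)).1] at he'
    have hi1 := G1_dir_pos h (i.val + 1) (by omega)
    have hi2 := G1_dir_lt h (i.val + 1) (by omega)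
    have hj1 := G1_dir_pos h (j.val + 1) (by omega)
    have hj2 := G1_dir_lt h (j.val + 1) (by omega)
    have ha := h.a0
    have hb := h.b2
    have h1 := (pt_inj h.r0 h.r0 (by rw [abs_lt]; constructor <;> linarith) he').2
    rcases lt_trichotomy i.val j.val with hlt | heq | hlt
    · have := dir_lt h.ab m (show i.val + 1 < j.val + 1 by omega)
      linarith
    · exact congrArg Sum.inr (Fin.ext heq)
    · have := dir_lt h.ab m (show j.val + 1 < i.val + 1 by omega)
      linarith

private theorem G1_same (h : Setup G f A u u' ρ ρ' r α β m) {y v : V} {s t θ : ℝ}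
    (hy : G.Adj A y) (hv : G.Adj A v) (hs : 0 < s) (ht : 0 < t) (hfy : f y = pt s θ)
    (hfv : f v = pt t θ) : y = v := by
  by_contra hne
  rcases le_total s t with hst | hst
  · have h1 := G1_seg hs hst θ
    rw [← hfy, ← hfv, ← h.fA] at h1
    exact h.dr.2.1 A v y hv hy.ne' hne h1
  · have h1 := G1_seg ht hst θ
    rw [← hfy, ← hfv, ← h.fA] at h1
    exact h.dr.2.1 A y v hy hv.ne' (Ne.symm hne) h1

/-- the direction of a neighbour of `A` -/
theorem nb_dir (h : Setup G f A u u' ρ ρ' r α β m) (y : V) (hy : G.Adj A y) :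
    ∃ s θ : ℝ, 0 < s ∧ 0 ≤ θ ∧ θ < 2 * Real.pi ∧ f y = pt s θ ∧
      ((y = u ∧ θ = α) ∨ (y = u' ∧ θ = β) ∨ (y ≠ u ∧ y ≠ u' ∧ (θ < α ∨ β < θ))) := by
  have hy0 : f y ≠ 0 := by
    rw [← h.fA]
    exact fun he => hy.ne' (h.dr.1 he)
  obtain ⟨s, θ, hs, h0, h2, hf⟩ := exists_pt (f y) hy0
  refine ⟨s, θ, hs, h0, h2, hf, ?_⟩
  have ha := h.a0
  have hab := h.ab
  have hb := h.b2
  have hu : y = u → θ = α := by
    intro hyu
    have h1 : pt s θ = pt ρ α := by rw [← hf, hyu, h.fu]
    exact (pt_inj hs h.rho (by rw [abs_lt]; constructor <;> linarith) h1).2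
  have hu' : y = u' → θ = β := by
    intro hyu
    have h1 : pt s θ = pt ρ' β := by rw [← hf, hyu, h.fu']
    exact (pt_inj hs h.rho' (by rw [abs_lt]; constructor <;> linarith) h1).2
  by_cases e1 : θ = α
  · left
    refine ⟨?_, e1⟩
    rw [e1] at hf
    exact G1_same h hy h.adj hs h.rho hf h.fu
  · by_cases e2 : θ = β
    · right; left
      refine ⟨?_, e2⟩
      rw [e2] at hf
      exact G1_same h hy h.adj' hs h.rho' hf h.fu'
    · right; right
      refine ⟨fun hyu => e1 (hu hyu), fun hyu => e2 (hu' hyu), ?_⟩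
      by_contra hcon
      rw [not_or, not_lt, not_lt] at hcon
      exact h.free y hy s θ hs (lt_of_le_of_ne hcon.1 (Ne.symm e1)) (lt_of_le_of_ne hcon.2 e2) hf

/-- the path does not meet old vertices -/
theorem path_old_vertex (h : Setup G f A u u' ρ ρ' r α β m) (j : ℕ) (hj : j ≤ m) (v : V)
    (hv : v ≠ A) (h0 : j = 0 → v ≠ u) (h1 : j = m → v ≠ u') :
    f v ∉ segment ℝ (pth ρ ρ' r α β m j) (pth ρ ρ' r α β m (j + 1)) := by
  have hm := h.m3
  by_cases e0 : j = 0
  · subst e0
    rw [pth_first h]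
    exact h.offu v hv (h0 rfl) _ (new_norm h 1 le_rfl (by omega)).2.le
  · by_cases e1 : j = m
    · subst e1
      rw [pth_last h, segment_symm]
      exact h.offu' v hv (h1 rfl) _ (new_norm h j (by omega) le_rfl).2.le
    · intro hz
      have h2 := pth_norm ρ ρ' r α β m j h.r0 (by omega) (by omega) hz
      have h3 := h.small v hv
      linarith

/-- the path does not meet old edges away from `A` -/
theorem path_old_edge (h : Setup G f A u u' ρ ρ' r α β m) (j : ℕ) (hj : j ≤ m) (x y : V)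
    (hxy : G.Adj x y) (hx : x ≠ A) (hy : y ≠ A) (h0 : j = 0 → x ≠ u ∧ y ≠ u)
    (h1 : j = m → x ≠ u' ∧ y ≠ u') :
    Disjoint (segment ℝ (pth ρ ρ' r α β m j) (pth ρ ρ' r α β m (j + 1)))
      (segment ℝ (f x) (f y)) := by
  have hm := h.m3
  by_cases e0 : j = 0
  · subst e0
    rw [pth_first h]
    exact h.disu x y hxy hx hy (h0 rfl).1 (h0 rfl).2 _ (new_norm h 1 le_rfl (by omega)).2.le
  · by_cases e1 : j = m
    · subst e1
      rw [pth_last h, segment_symm]
      exact h.disu' x y hxy hx hy (h1 rfl).1 (h1 rfl).2 _ (new_norm h j (by omega) le_rfl).2.le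
    · rw [Set.disjoint_left]
      intro z hz hz'
      have h2 := pth_norm ρ ρ' r α β m j h.r0 (by omega) (by omega) hz
      have h3 := h.away x y hxy hx hy z hz'
      linarith

end Pool.Agent.TC47
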