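import Pool.Agent.TC47.G1

/-!
# G2: no vertex on the segment of another edge
h : Setup. The edges (`fanRel`, one direction): (a) inl x - inl y with G.Adj x y; (b) inl A - inr i (segment from 0 to
pt r (dir (i+1))); (c) inl u - inr i with i = 0: the path segment j = 0 (`pth_first`); (d) inl u' - inr i with i+1 = m: the
path segment j = m, reversed (`segment_symm`, `pth_last`); (e) inr i - inr (i+1): the path segment j = i+1.
A relation inl x - inr i may hold for several reasons; treat the disjunction of `fanRel` case by case.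
Vertex w: inl v or inr k. (a): v: `h.dr`; inr k: if x = A: the neighbour y is at pt s θ with θ outside (α, β) (`nb_dir`), a
point of the segment 0 - f y is 0 or pt s' θ, but inr k is pt r (dir (k+1)), dir (k+1) in (α, β), `pt_inj` (same for
y = A); if x, y ≠ A: `h.away` against norm r. (b): inl v, v ≠ A: norm > r against norm ≤ r; inr k, k ≠ i: directions
differ (`pt_inj`, `dir_lt`). (c), (d), (e): inl A: 0 is excluded by `pth_zero`; inl v with v ≠ A: `path_old_vertex`; inr k:
`pth_vertex`.
-/

namespace Pool.Agent.TC47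

private lemma G2_path {V : Type} {G : SimpleGraph V} {f : V → ℂ} {A u u' : V}
    {ρ ρ' r α β : ℝ} {m : ℕ}
    (h : Setup G f A u u' ρ ρ' r α β m) (j : ℕ) (hj : j ≤ m) (w : V ⊕ Fin m)
    (h0 : j = 0 → w ≠ Sum.inl u) (h1 : j = m → w ≠ Sum.inl u')
    (h2 : ∀ k : Fin m, w = Sum.inr k → k.val + 1 ≠ j ∧ k.val + 1 ≠ j + 1) :
    fnew f ρ ρ' r α β m w ∉
      segment ℝ (pth ρ ρ' r α β m j) (pth ρ ρ' r α β m (j + 1)) := by
  rcases w with v | k
  · show f v ∉ _
    by_cases hv : v = A
    · rw [hv, h.fA]
      exact pth_zero ρ ρ' r α β m j h.rho h.rho' h.r0 h.a0 h.ab h.b2 h.m3 hj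
    · exact path_old_vertex h j hj v hv (fun e he => h0 e (by rw [he]))
        (fun e he => h1 e (by rw [he]))
  · show pth ρ ρ' r α β m (k.val + 1) ∉ _
    obtain ⟨h3, h4⟩ := h2 k rfl
    have hk := k.isLt
    exact pth_vertex ρ ρ' r α β m j (k.val + 1) h.rho h.rho' h.r0 h.a0 h.ab h.b2 h.m3 hj
      (by omega) h3 h4

private lemma G2_dir {V : Type} {G : SimpleGraph V} {f : V → ℂ} {A u u' : V}
    {ρ ρ' r α β : ℝ} {m : ℕ}
    (h : Setup G f A u u' ρ ρ' r α β m) (k : Fin m) :
    α < dir α β m (k.val + 1) ∧ dir α β m (k.val + 1) < β := by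
  have hk := k.isLt
  constructor
  · have h1 := dir_lt h.ab m (show 0 < k.val + 1 by omega)
    rwa [dir_zero] at h1
  · have h1 := dir_lt h.ab m (show k.val + 1 < m + 1 by omega)
    rwa [dir_last] at h1

private lemma G2_seg0 {z p : ℂ} (hz : z ∈ segment ℝ 0 p) :
    ∃ t : ℝ, 0 ≤ t ∧ t ≤ 1 ∧ z = (t : ℂ) * p := by
  obtain ⟨a, b, ha, hb, hab, rfl⟩ := hz
  refine ⟨b, hb, by linarith, ?_⟩
  rw [smul_zero, zero_add, Complex.real_smul]

private lemma G2_A {V : Type} {G : SimpleGraph V} {f : V → ℂ} {A u u' : V}
    {ρ ρ' r α β : ℝ} {m : ℕ}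
    (h : Setup G f A u u' ρ ρ' r α β m) (y : V) (hy : G.Adj A y) (k : Fin m) :
    pth ρ ρ' r α β m (k.val + 1) ∉ segment ℝ (f A) (f y) := by
  intro hmem
  have hk := k.isLt
  obtain ⟨s, θ, hs, hθ0, hθ2, hfy, hθ⟩ := nb_dir h y hy
  obtain ⟨hd1, hd2⟩ := G2_dir h k
  obtain ⟨hn1, hn2⟩ := new_norm h (k.val + 1) (by omega) (by omega)
  rw [h.fA] at hmem
  obtain ⟨t, ht0, ht1, hz⟩ := G2_seg0 hmem
  have hr := h.r0
  have htne : t ≠ 0 := by
    intro h0
    rw [h0, Complex.ofReal_zero, zero_mul] at hz
    rw [hz, norm_zero] at hn2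
    linarith
  have htpos : 0 < t := lt_of_le_of_ne ht0 (Ne.symm htne)
  have hz2 : pt r (dir α β m (k.val + 1)) = pt (t * s) θ := by
    rw [← hn1, hz, hfy]
    unfold pt
    push_cast
    ring
  have ha0 := h.a0
  have hb2 := h.b2
  have habs : |dir α β m (k.val + 1) - θ| < 2 * Real.pi := by
    rw [abs_lt]
    constructor <;> linarith
  have hinj := (pt_inj h.r0 (mul_pos htpos hs) habs hz2).2
  rcases hθ with ⟨_, h1⟩ | ⟨_, h1⟩ | ⟨_, _, h1 | h1⟩ <;> linarith

theorem fnew_off {V : Type} {G : SimpleGraph V} {f : V → ℂ} {A u u' : V} {ρ ρ' r α β : ℝ} {m : ℕ}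
    (h : Setup G f A u u' ρ ρ' r α β m) (x y w : V ⊕ Fin m) (hxy : fanRel G A u u' m x y)
    (hx : w ≠ x) (hy : w ≠ y) : fnew f ρ ρ' r α β m w ∉
      segment ℝ (fnew f ρ ρ' r α β m x) (fnew f ρ ρ' r α β m y) := by
  have hm3 := h.m3
  rcases x with x | i
  · rcases y with y | i
    · have hadj : G.Adj x y := hxy
      rcases w with v | k
      · show f v ∉ segment ℝ (f x) (f y)
        exact h.dr.2.1 x y v hadj (fun e => hx (by rw [e])) (fun e => hy (by rw [e]))
      · show pth ρ ρ' r α β m (k.val + 1) ∉ segment ℝ (f x) (f y)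
        have hk := k.isLt
        by_cases hxA : x = A
        · rw [hxA] at hadj ⊢
          exact G2_A h y hadj k
        · by_cases hyA : y = A
          · rw [hyA] at hadj ⊢
            rw [segment_symm]
            exact G2_A h x hadj.symm k
          · intro hmem
            have h1 := h.away x y hadj hxA hyA _ hmem
            have h2 := (new_norm h (k.val + 1) (by omega) (by omega)).2
            linarith
    · have hi := i.isLt
      have hrel : x = A ∨ (x = u ∧ i.val = 0) ∨ (x = u' ∧ i.val + 1 = m) := hxy
      show _ ∉ segment ℝ (f x) (pth ρ ρ' r α β m (i.val + 1))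
      rcases hrel with hxA | ⟨hxu, hi0⟩ | ⟨hxu, him⟩
      · intro hmem
        rw [hxA, h.fA] at hmem
        obtain ⟨t, ht0, ht1, hz⟩ := G2_seg0 hmem
        have hn := (new_norm h (i.val + 1) (by omega) (by omega)).2
        have hr := h.r0
        have hnz : ‖fnew f ρ ρ' r α β m w‖ = t * r := by
          rw [hz, norm_mul, hn, Complex.norm_real, Real.norm_eq_abs, abs_of_nonneg ht0]
        have htr : t * r ≤ r := by nlinarith
        rcases w with v | k
        · have hvA : v ≠ A := fun e => hx (by rw [e, hxA])
          have h1 := h.small v hvA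
          have h2 : ‖f v‖ = t * r := hnz
          linarith
        · have hk := k.isLt
          have h3 : ‖pth ρ ρ' r α β m (k.val + 1)‖ = t * r := hnz
          have h4 := (new_norm h (k.val + 1) (by omega) (by omega)).2
          have h5 : t = 1 := by
            have h6 : (t - 1) * r = 0 := by linarith
            rcases mul_eq_zero.mp h6 with h7 | h7
            · linarith
            · exact absurd h7 (ne_of_gt hr)
          rw [h5, Complex.ofReal_one, one_mul] at hz
          have h8 : fnew f ρ ρ' r α β m (Sum.inr k) = fnew f ρ ρ' r α β m (Sum.inr i) := hz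
          exact hy (fnew_inj h h8)
      · rw [hxu, hi0, ← pth_first h]
        apply G2_path h 0 (Nat.zero_le m) w
        · intro _
          rw [← hxu]
          exact hx
        · intro e
          omega
        · intro k hk
          refine ⟨by omega, fun e => hy ?_⟩
          rw [hk]
          congr 1
          apply Fin.ext
          omega
      · have h1 : pth ρ ρ' r α β m (m + 1) = f x := by rw [hxu]; exact pth_last h
        rw [him, ← h1, segment_symm]
        apply G2_path h m le_rfl w
        · intro e
          omega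
        · intro _
          rw [← hxu]
          exact hx
        · intro k hk
          have hk' := k.isLt
          refine ⟨fun e => hy ?_, by omega⟩
          rw [hk]
          congr 1
          apply Fin.ext
          omega
  · rcases y with y | i'
    · exact absurd hxy (fun e => e)
    · have hrel : i.val + 1 = i'.val := hxy
      have hi' := i'.isLt
      show _ ∉ segment ℝ (pth ρ ρ' r α β m (i.val + 1)) (pth ρ ρ' r α β m (i'.val + 1))
      rw [← hrel]
      apply G2_path h (i.val + 1) (by omega) w
      · intro e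
        omega
      · intro e
        omega
      · intro k hk
        refine ⟨fun e => hx ?_, fun e => hy ?_⟩
        · rw [hk]
          congr 1
          apply Fin.ext
          omega
        · rw [hk]
          congr 1
          apply Fin.ext
          omega

end Pool.Agent.TC47
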