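import Pool.Agent.TC47.G1

/-!
# G3: edges without common end do not meet
h : Setup. See the header of G2 for the kinds (a) - (e) of edges; the path segment j (j = 0..m) joins the path vertices j and
j+1 (path vertex 0 = u, path vertex i+1 = inr i, path vertex m+1 = u'), kinds (c), (d), (e) are the path segments.
Suggestion: first a lemma: every `fanRel` edge is old (a), a ray (b) or a path segment j ≤ m with the set of ends
{path vertex j, path vertex j+1} (up to `segment_symm`). Then, edges without common end: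
old/old: `h.dr`. old/ray (b): the old edge does not contain A; `h.away` (norm > r) against norm ≤ r.
old/path j: if the old edge contains A, say A - y (y is not an end of the path segment): segment 0 - f y, with
`nb_dir`: direction θ; `pth_ray` (θ < α ≤ dir j or θ > β ≥ dir (j+1), or y = u and j ≥ 1: θ = α = dir 0 < dir j, or y = u' and
j < m: θ = β = dir (m+1) > dir (j+1)); if it does not contain A: `path_old_edge`.
ray/ray: common end A. ray i / path j: path vertex i+1 is not j, j+1, so dir (i+1) < dir j or > dir (j+1): `pth_ray`.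
path j / path k: |j - k| ≥ 2 because there is no common end: `pth_disj`.
-/

namespace Pool.Agent.TC47

/-- the `j`-th vertex of the path -/
private def G3_pv {V : Type} (u u' : V) (m j : ℕ) : V ⊕ Fin m :=
  if j = 0 then .inl u else if h : j - 1 < m then .inr ⟨j - 1, h⟩ else .inl u'

private lemma G3_pv0 {V : Type} (u u' : V) (m : ℕ) : G3_pv u u' m 0 = .inl u := by
  simp [G3_pv]

private lemma G3_pvi {V : Type} (u u' : V) (m : ℕ) (i : Fin m) :
    G3_pv u u' m (i.val + 1) = .inr i := by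
  have hi : i.val + 1 - 1 < m := by
    have := i.isLt
    omega
  unfold G3_pv
  rw [if_neg (Nat.succ_ne_zero _), dif_pos hi]
  congr 1

private lemma G3_pvm {V : Type} (u u' : V) (m : ℕ) : G3_pv u u' m (m + 1) = .inl u' := by
  unfold G3_pv
  rw [if_neg (Nat.succ_ne_zero _), dif_neg (by omega)]

private lemma G3_fpv {V : Type} {G : SimpleGraph V} {f : V → ℂ} {A u u' : V}
    {ρ ρ' r α β : ℝ} {m : ℕ} (h : Setup G f A u u' ρ ρ' r α β m) (j : ℕ) (hj : j ≤ m + 1) :
    fnew f ρ ρ' r α β m (G3_pv u u' m j) = pth ρ ρ' r α β m j := by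
  rcases Nat.eq_zero_or_pos j with rfl | hj0
  · rw [G3_pv0]
    exact (pth_first h).symm
  · rcases Nat.lt_or_ge m j with hm | hm
    · have hj' : j = m + 1 := by omega
      rw [hj', G3_pvm]
      exact (pth_last h).symm
    · have hi : j - 1 < m := by omega
      have e : j = (⟨j - 1, hi⟩ : Fin m).val + 1 := by
        show j = j - 1 + 1
        omega
      rw [e, G3_pvi]
      rfl

/-- the three kinds of edges -/
private def G3_kind {V : Type} (G : SimpleGraph V) (A u u' : V) (m : ℕ) (x y : V ⊕ Fin m) :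
    Prop :=
  (∃ a b : V, x = .inl a ∧ y = .inl b ∧ G.Adj a b) ∨
  (∃ i : Fin m, x = .inl A ∧ y = .inr i) ∨
  (∃ j : ℕ, j ≤ m ∧ x = G3_pv u u' m j ∧ y = G3_pv u u' m (j + 1))

private lemma G3_class {V : Type} {G : SimpleGraph V} {A u u' : V} {m : ℕ} (x y : V ⊕ Fin m)
    (hxy : fanRel G A u u' m x y) : G3_kind G A u u' m x y ∨ G3_kind G A u u' m y x := by
  rcases x with x | i
  · rcases y with y | i
    · exact Or.inl (Or.inl ⟨x, y, rfl, rfl, hxy⟩)
    · have hi := i.isLt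
      have hrel : x = A ∨ (x = u ∧ i.val = 0) ∨ (x = u' ∧ i.val + 1 = m) := hxy
      rcases hrel with hxA | ⟨hxu, hi0⟩ | ⟨hxu, him⟩
      · exact Or.inl (Or.inr (Or.inl ⟨i, by rw [hxA], rfl⟩))
      · refine Or.inl (Or.inr (Or.inr ⟨0, Nat.zero_le m, by rw [hxu, G3_pv0], ?_⟩))
        rw [← G3_pvi u u' m i, hi0]
      · refine Or.inr (Or.inr (Or.inr ⟨m, le_rfl, ?_, by rw [hxu, G3_pvm]⟩))
        rw [← G3_pvi u u' m i, him]
  · rcases y with y | i'
    · exact absurd hxy (fun e => e)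
    · have hrel : i.val + 1 = i'.val := hxy
      have hi' := i'.isLt
      refine Or.inl (Or.inr (Or.inr ⟨i.val + 1, by omega, (G3_pvi u u' m i).symm, ?_⟩))
      rw [← G3_pvi u u' m i', hrel]

private lemma G3_seg0 {z p : ℂ} (hz : z ∈ segment ℝ 0 p) : ‖z‖ ≤ ‖p‖ := by
  obtain ⟨a, b, ha, hb, hab, rfl⟩ := hz
  rw [smul_zero, zero_add, norm_smul, Real.norm_eq_abs, abs_of_nonneg hb]
  have h1 := norm_nonneg p
  nlinarith

private lemma G3_dirm {α β : ℝ} (hab : α < β) (m j k : ℕ) (h : j ≤ k) :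
    dir α β m j ≤ dir α β m k := by
  rcases Nat.lt_or_ge j k with h1 | h1
  · exact (dir_lt hab m h1).le
  · rw [le_antisymm h h1]

/-- old edge at `A` and path segment -/
private lemma G3_A {V : Type} {G : SimpleGraph V} {f : V → ℂ} {A u u' : V}
    {ρ ρ' r α β : ℝ} {m : ℕ} (h : Setup G f A u u' ρ ρ' r α β m) (j : ℕ) (hj : j ≤ m) (b : V)
    (hb : G.Adj A b) (h0 : j = 0 → b ≠ u) (h1 : j = m → b ≠ u') :
    Disjoint (segment ℝ (f A) (f b))
      (segment ℝ (pth ρ ρ' r α β m j) (pth ρ ρ' r α β m (j + 1))) := by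
  obtain ⟨s, θ, hs, hθ0, hθ2, hfy, hθ⟩ := nb_dir h b hb
  have e0 := dir_zero α β m
  have e1 := dir_last α β m
  have m0 := G3_dirm h.ab m 0 j (Nat.zero_le j)
  have m1 := G3_dirm h.ab m (j + 1) (m + 1) (by omega)
  rw [h.fA, hfy]
  apply pth_ray ρ ρ' r α β m j h.rho h.rho' h.r0 h.a0 h.ab h.b2 h.m3 hj s θ hs hθ0 hθ2
  rcases hθ with ⟨hbu, hθ⟩ | ⟨hbu, hθ⟩ | ⟨_, _, hθ | hθ⟩
  · left
    have hj0 : 0 < j := Nat.pos_of_ne_zero (fun e => h0 e hbu)
    have h2 := dir_lt h.ab m hj0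
    linarith
  · right
    have hjm : j + 1 < m + 1 := by
      have : j ≠ m := fun e => h1 e hbu
      omega
    have h2 := dir_lt h.ab m hjm
    linarith
  · left
    linarith
  · right
    linarith

/-- old edge and path segment -/
private lemma G3_old {V : Type} {G : SimpleGraph V} {f : V → ℂ} {A u u' : V}
    {ρ ρ' r α β : ℝ} {m : ℕ} (h : Setup G f A u u' ρ ρ' r α β m) (j : ℕ) (hj : j ≤ m) (a b : V)
    (hab : G.Adj a b) (h0 : j = 0 → a ≠ u ∧ b ≠ u) (h1 : j = m → a ≠ u' ∧ b ≠ u') :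
    Disjoint (segment ℝ (f a) (f b))
      (segment ℝ (pth ρ ρ' r α β m j) (pth ρ ρ' r α β m (j + 1))) := by
  by_cases ha : a = A
  · rw [ha] at hab ⊢
    exact G3_A h j hj b hab (fun e => (h0 e).2) (fun e => (h1 e).2)
  · by_cases hb : b = A
    · rw [hb] at hab ⊢
      rw [segment_symm ℝ (f a) (f A)]
      exact G3_A h j hj a hab.symm (fun e => (h0 e).1) (fun e => (h1 e).1)
    · exact (path_old_edge h j hj a b hab ha hb h0 h1).symm

/-- ray and path segment -/
private lemma G3_ray {V : Type} {G : SimpleGraph V} {f : V → ℂ} {A u u' : V}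
    {ρ ρ' r α β : ℝ} {m : ℕ} (h : Setup G f A u u' ρ ρ' r α β m) (j : ℕ) (hj : j ≤ m)
    (i : Fin m) (h0 : i.val + 1 ≠ j) (h1 : i.val + 1 ≠ j + 1) :
    Disjoint (segment ℝ (f A) (pth ρ ρ' r α β m (i.val + 1)))
      (segment ℝ (pth ρ ρ' r α β m j) (pth ρ ρ' r α β m (j + 1))) := by
  have hi := i.isLt
  have e0 := dir_zero α β m
  have e1 := dir_last α β m
  have m0 := G3_dirm h.ab m 0 (i.val + 1) (Nat.zero_le _)
  have m1 := dir_lt h.ab m (show i.val + 1 < m + 1 by omega)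
  have ha0 := h.a0
  have hb2 := h.b2
  rw [h.fA, (new_norm h (i.val + 1) (by omega) (by omega)).1]
  apply pth_ray ρ ρ' r α β m j h.rho h.rho' h.r0 h.a0 h.ab h.b2 h.m3 hj r _ h.r0
    (by linarith) (by linarith)
  rcases Nat.lt_or_ge (i.val + 1) j with h2 | h2
  · exact Or.inl (dir_lt h.ab m h2)
  · exact Or.inr (dir_lt h.ab m (by omega))

private lemma G3_main {V : Type} {G : SimpleGraph V} {f : V → ℂ} {A u u' : V}
    {ρ ρ' r α β : ℝ} {m : ℕ} (h : Setup G f A u u' ρ ρ' r α β m) (x y z w : V ⊕ Fin m)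
    (hxy : G3_kind G A u u' m x y) (hzw : G3_kind G A u u' m z w)
    (h1 : x ≠ z) (h2 : x ≠ w) (h3 : y ≠ z) (h4 : y ≠ w) :
    Disjoint (segment ℝ (fnew f ρ ρ' r α β m x) (fnew f ρ ρ' r α β m y))
      (segment ℝ (fnew f ρ ρ' r α β m z) (fnew f ρ ρ' r α β m w)) := by
  -- old edge and ray
  have key1 : ∀ a b : V, G.Adj a b → a ≠ A → b ≠ A → ∀ i : Fin m,
      Disjoint (segment ℝ (f a) (f b)) (segment ℝ (f A) (pth ρ ρ' r α β m (i.val + 1))) := by
    intro a b hab ha hb i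
    have hi := i.isLt
    rw [Set.disjoint_left]
    intro q hq hq'
    rw [h.fA] at hq'
    have h5 := h.away a b hab ha hb q hq
    have h6 := G3_seg0 hq'
    rw [(new_norm h (i.val + 1) (by omega) (by omega)).2] at h6
    linarith
  -- old edge and path
  have key2 : ∀ a b : V, G.Adj a b → ∀ j : ℕ, j ≤ m → (Sum.inl a : V ⊕ Fin m) ≠ G3_pv u u' m j →
      (Sum.inl a : V ⊕ Fin m) ≠ G3_pv u u' m (j + 1) →
      (Sum.inl b : V ⊕ Fin m) ≠ G3_pv u u' m j →
      (Sum.inl b : V ⊕ Fin m) ≠ G3_pv u u' m (j + 1) →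
      Disjoint (segment ℝ (f a) (f b))
        (segment ℝ (fnew f ρ ρ' r α β m (G3_pv u u' m j))
          (fnew f ρ ρ' r α β m (G3_pv u u' m (j + 1)))) := by
    intro a b hab j hj p1 p2 p3 p4
    rw [G3_fpv h j (by omega), G3_fpv h (j + 1) (by omega)]
    refine G3_old h j hj a b hab (fun e => ⟨?_, ?_⟩) (fun e => ⟨?_, ?_⟩)
    · intro e'
      exact p1 (by rw [e, G3_pv0, e'])
    · intro e'
      exact p3 (by rw [e, G3_pv0, e'])
    · intro e'
      exact p2 (by rw [e, G3_pvm, e'])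
    · intro e'
      exact p4 (by rw [e, G3_pvm, e'])
  -- ray and path
  have key3 : ∀ i : Fin m, ∀ j : ℕ, j ≤ m → (Sum.inr i : V ⊕ Fin m) ≠ G3_pv u u' m j →
      (Sum.inr i : V ⊕ Fin m) ≠ G3_pv u u' m (j + 1) →
      Disjoint (segment ℝ (f A) (pth ρ ρ' r α β m (i.val + 1)))
        (segment ℝ (fnew f ρ ρ' r α β m (G3_pv u u' m j))
          (fnew f ρ ρ' r α β m (G3_pv u u' m (j + 1)))) := by
    intro i j hj p1 p2
    rw [G3_fpv h j (by omega), G3_fpv h (j + 1) (by omega)]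
    refine G3_ray h j hj i (fun e => p1 ?_) (fun e => p2 ?_)
    · rw [← e, G3_pvi]
    · rw [← e, G3_pvi]
  rcases hxy with ⟨a, b, rfl, rfl, hab⟩ | ⟨i, rfl, rfl⟩ | ⟨j, hj, rfl, rfl⟩
  · rcases hzw with ⟨c, d, rfl, rfl, hcd⟩ | ⟨i, rfl, rfl⟩ | ⟨j, hj, rfl, rfl⟩
    · exact h.dr.2.2 a b c d hab hcd (fun e => h1 (by rw [e])) (fun e => h2 (by rw [e]))
        (fun e => h3 (by rw [e])) (fun e => h4 (by rw [e]))
    · exact key1 a b hab (fun e => h1 (by rw [e])) (fun e => h3 (by rw [e])) i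
    · exact key2 a b hab j hj h1 h2 h3 h4
  · rcases hzw with ⟨c, d, rfl, rfl, hcd⟩ | ⟨i', rfl, rfl⟩ | ⟨j, hj, rfl, rfl⟩
    · exact (key1 c d hcd (fun e => h1 (by rw [e])) (fun e => h2 (by rw [e])) i).symm
    · exact absurd rfl h1
    · exact key3 i j hj h3 h4
  · rcases hzw with ⟨c, d, rfl, rfl, hcd⟩ | ⟨i, rfl, rfl⟩ | ⟨k, hk, rfl, rfl⟩
    · exact (key2 c d hcd j hj h1.symm h3.symm h2.symm h4.symm).symm
    · exact (key3 i j hj h2.symm h4.symm).symm
    · rw [G3_fpv h j (by omega), G3_fpv h (j + 1) (by omega), G3_fpv h k (by omega),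
        G3_fpv h (k + 1) (by omega)]
      have n1 : j ≠ k := fun e => h1 (by rw [e])
      have n2 : j ≠ k + 1 := fun e => h2 (by rw [e])
      have n3 : j + 1 ≠ k := fun e => h3 (by rw [e])
      rcases Nat.lt_or_ge j k with hjk | hjk
      · exact pth_disj ρ ρ' r α β m j k h.rho h.rho' h.r0 h.a0 h.ab h.b2 h.m3 (by omega) hk
      · exact (pth_disj ρ ρ' r α β m k j h.rho h.rho' h.r0 h.a0 h.ab h.b2 h.m3 (by omega) hj).symm

theorem fnew_dis {V : Type} {G : SimpleGraph V} {f : V → ℂ} {A u u' : V} {ρ ρ' r α β : ℝ} {m : ℕ}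
    (h : Setup G f A u u' ρ ρ' r α β m) (x y z w : V ⊕ Fin m) (hxy : fanRel G A u u' m x y)
    (hzw : fanRel G A u u' m z w) (h1 : x ≠ z) (h2 : x ≠ w) (h3 : y ≠ z) (h4 : y ≠ w) :
    Disjoint (segment ℝ (fnew f ρ ρ' r α β m x) (fnew f ρ ρ' r α β m y))
      (segment ℝ (fnew f ρ ρ' r α β m z) (fnew f ρ ρ' r α β m w)) := by
  rcases G3_class x y hxy with k1 | k1 <;> rcases G3_class z w hzw with k2 | k2
  · exact G3_main h x y z w k1 k2 h1 h2 h3 h4
  · rw [segment_symm ℝ (fnew f ρ ρ' r α β m z)]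
    exact G3_main h x y w z k1 k2 h2 h1 h4 h3
  · rw [segment_symm ℝ (fnew f ρ ρ' r α β m x)]
    exact G3_main h y x z w k1 k2 h3 h4 h1 h2
  · rw [segment_symm ℝ (fnew f ρ ρ' r α β m x), segment_symm ℝ (fnew f ρ ρ' r α β m z)]
    exact G3_main h y x w z k1 k2 h4 h3 h2 h1

end Pool.Agent.TC47
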