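import Pool.Agent.TC47.Defs

/-!
# GC: small neighbourhoods of the place of `A`
Plan: finitely many vertices and pairs of vertices, so it is enough to show each of the four statements
for fixed v resp. x, y (`Filter.eventually_all`, V finite; `Filter.Eventually.and`; implications with false
premise are trivial). (1) ‖f v‖ > 0 as f v ≠ f A = 0 (injectivity). (2) segment compact, 0 = f A not in it by
the second part of `Drawing`, so its distance δ to 0 is positive. (3), (4): general lemma: K closed
(a point, or a segment), Disjoint (segment ℝ p 0) K → ∃ δ > 0, ∀ w, ‖w‖ ≤ r < δ → Disjoint (segment ℝ p w) K: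
the distance δ of the compact segment [p,0] and K is positive, a point (1-t) p + t w of [p,w] is at distance
t ‖w‖ ≤ r from (1-t) p in [p, 0]. For (3): K = {f v}, f v ∉ segment (f u) (f A) by `Drawing`
(edge u A, v ≠ u, A). For (4): segments of the edges u A and x y without common end are disjoint.
-/

namespace Pool.Agent.TC47

open Filter Topology

private lemma isCompact_seg (x y : ℂ) : IsCompact (segment ℝ x y) := by
  rw [segment_eq_image]
  exact isCompact_Icc.image (by fun_prop)

private lemma ev_disj (p : ℂ) (K : Set ℂ) (hK : IsClosed K)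
    (h : Disjoint (segment ℝ p 0) K) :
    ∀ᶠ r : ℝ in 𝓝[>] 0, ∀ w : ℂ, ‖w‖ ≤ r → Disjoint (segment ℝ p w) K := by
  obtain ⟨δ, hδ, hd⟩ := h.exists_thickenings (isCompact_seg p 0) hK
  filter_upwards [Ioo_mem_nhdsGT hδ] with r hr w hw
  rw [Set.disjoint_left]
  rintro z ⟨a, b, ha, hb, hab, rfl⟩ hz
  refine Set.disjoint_left.1 hd ?_ (Metric.self_subset_thickening hδ K hz)
  rw [Metric.mem_thickening_iff]
  refine ⟨a • p + b • 0, ⟨a, b, ha, hb, hab, rfl⟩, ?_⟩
  rw [dist_add_left, smul_zero, dist_zero_right, norm_smul, Real.norm_of_nonneg hb]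
  have hb1 : b ≤ 1 := by linarith
  calc b * ‖w‖ ≤ 1 * ‖w‖ := by gcongr
    _ ≤ r := by rw [one_mul]; exact hw
    _ < δ := hr.2

theorem eventually_small {V : Type} [Finite V] (G : SimpleGraph V) (f : V → ℂ)
    (hf : Drawing G f) (A u : V) (hA : f A = 0) (hu : G.Adj A u) : ∀ᶠ r : ℝ in 𝓝[>] 0,
      (∀ v, v ≠ A → r < ‖f v‖) ∧
      (∀ x y, G.Adj x y → x ≠ A → y ≠ A → ∀ z ∈ segment ℝ (f x) (f y), r < ‖z‖) ∧
      (∀ v, v ≠ A → v ≠ u → ∀ w : ℂ, ‖w‖ ≤ r → f v ∉ segment ℝ (f u) w) ∧
      (∀ x y, G.Adj x y → x ≠ A → y ≠ A → x ≠ u → y ≠ u → ∀ w : ℂ, ‖w‖ ≤ r →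
        Disjoint (segment ℝ (f u) w) (segment ℝ (f x) (f y))) := by
  obtain ⟨h1, h2, h3⟩ := hf
  refine Filter.Eventually.and ?_ (Filter.Eventually.and ?_ (Filter.Eventually.and ?_ ?_))
  · refine eventually_all.2 fun v => eventually_imp_distrib_left.2 fun hv => ?_
    have hpos : 0 < ‖f v‖ := norm_pos_iff.2 fun h => hv (h1 (h.trans hA.symm))
    filter_upwards [Ioo_mem_nhdsGT hpos] with r hr
    exact hr.2
  · refine eventually_all.2 fun x => eventually_all.2 fun y =>
      eventually_imp_distrib_left.2 fun hxy => eventually_imp_distrib_left.2 fun hx =>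
      eventually_imp_distrib_left.2 fun hy => ?_
    have h0 : (0 : ℂ) ∉ segment ℝ (f x) (f y) := by
      rw [← hA]
      exact h2 x y A hxy hx.symm hy.symm
    have hd : Disjoint (segment ℝ (0 : ℂ) 0) (segment ℝ (f x) (f y)) := by
      rw [segment_same]
      exact Set.disjoint_singleton_left.2 h0
    filter_upwards [ev_disj 0 _ (isCompact_seg _ _).isClosed hd] with r hr z hz
    by_contra hlt
    exact Set.disjoint_left.1 (hr z (not_lt.1 hlt)) (right_mem_segment ℝ 0 z) hz
  · refine eventually_all.2 fun v => eventually_imp_distrib_left.2 fun hv =>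
      eventually_imp_distrib_left.2 fun hvu => ?_
    have hd : Disjoint (segment ℝ (f u) 0) {f v} := by
      rw [Set.disjoint_singleton_right, ← hA]
      exact h2 u A v hu.symm hvu hv
    filter_upwards [ev_disj (f u) _ isClosed_singleton hd] with r hr w hw
    exact Set.disjoint_singleton_right.1 (hr w hw)
  · refine eventually_all.2 fun x => eventually_all.2 fun y =>
      eventually_imp_distrib_left.2 fun hxy => eventually_imp_distrib_left.2 fun hx =>
      eventually_imp_distrib_left.2 fun hy => eventually_imp_distrib_left.2 fun hxu =>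
      eventually_imp_distrib_left.2 fun hyu => ?_
    have hd : Disjoint (segment ℝ (f u) 0) (segment ℝ (f x) (f y)) := by
      rw [← hA]
      exact h3 u A x y hu.symm hxy hxu.symm hyu.symm hx.symm hy.symm
    exact ev_disj (f u) _ (isCompact_seg _ _).isClosed hd

end Pool.Agent.TC47
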