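import Pool.Agent.TC47.Defs
import Pool.Agent.Ch3.Planar

/-!
# GE: drawings
Plan. `drawing_of_rel`: `SimpleGraph.fromRel_adj`; if `r v u` use `segment_symm`.
`planarG_of_straight`: Ch3.PlanarG with γ u v = Ch3.seg (f u) (f v) (Pool/Agent/Ch3/Planar.lean, `seg_apply`:
seg a b t = a + t (b - a); its points are in `segment ℝ a b`). Injective path because f u ≠ f v. A vertex
w on the path of an edge u v is u or v by the second part of `Drawing`. Two edges u v, x y with a common
point p: if they have no common end: third part of `Drawing` says impossible. If they have a common end,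
say u = x (the other cases are symmetric; v ≠ y since s(u,v) ≠ s(x,y)): p = f u + a (f v - f u) =
f u + b (f y - f u), 0 ≤ a, b ≤ 1. If a = 0 or b = 0 then p = f u is a vertex. Otherwise, if a ≤ b then
f y - f u = (a/b)(f v - f u), so f y is in segment (f u) (f v), against the second part; if b ≤ a then
f v is in segment (f u) (f y), same.
-/

namespace Pool.Agent.TC47

open Filter Topology

variable {V : Type}

theorem drawing_of_rel (r : V → V → Prop) (f : V → ℂ)
    (h1 : Function.Injective f)
    (h2 : ∀ u v w : V, r u v → w ≠ u → w ≠ v → f w ∉ segment ℝ (f u) (f v))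
    (h3 : ∀ u v x y : V, r u v → r x y → u ≠ x → u ≠ y → v ≠ x → v ≠ y →
      Disjoint (segment ℝ (f u) (f v)) (segment ℝ (f x) (f y))) :
    Drawing (SimpleGraph.fromRel r) f := by
  refine ⟨h1, ?_, ?_⟩
  · intro u v w huv hwu hwv
    rw [SimpleGraph.fromRel_adj] at huv
    rcases huv.2 with h | h
    · exact h2 u v w h hwu hwv
    · rw [segment_symm]
      exact h2 v u w h hwv hwu
  · intro u v x y huv hxy hux huy hvx hvy
    rw [SimpleGraph.fromRel_adj] at huv hxy
    rcases huv.2 with h | h <;> rcases hxy.2 with h' | h'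
    · exact h3 u v x y h h' hux huy hvx hvy
    · rw [segment_symm ℝ (f x) (f y)]
      exact h3 u v y x h h' huy hux hvy hvx
    · rw [segment_symm ℝ (f u) (f v)]
      exact h3 v u x y h h' hvx hvy hux huy
    · rw [segment_symm ℝ (f x) (f y), segment_symm ℝ (f u) (f v)]
      exact h3 v u y x h h' hvy hvx huy hux

private lemma GE_seg_mem (a b : ℂ) (t : unitInterval) : Ch3.seg a b t ∈ segment ℝ a b := by
  rw [segment_eq_image', Ch3.seg_apply]
  refine ⟨(t : ℝ), t.2, ?_⟩
  show a + (t : ℝ) • (b - a) = a + ((t : ℝ) : ℂ) * (b - a)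
  rw [Complex.real_smul]

private lemma GE_mem_of {a b p : ℂ} {t : ℝ} (h0 : 0 ≤ t) (h1 : t ≤ 1)
    (h : p = a + (t : ℂ) * (b - a)) : p ∈ segment ℝ a b := by
  rw [segment_eq_image']
  refine ⟨t, ⟨h0, h1⟩, ?_⟩
  show a + t • (b - a) = p
  rw [Complex.real_smul, h]

private lemma GE_of_mem {a b p : ℂ} (h : p ∈ segment ℝ a b) :
    ∃ t : ℝ, 0 ≤ t ∧ p = a + (t : ℂ) * (b - a) := by
  rw [segment_eq_image'] at h
  obtain ⟨t, ht, he⟩ := h
  refine ⟨t, ht.1, ?_⟩
  rw [← he]
  show a + t • (b - a) = _
  rw [Complex.real_smul]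

private lemma GE_common {x y z p : ℂ} (h1 : y ∉ segment ℝ x z) (h2 : z ∉ segment ℝ x y)
    (hp1 : p ∈ segment ℝ x y) (hp2 : p ∈ segment ℝ x z) : p = x := by
  obtain ⟨a, ha, hpa⟩ := GE_of_mem hp1
  obtain ⟨b, hb, hpb⟩ := GE_of_mem hp2
  rcases eq_or_lt_of_le ha with ha0 | ha0
  · rw [hpa, ← ha0]
    simp
  rcases eq_or_lt_of_le hb with hb0 | hb0
  · rw [hpb, ← hb0]
    simp
  exfalso
  have he : (a : ℂ) * (y - x) = (b : ℂ) * (z - x) := by
    have h := hpa.symm.trans hpb
    exact add_left_cancel h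
  have haC : (a : ℂ) ≠ 0 := by exact_mod_cast ha0.ne'
  have hbC : (b : ℂ) ≠ 0 := by exact_mod_cast hb0.ne'
  rcases le_total a b with hab | hab
  · apply h2
    refine GE_mem_of (t := a / b) (by positivity) ((div_le_one hb0).2 hab) ?_
    push_cast
    field_simp
    linear_combination -he
  · apply h1
    refine GE_mem_of (t := b / a) (by positivity) ((div_le_one ha0).2 hab) ?_
    push_cast
    field_simp
    linear_combination he

theorem planarG_of_straight (G : SimpleGraph V) (h : StraightPlanar G) : Ch3.PlanarG G := by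
  obtain ⟨f, hinj, h2, h3⟩ := h
  refine ⟨f, fun u v => Ch3.seg (f u) (f v), hinj, ?_, ?_⟩
  · intro u v huv
    refine ⟨?_, ?_⟩
    · intro s t hst
      have hst' : f u + ((s : ℝ) : ℂ) * (f v - f u) = f u + ((t : ℝ) : ℂ) * (f v - f u) := hst
      have h4 := add_left_cancel hst'
      have h5 : f v - f u ≠ 0 := fun h => huv.ne (hinj (sub_eq_zero.1 h)).symm
      have h6 := mul_right_cancel₀ h5 h4
      have h7 : (s : ℝ) = t := by exact_mod_cast h6
      exact Subtype.ext h7
    · intro t w ht
      by_contra hc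
      rw [not_or] at hc
      apply h2 u v w huv hc.1 hc.2
      rw [← ht]
      exact GE_seg_mem _ _ t
  · intro u v x y huv hxy hne a b hab
    have hp1 : Ch3.seg (f u) (f v) a ∈ segment ℝ (f u) (f v) := GE_seg_mem _ _ a
    have hp2 : Ch3.seg (f u) (f v) a ∈ segment ℝ (f x) (f y) := by
      have h4 : Ch3.seg (f u) (f v) a = Ch3.seg (f x) (f y) b := hab
      rw [h4]
      exact GE_seg_mem _ _ b
    by_cases hux : u = x
    · subst hux
      have hvy : v ≠ y := fun h => hne (by rw [h])
      exact ⟨u, GE_common (h2 u y v hxy huv.ne' hvy) (h2 u v y huv hxy.ne' hvy.symm) hp1 hp2⟩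
    by_cases huy : u = y
    · subst huy
      have hvx : v ≠ x := fun h => hne (by rw [h, Sym2.eq_swap])
      rw [segment_symm] at hp2
      exact ⟨u, GE_common (h2 u x v hxy.symm huv.ne' hvx) (h2 u v x huv (Ne.symm hux) hvx.symm)
        hp1 hp2⟩
    by_cases hvx : v = x
    · subst hvx
      rw [segment_symm] at hp1
      exact ⟨v, GE_common (h2 v y u hxy hux huy) (h2 v u y huv.symm hxy.ne' (Ne.symm huy))
        hp1 hp2⟩
    by_cases hvy : v = y
    · subst hvy
      rw [segment_symm] at hp1 hp2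
      exact ⟨v, GE_common (h2 v x u hxy.symm huy hux) (h2 v u x huv.symm (Ne.symm hvx)
        (Ne.symm hux)) hp1 hp2⟩
    exact absurd hp2 (Set.disjoint_left.1 (h3 u v x y huv hxy hux huy hvx hvy) hp1)

end Pool.Agent.TC47
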