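import Pool.Agent.TC47.G2
import Pool.Agent.TC47.G3
import Pool.Agent.TC47.GC
import Pool.Agent.TC47.GE

/-!
# G4: the fan has a straight-line drawing
Plan. `fan_drawing0`: ρ, ρ' from `Corner` (τ = 1), r from `eventually_small` for u and for u' (take any r in the
intersection, `Filter.Eventually.and`, `.exists` with `self_mem_nhdsWithin` for r > 0), `Setup`, then `drawing_of_rel`
with `fnew`, `fnew_inj`, `fnew_off`, `fnew_dis` (`fan` is `SimpleGraph.fromRel (fanRel ..)`).
`fan_drawing`: apply `fan_drawing0` to g v = (f v - f A)/τ; `Drawing G g`: the map z ↦ (z - f A)/τ is an injective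
affine map, so it maps segments to segments (`segment` of images: use the inverse map and write out convex combinations).
`corner_ne`: f u - f A = τ pt r α = τ pt r' β, τ ≠ 0, `pt_inj`.
-/

namespace Pool.Agent.TC47

open Filter Topology

theorem fan_drawing0 {V : Type} [Finite V] (G : SimpleGraph V) (f : V → ℂ) (hf : Drawing G f)
    (A u u' : V) (hA : f A = 0) (α β : ℝ) (hc : Corner G f A u u' 1 α β) (m : ℕ) (hm : 3 ≤ m) :
    StraightPlanar (fan G A u u' m) := by
  obtain ⟨had, had', _, h0, hab, hb, ⟨ρ, hρ, hu⟩, ⟨ρ', hρ', hu'⟩, hfree⟩ := hc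
  obtain ⟨r, ⟨⟨h1, h2, h3, h4⟩, ⟨_, _, h3', h4'⟩⟩, hr⟩ :=
    (((eventually_small G f hf A u hA had).and (eventually_small G f hf A u' hA had')).and
      self_mem_nhdsWithin).exists
  have hr0 : (0 : ℝ) < r := hr
  have h : Setup G f A u u' ρ ρ' r α β m :=
    { dr := hf
      fA := hA
      adj := had
      adj' := had'
      a0 := h0
      ab := hab
      b2 := hb
      rho := hρ
      rho' := hρ'
      r0 := hr0
      fu := by rw [hA, sub_zero, one_mul] at hu; exact hu
      fu' := by rw [hA, sub_zero, one_mul] at hu'; exact hu'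
      free := by
        intro y hy s θ hs h5 h6 h7
        refine hfree y hy s θ hs h5 h6 ?_
        rw [hA, sub_zero, one_mul]
        exact h7
      m3 := hm
      small := h1
      away := h2
      offu := h3
      offu' := h3'
      disu := h4
      disu' := h4' }
  exact ⟨fnew f ρ ρ' r α β m, drawing_of_rel (fanRel G A u u' m) (fnew f ρ ρ' r α β m)
    (fnew_inj h) (fun x y w hxy h5 h6 => fnew_off h x y w hxy h5 h6)
    (fun x y z w hxy hzw h5 h6 h7 h8 => fnew_dis h x y z w hxy hzw h5 h6 h7 h8)⟩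

private lemma G4_back {V : Type} (f : V → ℂ) (A : V) (τ : ℂ) (hτ : τ ≠ 0) (x y : V) {z : ℂ}
    (hz : z ∈ segment ℝ ((f x - f A) / τ) ((f y - f A) / τ)) :
    τ * z + f A ∈ segment ℝ (f x) (f y) := by
  obtain ⟨a, b, ha, hb, hab, rfl⟩ := hz
  refine ⟨a, b, ha, hb, hab, ?_⟩
  have hab' : (a : ℂ) + (b : ℂ) = 1 := by exact_mod_cast hab
  simp only [Complex.real_smul]
  have e1 : τ * ((a : ℂ) * ((f x - f A) / τ) + (b : ℂ) * ((f y - f A) / τ)) =
      (a : ℂ) * (f x - f A) + (b : ℂ) * (f y - f A) := by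
    field_simp
  rw [e1]
  linear_combination (f A) * hab'

theorem fan_drawing {V : Type} [Finite V] (G : SimpleGraph V) (f : V → ℂ) (hf : Drawing G f)
    (A u u' : V) (τ : ℂ) (α β : ℝ) (hc : Corner G f A u u' τ α β) (m : ℕ) (hm : 3 ≤ m) :
    StraightPlanar (fan G A u u' m) := by
  obtain ⟨had, had', hτ, h0, hab, hb, ⟨ρ, hρ, hu⟩, ⟨ρ', hρ', hu'⟩, hfree⟩ := hc
  obtain ⟨hinj, hoff, hdis⟩ := hf
  have hgA : (fun v : V => (f v - f A) / τ) A = 0 := by
    change (f A - f A) / τ = 0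
    rw [sub_self, zero_div]
  have hback : ∀ v : V, τ * ((f v - f A) / τ) + f A = f v := by
    intro v
    rw [mul_div_cancel₀ _ hτ]
    ring
  refine fan_drawing0 G (fun v => (f v - f A) / τ) ⟨?_, ?_, ?_⟩ A u u' hgA α β ?_ m hm
  · intro x y hxy
    apply hinj
    have h1 : (f x - f A) / τ = (f y - f A) / τ := hxy
    rw [← hback x, ← hback y, h1]
  · intro x y w hxy h1 h2 h3
    refine hoff x y w hxy h1 h2 ?_
    have h4 := G4_back f A τ hτ x y h3
    rw [hback w] at h4
    exact h4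
  · intro x y z w hxy hzw h1 h2 h3 h4
    rw [Set.disjoint_left]
    intro p hp hq
    exact Set.disjoint_left.1 (hdis x y z w hxy hzw h1 h2 h3 h4)
      (G4_back f A τ hτ x y hp) (G4_back f A τ hτ z w hq)
  · have key : ∀ (y : V) (p : ℂ), (f y - f A) / τ - (f A - f A) / τ = 1 * p ↔
        f y - f A = τ * p := by
      intro y p
      rw [sub_self, zero_div, sub_zero, one_mul, div_eq_iff hτ, mul_comm p τ]
    refine ⟨had, had', one_ne_zero, h0, hab, hb, ⟨ρ, hρ, (key u _).2 hu⟩,
      ⟨ρ', hρ', (key u' _).2 hu'⟩, ?_⟩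
    intro y hy s θ hs h1 h2 h3
    exact hfree y hy s θ hs h1 h2 ((key y _).1 h3)

theorem corner_ne {V : Type} (G : SimpleGraph V) (f : V → ℂ) (A u u' : V) (τ : ℂ) (α β : ℝ)
    (hc : Corner G f A u u' τ α β) : u ≠ u' := by
  obtain ⟨_, _, hτ, h0, hab, hb, ⟨ρ, hρ, hu⟩, ⟨ρ', hρ', hu'⟩, _⟩ := hc
  rintro rfl
  rw [hu] at hu'
  have h1 : pt ρ α = pt ρ' β := mul_left_cancel₀ hτ hu'
  have h2 : |α - β| < 2 * Real.pi := by
    rw [abs_lt]
    constructor <;> linarith
  have h3 := (pt_inj hρ hρ' h2 h1).2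
  linarith

end Pool.Agent.TC47
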