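import Pool.Agent.TC47.Defs

/-!
# GA: polar coordinates `pt r θ = r exp(θ i)`
Plan. `pt_inj`: norms give r = r' (‖exp(θ i)‖ = 1), then exp(θ i) = exp(θ' i), `Complex.exp_eq_exp_iff_exists_int`:
θ = θ' + 2πn, so |2πn| < 2π and n = 0. `exists_pt`: r = ‖z‖, θ = arg z if arg z ≥ 0 and arg z + 2π
otherwise (`Complex.norm_mul_exp_arg_mul_I`). `seg_pt`: rotate by -θ: pt r θ = exp(θ i) r,
pt r' θ' = exp(θ i) r' exp(δ i), δ = θ' - θ in (0, π). A point of the segment is z = exp(θ i) w,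
w = a r + b r' exp(δ i), a, b ≥ 0, a + b = 1. w ≠ 0: Im w = b r' sin δ ≥ 0, and if b = 0 then w = r > 0.
Let ψ = arg w: Im w ≥ 0 gives ψ ≥ 0 (`Complex.arg_nonneg_iff`). Im (w exp(-δ i)) = - a r sin δ ≤ 0 says
sin(ψ - δ) ≤ 0 with ψ - δ in (-π, π], so ψ ≤ δ (ψ - δ = π is impossible as δ > 0, ψ ≤ π). s = ‖w‖, φ = θ + ψ.
φ = θ: ψ = 0, so Im w = 0, b = 0, z = pt r θ. φ = θ': ψ = δ, a r sin δ = 0, a = 0, z = pt r' θ'.
-/

namespace Pool.Agent.TC47

open Filter Topology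

private lemma GA_norm (r θ : ℝ) : ‖pt r θ‖ = |r| := by
  unfold pt
  rw [norm_mul, Complex.norm_exp_ofReal_mul_I, mul_one, Complex.norm_real, Real.norm_eq_abs]

theorem pt_inj {r r' θ θ' : ℝ} (hr : 0 < r) (hr' : 0 < r') (h : |θ - θ'| < 2 * Real.pi)
    (he : pt r θ = pt r' θ') : r = r' ∧ θ = θ' := by
  have h1 : r = r' := by
    have h2 : ‖pt r θ‖ = ‖pt r' θ'‖ := by rw [he]
    rw [GA_norm, GA_norm, abs_of_pos hr, abs_of_pos hr'] at h2
    exact h2
  subst h1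
  refine ⟨rfl, ?_⟩
  have h3 : Complex.exp (θ * Complex.I) = Complex.exp (θ' * Complex.I) := by
    unfold pt at he
    have hr0 : (r : ℂ) ≠ 0 := by exact_mod_cast hr.ne'
    exact mul_left_cancel₀ hr0 he
  rw [Complex.exp_eq_exp_iff_exists_int] at h3
  obtain ⟨n, hn⟩ := h3
  have h4 := congrArg Complex.im hn
  simp at h4
  have h5 : θ - θ' = n * (2 * Real.pi) := by linarith
  rw [h5, abs_mul, abs_of_pos Real.two_pi_pos] at h
  have h6 : |(n : ℝ)| < 1 := by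
    have h7 := Real.two_pi_pos
    nlinarith [abs_nonneg (n : ℝ)]
  have h8 : n = 0 := by
    have h9 : |n| < 1 := by exact_mod_cast h6
    exact Int.abs_lt_one_iff.mp h9
  rw [h8] at h5
  simp at h5
  linarith

theorem exists_pt (z : ℂ) (hz : z ≠ 0) : ∃ r θ : ℝ, 0 < r ∧ 0 ≤ θ ∧ θ < 2 * Real.pi ∧
    z = pt r θ := by
  have hz' : 0 < ‖z‖ := norm_pos_iff.mpr hz
  by_cases h : 0 ≤ Complex.arg z
  · refine ⟨‖z‖, Complex.arg z, hz', h, ?_, ?_⟩
    · have := Complex.arg_le_pi z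
      linarith [Real.pi_pos]
    · unfold pt
      exact (Complex.norm_mul_exp_arg_mul_I z).symm
  · push Not at h
    refine ⟨‖z‖, Complex.arg z + 2 * Real.pi, hz', ?_, ?_, ?_⟩
    · have := Complex.neg_pi_lt_arg z
      linarith [Real.pi_pos]
    · linarith
    · unfold pt
      push_cast
      rw [add_mul, Complex.exp_add, Complex.exp_two_pi_mul_I, mul_one]
      exact (Complex.norm_mul_exp_arg_mul_I z).symm

end Pool.Agent.TC47
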