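import Pool.Agent.TC47.GA

/-!
# GB: the segment between two points, in polar coordinates
Plan: see the header of GA: rotate by -θ: pt r θ = exp(θ i) r,
pt r' θ' = exp(θ i) r' exp(δ i), δ = θ' - θ in (0, π). A point of the segment is z = exp(θ i) w,
w = a r + b r' exp(δ i), a, b ≥ 0, a + b = 1. w ≠ 0: Im w = b r' sin δ ≥ 0, and if b = 0 then w = r > 0.
Let ψ = arg w: Im w ≥ 0 gives ψ ≥ 0 (`Complex.arg_nonneg_iff`). Im (w exp(-δ i)) = - a r sin δ ≤ 0 says
sin(ψ - δ) ≤ 0 with ψ - δ in (-π, π], so ψ ≤ δ (ψ - δ = π is impossible as δ > 0, ψ ≤ π). s = ‖w‖, φ = θ + ψ.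
φ = θ: ψ = 0, so Im w = 0, b = 0, z = pt r θ. φ = θ': ψ = δ, a r sin δ = 0, a = 0, z = pt r' θ'.
-/

namespace Pool.Agent.TC47

open Filter Topology

theorem seg_pt {r r' θ θ' : ℝ} (hr : 0 < r) (hr' : 0 < r') (h1 : θ < θ')
    (h2 : θ' < θ + Real.pi) {z : ℂ} (hz : z ∈ segment ℝ (pt r θ) (pt r' θ')) :
    ∃ s φ : ℝ, 0 < s ∧ θ ≤ φ ∧ φ ≤ θ' ∧ z = pt s φ ∧ (φ = θ → z = pt r θ) ∧
      (φ = θ' → z = pt r' θ') := by
  obtain ⟨a, b, ha, hb, hab, hz⟩ := hz
  set δ : ℝ := θ' - θ with hδ
  have hδ0 : 0 < δ := by linarith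
  have hδπ : δ < Real.pi := by linarith
  have hsin : 0 < Real.sin δ := Real.sin_pos_of_pos_of_lt_pi hδ0 hδπ
  set w : ℂ := ⟨a * r + b * r' * Real.cos δ, b * r' * Real.sin δ⟩ with hw
  have hwre : w.re = a * r + b * r' * Real.cos δ := rfl
  have hwim : w.im = b * r' * Real.sin δ := rfl
  have hw0 : w ≠ 0 := by
    intro h
    have h3 : b * r' * Real.sin δ = 0 := by rw [← hwim, h]; rfl
    have h4 : b = 0 := by
      rcases mul_eq_zero.1 h3 with h5 | h5
      · rcases mul_eq_zero.1 h5 with h6 | h6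
        · exact h6
        · exact absurd h6 hr'.ne'
      · exact absurd h5 hsin.ne'
    have h5 : a * r + b * r' * Real.cos δ = 0 := by rw [← hwre, h]; rfl
    have h6 : a = 1 := by linarith
    rw [h4, h6] at h5
    have : r = 0 := by linarith [h5]
    exact hr.ne' this
  have hs : 0 < ‖w‖ := norm_pos_iff.2 hw0
  have hexpδ : Complex.exp (δ * Complex.I) = (Real.cos δ : ℂ) + (Real.sin δ : ℂ) * Complex.I := by
    rw [Complex.exp_mul_I, Complex.ofReal_cos, Complex.ofReal_sin]
  have hwz : w = (a : ℂ) * r + b * r' * Complex.exp (δ * Complex.I) := by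
    rw [hexpδ]
    apply Complex.ext
    · simp [hwre, Complex.cos_ofReal_re]
    · simp [hwim, Complex.sin_ofReal_re]
  have hzw : z = Complex.exp (θ * Complex.I) * w := by
    rw [← hz, hwz]
    have h3 : Complex.exp (θ' * Complex.I) =
        Complex.exp (θ * Complex.I) * Complex.exp (δ * Complex.I) := by
      rw [← Complex.exp_add]
      congr 1
      rw [hδ]
      push_cast
      ring
    unfold pt
    rw [h3, Complex.real_smul, Complex.real_smul]
    ring
  set ψ : ℝ := w.arg with hψ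
  have hcos : ‖w‖ * Real.cos ψ = a * r + b * r' * Real.cos δ := by
    rw [hψ, Complex.norm_mul_cos_arg, hwre]
  have hsinw : ‖w‖ * Real.sin ψ = b * r' * Real.sin δ := by
    rw [hψ, Complex.norm_mul_sin_arg, hwim]
  have hψ0 : 0 ≤ ψ := by
    rw [hψ, Complex.arg_nonneg_iff, hwim]
    positivity
  have hψδ : ψ ≤ δ := by
    by_contra hlt
    push Not at hlt
    have h3 : 0 < Real.sin (ψ - δ) :=
      Real.sin_pos_of_pos_of_lt_pi (by linarith) (by linarith [Complex.arg_le_pi w])
    have h4 : ‖w‖ * Real.sin (ψ - δ) = - (a * r * Real.sin δ) := by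
      rw [Real.sin_sub]
      calc ‖w‖ * (Real.sin ψ * Real.cos δ - Real.cos ψ * Real.sin δ)
          = (‖w‖ * Real.sin ψ) * Real.cos δ - (‖w‖ * Real.cos ψ) * Real.sin δ := by ring
        _ = - (a * r * Real.sin δ) := by rw [hcos, hsinw]; ring
    have h5 : 0 < ‖w‖ * Real.sin (ψ - δ) := mul_pos hs h3
    have h6 : 0 ≤ a * r * Real.sin δ := by positivity
    linarith
  have hzpt : z = pt ‖w‖ (θ + ψ) := by
    rw [hzw]
    unfold pt
    have h3 : Complex.exp ((θ + ψ : ℝ) * Complex.I) =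
        Complex.exp (θ * Complex.I) * Complex.exp (ψ * Complex.I) := by
      rw [← Complex.exp_add]
      congr 1
      push_cast
      ring
    rw [h3]
    have h4 : (‖w‖ : ℂ) * Complex.exp (ψ * Complex.I) = w := Complex.norm_mul_exp_arg_mul_I w
    calc Complex.exp (θ * Complex.I) * w
        = Complex.exp (θ * Complex.I) * ((‖w‖ : ℂ) * Complex.exp (ψ * Complex.I)) := by rw [h4]
      _ = _ := by ring
  refine ⟨‖w‖, θ + ψ, hs, by linarith, by linarith, hzpt, ?_, ?_⟩
  · intro h
    have h3 : ψ = 0 := by linarith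
    rw [h3, Real.sin_zero, mul_zero] at hsinw
    have h4 : b = 0 := by
      rcases mul_eq_zero.1 hsinw.symm with h5 | h5
      · rcases mul_eq_zero.1 h5 with h6 | h6
        · exact h6
        · exact absurd h6 hr'.ne'
      · exact absurd h5 hsin.ne'
    have h5 : a = 1 := by linarith
    rw [← hz, h4, h5]
    simp
  · intro h
    have h3 : ψ = δ := by linarith
    rw [h3] at hcos hsinw
    have h4 : a * r * Real.sin δ = 0 := by
      have h5 : (a * r + b * r' * Real.cos δ) * Real.sin δ = (b * r' * Real.sin δ) * Real.cos δ := by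
        rw [← hcos, ← hsinw]; ring
      linarith
    have h5 : a = 0 := by
      rcases mul_eq_zero.1 h4 with h5 | h5
      · rcases mul_eq_zero.1 h5 with h6 | h6
        · exact h6
        · exact absurd h6 hr.ne'
      · exact absurd h5 hsin.ne'
    have h6 : b = 1 := by linarith
    rw [← hz, h5, h6]
    simp

end Pool.Agent.TC47
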