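import Pool.Agent.TC47.GB

/-!
# GD: the path `u`, new vertices, `u'` around `A` (which is at 0)
`dir α β m j = α + (β-α) j/(m+1)` is the direction of vertex j = 0..m+1 of the path, `dir 0 = α`,
`dir (m+1) = β`, consecutive directions differ by (β-α)/(m+1) < 2π/4 < π (m ≥ 3, 0 < β-α < 2π).
Plan. `pth_seg`: `seg_pt`. `pth_norm`: both ends have norm r (‖pt r θ‖ = r for r > 0), ball convex
(`segment` in `closedBall 0 r`, `convex_closedBall`). `pth_angle`: from `pth_seg` and `pt_inj`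
(both angles in [0, 2π)). `pth_zero`: pth_seg and pt s φ ≠ 0. `pth_disj`: pth_seg for j and `pth_angle` for k
(the angle is in [dir k, ..], but ≤ dir (j+1) < dir k). `pth_vertex`: pth k = pt _ (dir k) with radius > 0,
`pth_angle` gives dir j ≤ dir k ≤ dir (j+1), so k = j or j+1 by strict monotonicity.
`pth_ray`: z in both: z = t (pt s φ) = pt (t s) φ with 0 ≤ t ≤ 1; t = 0 excluded by `pth_zero`; else `pth_angle`.
-/

namespace Pool.Agent.TC47

open Filter Topology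

/-- the direction of the `j`-th vertex of the path -/
noncomputable def dir (α β : ℝ) (m j : ℕ) : ℝ := α + (β - α) * j / (m + 1)

/-- the `j`-th vertex of the path `u`, new vertices, `u'` -/
noncomputable def pth (ρ ρ' r α β : ℝ) (m j : ℕ) : ℂ :=
  pt (if j = 0 then ρ else if j = m + 1 then ρ' else r) (dir α β m j)

private theorem GD_dir_succ (α β : ℝ) (m j : ℕ) :
    dir α β m (j + 1) = dir α β m j + (β - α) / (m + 1) := by
  unfold dir
  push_cast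
  ring

private theorem GD_dir_eq (α β : ℝ) (m j : ℕ) :
    dir α β m j = α + (β - α) / (m + 1) * j := by
  unfold dir
  ring

private theorem GD_step_pos {α β : ℝ} (h : α < β) (m : ℕ) : 0 < (β - α) / ((m : ℝ) + 1) :=
  div_pos (sub_pos.2 h) (by positivity)

theorem dir_lt {α β : ℝ} (h : α < β) (m : ℕ) {j k : ℕ} (hjk : j < k) :
    dir α β m j < dir α β m k := by
  rw [GD_dir_eq, GD_dir_eq]
  have h1 := GD_step_pos h m
  have h2 : (j : ℝ) < k := by exact_mod_cast hjk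
  have h3 := mul_lt_mul_of_pos_left h2 h1
  linarith

theorem dir_zero (α β : ℝ) (m : ℕ) : dir α β m 0 = α := by
  unfold dir
  simp

theorem dir_last (α β : ℝ) (m : ℕ) : dir α β m (m + 1) = β := by
  unfold dir
  have h : (m : ℝ) + 1 ≠ 0 := by positivity
  push_cast
  rw [mul_div_assoc, div_self h]
  ring

private theorem GD_dir_le {α β : ℝ} (h : α < β) (m : ℕ) {j k : ℕ} (hjk : j ≤ k) :
    dir α β m j ≤ dir α β m k := by
  rcases Nat.eq_or_lt_of_le hjk with h1 | h1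
  · rw [h1]
  · exact (dir_lt h m h1).le

private theorem GD_dir_ge {α β : ℝ} (h : α < β) (m j : ℕ) : α ≤ dir α β m j := by
  have h1 := GD_dir_le h m (Nat.zero_le j)
  rwa [dir_zero] at h1

private theorem GD_dir_le_last {α β : ℝ} (h : α < β) {m j : ℕ} (hj : j ≤ m + 1) :
    dir α β m j ≤ β := by
  have h1 := GD_dir_le h m hj
  rwa [dir_last] at h1

private theorem GD_step_lt {α β : ℝ} (h4 : 0 < α) (h5 : α < β) (h6 : β < 2 * Real.pi) {m : ℕ}
    (hm : 3 ≤ m) : (β - α) / ((m : ℝ) + 1) < Real.pi := by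
  have hm' : (3 : ℝ) ≤ m := by exact_mod_cast hm
  have hpi := Real.pi_pos
  rw [div_lt_iff₀ (by positivity)]
  nlinarith

private theorem GD_rad_pos {ρ ρ' r : ℝ} (h1 : 0 < ρ) (h2 : 0 < ρ') (h3 : 0 < r) (m j : ℕ) :
    0 < (if j = 0 then ρ else if j = m + 1 then ρ' else r) := by
  split_ifs
  · exact h1
  · exact h2
  · exact h3

theorem pth_seg (ρ ρ' r α β : ℝ) (m j : ℕ) (h1 : 0 < ρ) (h2 : 0 < ρ') (h3 : 0 < r)
    (h4 : 0 < α) (h5 : α < β) (h6 : β < 2 * Real.pi) (hm : 3 ≤ m) (hj : j ≤ m) {z : ℂ}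
    (hz : z ∈ segment ℝ (pth ρ ρ' r α β m j) (pth ρ ρ' r α β m (j + 1))) :
    ∃ s φ : ℝ, 0 < s ∧ dir α β m j ≤ φ ∧ φ ≤ dir α β m (j + 1) ∧ z = pt s φ ∧
      (φ = dir α β m j → z = pth ρ ρ' r α β m j) ∧
      (φ = dir α β m (j + 1) → z = pth ρ ρ' r α β m (j + 1)) := by
  have hlt : dir α β m (j + 1) < dir α β m j + Real.pi := by
    rw [GD_dir_succ]
    have := GD_step_lt h4 h5 h6 hm
    linarith
  exact seg_pt (GD_rad_pos h1 h2 h3 m j) (GD_rad_pos h1 h2 h3 m (j + 1))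
    (dir_lt h5 m (Nat.lt_succ_self j)) hlt hz

private theorem GD_norm_pt {r : ℝ} (h : 0 < r) (θ : ℝ) : ‖pt r θ‖ = r := by
  unfold pt
  rw [norm_mul, Complex.norm_exp_ofReal_mul_I, mul_one, Complex.norm_real, Real.norm_eq_abs,
    abs_of_pos h]

private theorem GD_pt_ne_zero {r : ℝ} (h : 0 < r) (θ : ℝ) : pt r θ ≠ 0 := by
  intro h0
  have h1 := GD_norm_pt h θ
  rw [h0, norm_zero] at h1
  linarith

theorem pth_norm (ρ ρ' r α β : ℝ) (m j : ℕ) (h3 : 0 < r) (hj1 : 1 ≤ j) (hj : j + 1 ≤ m) {z : ℂ}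
    (hz : z ∈ segment ℝ (pth ρ ρ' r α β m j) (pth ρ ρ' r α β m (j + 1))) : ‖z‖ ≤ r := by
  have key : ∀ k : ℕ, 1 ≤ k → k ≤ m → pth ρ ρ' r α β m k ∈ Metric.closedBall (0 : ℂ) r := by
    intro k hk1 hk2
    rw [mem_closedBall_zero_iff]
    unfold pth
    rw [if_neg (by omega), if_neg (by omega), GD_norm_pt h3]
  have h := (convex_closedBall (0 : ℂ) r).segment_subset (key j hj1 (by omega))
    (key (j + 1) (by omega) hj) hz
  rwa [mem_closedBall_zero_iff] at h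

theorem pth_angle (ρ ρ' r α β : ℝ) (m j : ℕ) (h1 : 0 < ρ) (h2 : 0 < ρ') (h3 : 0 < r)
    (h4 : 0 < α) (h5 : α < β) (h6 : β < 2 * Real.pi) (hm : 3 ≤ m) (hj : j ≤ m) {s φ : ℝ}
    (hs : 0 < s) (hφ0 : 0 ≤ φ) (hφ : φ < 2 * Real.pi)
    (hz : pt s φ ∈ segment ℝ (pth ρ ρ' r α β m j) (pth ρ ρ' r α β m (j + 1))) :
    dir α β m j ≤ φ ∧ φ ≤ dir α β m (j + 1) ∧
      (φ = dir α β m j → pt s φ = pth ρ ρ' r α β m j) ∧
      (φ = dir α β m (j + 1) → pt s φ = pth ρ ρ' r α β m (j + 1)) := by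
  obtain ⟨s', φ', hs', ha, hb, he, hc, hd⟩ :=
    pth_seg ρ ρ' r α β m j h1 h2 h3 h4 h5 h6 hm hj hz
  have e1 := GD_dir_ge h5 m j
  have e2 := GD_dir_le_last h5 (show j + 1 ≤ m + 1 by omega)
  have habs : |φ - φ'| < 2 * Real.pi := by
    rw [abs_lt]
    constructor <;> linarith
  obtain ⟨-, rfl⟩ := pt_inj hs hs' habs he
  exact ⟨ha, hb, hc, hd⟩

theorem pth_zero (ρ ρ' r α β : ℝ) (m j : ℕ) (h1 : 0 < ρ) (h2 : 0 < ρ') (h3 : 0 < r)
    (h4 : 0 < α) (h5 : α < β) (h6 : β < 2 * Real.pi) (hm : 3 ≤ m) (hj : j ≤ m) :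
    (0 : ℂ) ∉ segment ℝ (pth ρ ρ' r α β m j) (pth ρ ρ' r α β m (j + 1)) := by
  intro hz
  obtain ⟨s', φ', hs', -, -, he, -⟩ :=
    pth_seg ρ ρ' r α β m j h1 h2 h3 h4 h5 h6 hm hj hz
  exact GD_pt_ne_zero hs' φ' he.symm

theorem pth_disj (ρ ρ' r α β : ℝ) (m j k : ℕ) (h1 : 0 < ρ) (h2 : 0 < ρ') (h3 : 0 < r)
    (h4 : 0 < α) (h5 : α < β) (h6 : β < 2 * Real.pi) (hm : 3 ≤ m) (hjk : j + 2 ≤ k)
    (hk : k ≤ m) :
    Disjoint (segment ℝ (pth ρ ρ' r α β m j) (pth ρ ρ' r α β m (j + 1)))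
      (segment ℝ (pth ρ ρ' r α β m k) (pth ρ ρ' r α β m (k + 1))) := by
  rw [Set.disjoint_left]
  intro z hz hz'
  obtain ⟨s, φ, hs, ha, hb, he, -⟩ :=
    pth_seg ρ ρ' r α β m j h1 h2 h3 h4 h5 h6 hm (by omega) hz
  rw [he] at hz'
  have e1 := GD_dir_ge h5 m j
  have e2 := GD_dir_le_last h5 (show j + 1 ≤ m + 1 by omega)
  have h7 := pth_angle ρ ρ' r α β m k h1 h2 h3 h4 h5 h6 hm hk hs (by linarith) (by linarith) hz'
  have h8 := dir_lt h5 m (show j + 1 < k by omega)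
  linarith [h7.1]

theorem pth_vertex (ρ ρ' r α β : ℝ) (m j k : ℕ) (h1 : 0 < ρ) (h2 : 0 < ρ') (h3 : 0 < r)
    (h4 : 0 < α) (h5 : α < β) (h6 : β < 2 * Real.pi) (hm : 3 ≤ m) (hj : j ≤ m)
    (hk : k ≤ m + 1) (hkj : k ≠ j) (hkj' : k ≠ j + 1) :
    pth ρ ρ' r α β m k ∉ segment ℝ (pth ρ ρ' r α β m j) (pth ρ ρ' r α β m (j + 1)) := by
  intro hz
  have e1 := GD_dir_ge h5 m k
  have e2 := GD_dir_le_last h5 hk
  have h7 := pth_angle ρ ρ' r α β m j h1 h2 h3 h4 h5 h6 hm hj (GD_rad_pos h1 h2 h3 m k)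
    (φ := dir α β m k) (by linarith) (by linarith) hz
  rcases lt_or_ge k j with h | h
  · have h8 := dir_lt h5 m h
    linarith [h7.1]
  · have h8 := dir_lt h5 m (show j + 1 < k by omega)
    linarith [h7.2.1]

theorem pth_ray (ρ ρ' r α β : ℝ) (m j : ℕ) (h1 : 0 < ρ) (h2 : 0 < ρ') (h3 : 0 < r)
    (h4 : 0 < α) (h5 : α < β) (h6 : β < 2 * Real.pi) (hm : 3 ≤ m) (hj : j ≤ m) (s φ : ℝ)
    (hs : 0 < s) (hφ0 : 0 ≤ φ) (hφ : φ < 2 * Real.pi)
    (h : φ < dir α β m j ∨ dir α β m (j + 1) < φ) :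
    Disjoint (segment ℝ 0 (pt s φ))
      (segment ℝ (pth ρ ρ' r α β m j) (pth ρ ρ' r α β m (j + 1))) := by
  rw [Set.disjoint_left]
  intro z hz hz'
  rw [segment_eq_image'] at hz
  obtain ⟨t, ht, he⟩ := hz
  have he' : z = pt (t * s) φ := by
    rw [← he]
    show 0 + t • (pt s φ - 0) = pt (t * s) φ
    rw [zero_add, sub_zero, Complex.real_smul]
    unfold pt
    push_cast
    ring
  rcases eq_or_lt_of_le ht.1 with h0 | h0
  · rw [he', ← h0, zero_mul] at hz'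
    have hp : pt 0 φ = 0 := by
      unfold pt
      simp
    rw [hp] at hz'
    exact pth_zero ρ ρ' r α β m j h1 h2 h3 h4 h5 h6 hm hj hz'
  · rw [he'] at hz'
    have h7 := pth_angle ρ ρ' r α β m j h1 h2 h3 h4 h5 h6 hm hj (mul_pos h0 hs) hφ0 hφ hz'
    rcases h with h | h
    · linarith [h7.1]
    · linarith [h7.2.1]

end Pool.Agent.TC47
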