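import Pool.Agent.TC47.GD

/-!
# The normalised situation (definitions for the rows G1 - G4)
-/

namespace Pool.Agent.TC47

/-- The normalised situation: `A` is at 0, `u` and `u'` are in the directions `α < β`, no neighbour of
`A` is in between, and `r` is small. -/
structure Setup {V : Type} (G : SimpleGraph V) (f : V → ℂ) (A u u' : V) (ρ ρ' r α β : ℝ)
    (m : ℕ) : Prop where
  dr : Drawing G f
  fA : f A = 0
  adj : G.Adj A u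
  adj' : G.Adj A u'
  a0 : 0 < α
  ab : α < β
  b2 : β < 2 * Real.pi
  rho : 0 < ρ
  rho' : 0 < ρ'
  r0 : 0 < r
  fu : f u = pt ρ α
  fu' : f u' = pt ρ' β
  free : ∀ y : V, G.Adj A y → ∀ s θ : ℝ, 0 < s → α < θ → θ < β → f y ≠ pt s θ
  m3 : 3 ≤ m
  small : ∀ v, v ≠ A → r < ‖f v‖
  away : ∀ x y, G.Adj x y → x ≠ A → y ≠ A → ∀ z ∈ segment ℝ (f x) (f y), r < ‖z‖
  offu : ∀ v, v ≠ A → v ≠ u → ∀ w : ℂ, ‖w‖ ≤ r → f v ∉ segment ℝ (f u) w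
  offu' : ∀ v, v ≠ A → v ≠ u' → ∀ w : ℂ, ‖w‖ ≤ r → f v ∉ segment ℝ (f u') w
  disu : ∀ x y, G.Adj x y → x ≠ A → y ≠ A → x ≠ u → y ≠ u → ∀ w : ℂ, ‖w‖ ≤ r →
    Disjoint (segment ℝ (f u) w) (segment ℝ (f x) (f y))
  disu' : ∀ x y, G.Adj x y → x ≠ A → y ≠ A → x ≠ u' → y ≠ u' → ∀ w : ℂ, ‖w‖ ≤ r →
    Disjoint (segment ℝ (f u') w) (segment ℝ (f x) (f y))

/-- the new places -/
noncomputable def fnew {V : Type} (f : V → ℂ) (ρ ρ' r α β : ℝ) (m : ℕ) : V ⊕ Fin m → ℂ :=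
  Sum.elim f (fun i => pth ρ ρ' r α β m (i.val + 1))

end Pool.Agent.TC47
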