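import Pool.Agent.TC47.GA

/-!
# K1: a free sector at `A` between two kinds of neighbours
Plan. Let N = the neighbours of A, g v = f v - f A ≠ 0 for v in N. For distinct v, w in N the quotient g w / g v
is not a positive real (else f v is in segment (f A) (f w) or conversely, against `hf.2.1`). At most one neighbour of A is
in S (S has ≤ 2 elements, one of them is A ∉ N). Choose τ: if t in N ∩ S let τ = g t; if there is none let τ = pt 1 θ0 be a
direction different from the (finitely many) directions of the neighbours. By `exists_pt` every v in N has g v = τ pt (r v) (θ v),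
r v > 0, 0 ≤ θ v < 2π; for v in N not in S: θ v ≠ 0 (θ v = 0 would give g v = r τ). The finite set of pairs
(v, w) in N∖S with ¬ (X v ↔ X w) and θ v < θ w contains (a, b) or (b, a) (θ a ≠ θ b); take one with θ w - θ v minimal
(`Set.Finite.exists_minimal..` / `Finset.exists_min_image`). No y in N has direction strictly between: for y in S, y = t and
its angle is 0 (by `pt_inj`: angles in [0,2π)); for y not in S either (v, y) or (y, w) would be a pair with smaller difference.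
-/

namespace Pool.Agent.TC47

private lemma K1_notpos {V : Type} (G : SimpleGraph V) (f : V → ℂ) (hf : Drawing G f)
    (A v w : V) (hv : G.Adj A v) (hw : G.Adj A w) (hne : v ≠ w) (c : ℝ) (hc : 0 < c) :
    f w - f A ≠ (c : ℂ) * (f v - f A) := by
  have key : ∀ (x y : V), G.Adj A x → G.Adj A y → x ≠ y → ∀ d : ℝ, 0 < d → d ≤ 1 →
      f y - f A ≠ (d : ℂ) * (f x - f A) := by
    intro x y hx hy hxy d hd hd1 h
    refine hf.2.1 A x y hx hy.ne' hxy.symm ?_
    refine ⟨1 - d, d, by linarith, hd.le, by ring, ?_⟩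
    have h1 : f y = f A + (d : ℂ) * (f x - f A) := by
      rw [← h]
      ring
    rw [h1, Complex.real_smul, Complex.real_smul]
    push_cast
    ring
  rcases le_or_gt c 1 with h1 | h1
  · exact key v w hv hw hne c hc h1
  · intro h
    refine key w v hw hv hne.symm c⁻¹ (inv_pos.mpr hc) (inv_le_one_of_one_le₀ h1.le) ?_
    rw [h, Complex.ofReal_inv, ← mul_assoc, inv_mul_cancel₀ (Complex.ofReal_ne_zero.mpr hc.ne'),
      one_mul]

private lemma K1_free {V : Type} [Finite V] (g : V → ℂ) :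
    ∃ τ : ℂ, τ ≠ 0 ∧ ∀ (v : V) (c : ℝ), 0 < c → g v ≠ (c : ℂ) * τ := by
  by_contra hcon
  push Not at hcon
  have h1 : ∀ n : ℕ, ∃ v : V, ∃ c : ℝ, 0 < c ∧ g v = (c : ℂ) * (1 + (n : ℂ) * Complex.I) := by
    intro n
    have h0 : (1 + (n : ℂ) * Complex.I) ≠ 0 := by
      intro h
      have := congrArg Complex.re h
      simp at this
    obtain ⟨v, c, hc, h⟩ := hcon _ h0
    exact ⟨v, c, hc, h⟩
  choose φ c hc hφ using h1
  have hinj : Function.Injective φ := by
    intro n m hnm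
    have h2 : (c n : ℂ) * (1 + (n : ℂ) * Complex.I) = (c m : ℂ) * (1 + (m : ℂ) * Complex.I) := by
      rw [← hφ n, ← hφ m, hnm]
    have hre := congrArg Complex.re h2
    have him := congrArg Complex.im h2
    simp at hre him
    rw [hre] at him
    have h3 := mul_left_cancel₀ (hc m).ne' him
    exact_mod_cast h3
  exact not_injective_infinite_finite φ hinj

private lemma K1_pt_zero (r : ℝ) : pt r 0 = (r : ℂ) := by
  simp [pt]

theorem exists_corner {V : Type} [Finite V] (G : SimpleGraph V) (f : V → ℂ) (hf : Drawing G f)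
    (A : V) (S : Finset V) (hS : S.card ≤ 2) (hA : A ∈ S) (X : V → Prop) (a b : V)
    (ha : G.Adj A a) (hb : G.Adj A b) (haS : a ∉ S) (hbS : b ∉ S) (hXa : X a) (hXb : ¬ X b) :
    ∃ (u u' : V) (τ : ℂ) (α β : ℝ), Corner G f A u u' τ α β ∧ u ∉ S ∧ u' ∉ S ∧
      ¬ (X u ↔ X u') := by
  classical
  -- the choice of the direction
  obtain ⟨τ, hτ, hτS, hτN⟩ : ∃ τ : ℂ, τ ≠ 0 ∧
      (∀ y, G.Adj A y → y ∈ S → ∃ c : ℝ, 0 < c ∧ f y - f A = (c : ℂ) * τ) ∧
      (∀ y, G.Adj A y → y ∉ S → ∀ c : ℝ, 0 < c → f y - f A ≠ (c : ℂ) * τ) := by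
    by_cases ht : ∃ t, G.Adj A t ∧ t ∈ S
    · obtain ⟨t, htA, htS⟩ := ht
      have huniq : ∀ y, G.Adj A y → y ∈ S → y = t := by
        intro y hy hyS
        by_contra hne
        have hsub : ({A, y, t} : Finset V) ⊆ S := by
          intro z hz
          simp only [Finset.mem_insert, Finset.mem_singleton] at hz
          rcases hz with rfl | rfl | rfl
          · exact hA
          · exact hyS
          · exact htS
        have h3 : ({A, y, t} : Finset V).card = 3 := by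
          rw [Finset.card_eq_three]
          exact ⟨A, y, t, hy.ne, htA.ne, hne, rfl⟩
        have := Finset.card_le_card hsub
        omega
      refine ⟨f t - f A, ?_, ?_, ?_⟩
      · exact sub_ne_zero.mpr fun h => htA.ne' (hf.1 h)
      · intro y hy hyS
        refine ⟨1, one_pos, ?_⟩
        rw [huniq y hy hyS]
        simp
      · intro y hy hyS c hc
        exact K1_notpos G f hf A t y htA hy (fun h => hyS (h ▸ htS)) c hc
    · push Not at ht
      obtain ⟨τ, h0, h1⟩ := K1_free (fun v => f v - f A)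
      exact ⟨τ, h0, fun y hy hyS => absurd hyS (ht y hy), fun y _ _ c hc => h1 y c hc⟩
  have hex : ∀ v, ∃ r θ : ℝ, G.Adj A v → (0 < r ∧ 0 ≤ θ ∧ θ < 2 * Real.pi ∧
      f v - f A = τ * pt r θ) := by
    intro v
    by_cases hv : G.Adj A v
    · have h0 : (f v - f A) / τ ≠ 0 :=
        div_ne_zero (sub_ne_zero.mpr fun h => hv.ne' (hf.1 h)) hτ
      obtain ⟨r, θ, h1, h2, h3, h4⟩ := exists_pt _ h0
      refine ⟨r, θ, fun _ => ⟨h1, h2, h3, ?_⟩⟩
      rw [← h4]
      field_simp
    · exact ⟨0, 0, fun h => absurd h hv⟩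
  choose R Θ hRΘ using hex
  have hΘS : ∀ y, G.Adj A y → y ∈ S → Θ y = 0 := by
    intro y hy hyS
    obtain ⟨c, hc, h⟩ := hτS y hy hyS
    obtain ⟨h1, h2, h3, h4⟩ := hRΘ y hy
    rw [h4, mul_comm] at h
    have h5 : pt (R y) (Θ y) = pt c 0 := by
      rw [K1_pt_zero]
      exact mul_right_cancel₀ hτ h
    refine (pt_inj h1 hc ?_ h5).2
    rw [sub_zero, abs_of_nonneg h2]
    exact h3
  have hΘN : ∀ y, G.Adj A y → y ∉ S → 0 < Θ y := by
    intro y hy hyS
    obtain ⟨h1, h2, h3, h4⟩ := hRΘ y hy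
    refine lt_of_le_of_ne h2 ?_
    intro h0
    refine hτN y hy hyS (R y) h1 ?_
    rw [h4, ← h0, K1_pt_zero, mul_comm]
  have hΘne : ∀ v w, G.Adj A v → G.Adj A w → v ≠ w → Θ v ≠ Θ w := by
    intro v w hv hw hne h
    obtain ⟨h1, -, -, h4⟩ := hRΘ v hv
    obtain ⟨k1, -, -, k4⟩ := hRΘ w hw
    refine K1_notpos G f hf A v w hv hw hne (R w / R v) (div_pos k1 h1) ?_
    rw [h4, k4, h]
    unfold pt
    have hv0 : (R v : ℂ) ≠ 0 := Complex.ofReal_ne_zero.mpr h1.ne'
    push_cast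
    field_simp
  have hab : a ≠ b := by
    rintro rfl
    exact hXb hXa
  let P : Set (V × V) := {p | G.Adj A p.1 ∧ G.Adj A p.2 ∧ p.1 ∉ S ∧ p.2 ∉ S ∧
    ¬ (X p.1 ↔ X p.2) ∧ Θ p.1 < Θ p.2}
  have hP : P.Nonempty := by
    rcases lt_or_gt_of_ne (hΘne a b ha hb hab) with h | h
    · exact ⟨(a, b), ha, hb, haS, hbS, fun h' => hXb (h'.mp hXa), h⟩
    · exact ⟨(b, a), hb, ha, hbS, haS, fun h' => hXb (h'.mpr hXa), h⟩
  obtain ⟨⟨v, w⟩, ⟨hv, hw, hvS, hwS, hX, hlt⟩, hmin⟩ :=
    Set.exists_min_image P (fun p => Θ p.2 - Θ p.1) (Set.toFinite P) hP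
  simp only at hv hw hvS hwS hX hlt hmin
  obtain ⟨v1, v2, v3, v4⟩ := hRΘ v hv
  obtain ⟨w1, w2, w3, w4⟩ := hRΘ w hw
  refine ⟨v, w, τ, Θ v, Θ w, ⟨hv, hw, hτ, hΘN v hv hvS, hlt, w3, ⟨R v, v1, v4⟩, ⟨R w, w1, w4⟩, ?_⟩,
    hvS, hwS, hX⟩
  intro y hy r θ hr hαθ hθβ h
  obtain ⟨y1, y2, y3, y4⟩ := hRΘ y hy
  have h5 : pt (R y) (Θ y) = pt r θ := by
    rw [y4] at h
    exact mul_left_cancel₀ hτ h
  have h6 : Θ y = θ := by
    refine (pt_inj y1 hr ?_ h5).2
    rw [abs_lt]
    constructor <;> linarith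
  have h7 : Θ v < Θ y := by rw [h6]; exact hαθ
  have h8 : Θ y < Θ w := by rw [h6]; exact hθβ
  have hyS : y ∉ S := by
    intro hyS
    have := hΘS y hy hyS
    linarith
  by_cases hXy : X v ↔ X y
  · have hm : (y, w) ∈ P := ⟨hy, hw, hyS, hwS, fun h' => hX (hXy.trans h'), h8⟩
    have := hmin (y, w) hm
    simp only at this
    linarith
  · have hm : (v, y) ∈ P := ⟨hv, hy, hvS, hyS, hXy, h7⟩
    have := hmin (v, y) hm
    simp only at this
    linarith

end Pool.Agent.TC47
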