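import Pool.Agent.TC47.N0

/-!
# N1: every component of `G - S` contains a neighbour of `A`
Plan: by `connected_iff` for `S.erase A` (x and A are not in `S.erase A`) there is a path from x to A
in `G - (S - A)`. Use `Rch.ind` (start x) with the motive
`fun y => (y ∉ S → Rch G S x y) ∧ (y = A → ∃ a, a ∉ S ∧ G.Adj A a ∧ Rch G S x a)`
for `G`, `S.erase A`; more precisely the motive `Rch G S x y ∨ ∃ a, a ∉ S ∧ G.Adj A a ∧ Rch G S x a`:
in a step y - z with z ∉ S.erase A either z ∉ S (extend, y ∉ S since Rch G S x y) or z = A (then y is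
the neighbour wanted). At y = A the first alternative is impossible as A ∈ S.
-/

namespace Pool.Agent.TC47

open Filter Topology

open Classical in
theorem exists_nb {V : Type} (G : SimpleGraph V) (S : Finset V) (A : V) (hA : A ∈ S)
    (h : (G.induce ((↑(S.erase A) : Set V)ᶜ)).Connected) (x : V) (hx : x ∉ S) :
    ∃ a, a ∉ S ∧ G.Adj A a ∧ Rch G S x a := by
  have h1 : Rch G (S.erase A) x A := ((connected_iff G (S.erase A)).1 h).2 x A
    (fun h => hx (Finset.mem_of_mem_erase h)) (Finset.notMem_erase A S)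
  have hmem : ∀ {y : V}, Rch G S x y → y ∉ S := by
    rintro y ⟨-, hy, -⟩ h
    exact hy (Finset.mem_coe.2 h)
  have h2 : Rch G S x A ∨ ∃ a, a ∉ S ∧ G.Adj A a ∧ Rch G S x a := by
    refine Rch.ind (fun y => Rch G S x y ∨ ∃ a, a ∉ S ∧ G.Adj A a ∧ Rch G S x a)
      (Or.inl (Rch.refl G hx)) ?_ h1
    intro y z _ hz _ hadj ih
    rcases ih with ih | ih
    · by_cases hzS : z ∈ S
      · have hzA : z = A := by
          by_contra hne
          exact hz (Finset.mem_erase.2 ⟨hne, hzS⟩)
        subst hzA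
        exact Or.inr ⟨y, hmem ih, hadj.symm, ih⟩
      · exact Or.inl (ih.trans (Rch.edge hadj (hmem ih) hzS))
    · exact Or.inr ih
  rcases h2 with h2 | h2
  · exact absurd hA (hmem h2)
  · exact h2

end Pool.Agent.TC47
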