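import Pool.Agent.TC47.N2

/-!
# N3: a fan does not create components
Notation: F = fan G A u u' m, S' = S.map (old m) (so `Sum.inr i ∉ S'`, `Sum.inl x ∈ S' ↔ x ∈ S`).
Plan. `fan_reach`: z = inl x trivial. z = inr i: if A ∉ S the edge inr i - inl A. If A ∈ S: A, u, u' are
distinct (adjacency irreflexive, huu) and S has at most 2 elements, so u ∉ S or u' ∉ S. If u ∉ S: induction
down along inr i - inr (i-1) - .. - inr 0 - inl u; if u' ∉ S: up to inr (m-1) - inl u'.
`fan_join`: the path inl u - inr 0 - .. - inr (m-1) - inl u'.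
`fan_cc_le` / `fan_cc_lt`: `cc_le_of_map` / `cc_lt_of_map` with φ = Sum.inl (an edge of G is an edge of F).
-/

namespace Pool.Agent.TC47

open Filter Topology

variable {V : Type}

private theorem N3_mem {m : ℕ} {S : Finset V} {x : V} :
    (Sum.inl x : V ⊕ Fin m) ∈ S.map (old m) ↔ x ∈ S := by
  rw [Finset.mem_map]
  constructor
  · rintro ⟨y, hy, e⟩
    have : y = x := Sum.inl_injective e
    rwa [← this]
  · exact fun h => ⟨x, h, rfl⟩

private theorem N3_inr {m : ℕ} {S : Finset V} (i : Fin m) :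
    (Sum.inr i : V ⊕ Fin m) ∉ S.map (old m) := by
  rw [Finset.mem_map]
  rintro ⟨y, -, e⟩
  exact Sum.inl_ne_inr e

private theorem N3_A (G : SimpleGraph V) (A u u' : V) (m : ℕ) (i : Fin m) :
    (fan G A u u' m).Adj (Sum.inr i) (Sum.inl A) :=
  (fan_adj G A u u' m _ _).2 (Or.inr (Or.inl rfl))

private theorem N3_u (G : SimpleGraph V) (A u u' : V) (m : ℕ) (i : Fin m) (hi : i.val = 0) :
    (fan G A u u' m).Adj (Sum.inr i) (Sum.inl u) :=
  (fan_adj G A u u' m _ _).2 (Or.inr (Or.inr (Or.inl ⟨rfl, hi⟩)))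

private theorem N3_u' (G : SimpleGraph V) (A u u' : V) (m : ℕ) (i : Fin m) (hi : i.val + 1 = m) :
    (fan G A u u' m).Adj (Sum.inr i) (Sum.inl u') :=
  (fan_adj G A u u' m _ _).2 (Or.inr (Or.inr (Or.inr ⟨rfl, hi⟩)))

private theorem N3_step (G : SimpleGraph V) (A u u' : V) (m : ℕ) (i j : Fin m)
    (h : i.val + 1 = j.val) : (fan G A u u' m).Adj (Sum.inr i) (Sum.inr j) :=
  (fan_adj G A u u' m _ _).2 (Or.inl h)

private theorem N3_old (G : SimpleGraph V) (A u u' : V) (m : ℕ) {x y : V} (h : G.Adj x y) :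
    (fan G A u u' m).Adj (Sum.inl x) (Sum.inl y) :=
  (fan_adj G A u u' m _ _).2 (Or.inl h)

private theorem N3_down (G : SimpleGraph V) (A u u' : V) (m : ℕ) (S : Finset V) (hu : u ∉ S) :
    ∀ (k : ℕ) (hk : k < m),
      Rch (fan G A u u' m) (S.map (old m)) (Sum.inr ⟨k, hk⟩) (Sum.inl u) := by
  intro k
  induction k with
  | zero =>
    intro hk
    exact Rch.edge (N3_u G A u u' m _ rfl) (N3_inr _) (fun h => hu (N3_mem.1 h))
  | succ k ih =>
    intro hk
    have h1 : k < m := by omega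
    exact Rch.trans (Rch.edge (N3_step G A u u' m ⟨k, h1⟩ ⟨k + 1, hk⟩ rfl).symm (N3_inr _)
      (N3_inr _)) (ih h1)

private theorem N3_up (G : SimpleGraph V) (A u u' : V) (m : ℕ) (S : Finset V) (hu : u' ∉ S) :
    ∀ (k j : ℕ) (hj : j < m), j + k + 1 = m →
      Rch (fan G A u u' m) (S.map (old m)) (Sum.inr ⟨j, hj⟩) (Sum.inl u') := by
  intro k
  induction k with
  | zero =>
    intro j hj h
    exact Rch.edge (N3_u' G A u u' m ⟨j, hj⟩ h) (N3_inr _) (fun h => hu (N3_mem.1 h))
  | succ k ih =>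
    intro j hj h
    have h1 : j + 1 < m := by omega
    exact Rch.trans (Rch.edge (N3_step G A u u' m ⟨j, hj⟩ ⟨j + 1, h1⟩ rfl) (N3_inr _)
      (N3_inr _)) (ih (j + 1) h1 (by omega))

theorem fan_reach (G : SimpleGraph V) (A u u' : V) (hu : G.Adj A u) (hu' : G.Adj A u')
    (huu : u ≠ u') (m : ℕ) (S : Finset V) (hS : S.card ≤ 2) (z : V ⊕ Fin m)
    (hz : z ∉ S.map (old m)) :
    ∃ x : V, x ∉ S ∧ Rch (fan G A u u' m) (S.map (old m)) z (Sum.inl x) := by
  rcases z with x | i
  · exact ⟨x, fun h => hz (N3_mem.2 h), Rch.refl _ hz⟩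
  · by_cases hA : A ∈ S
    · by_cases h1 : u ∈ S
      · have h2 : u' ∉ S := by
          intro h2
          classical
          have h3 : ({A, u, u'} : Finset V) ⊆ S := by
            intro y hy
            rw [Finset.mem_insert, Finset.mem_insert, Finset.mem_singleton] at hy
            rcases hy with rfl | rfl | rfl
            · exact hA
            · exact h1
            · exact h2
          have h4 : ({A, u, u'} : Finset V).card = 3 := by
            rw [Finset.card_eq_three]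
            exact ⟨A, u, u', hu.ne, hu'.ne, huu, rfl⟩
          have h5 := Finset.card_le_card h3
          omega
        exact ⟨u', h2, N3_up G A u u' m S h2 (m - i.val - 1) i.val i.2 (by have := i.2; omega)⟩
      · exact ⟨u, h1, N3_down G A u u' m S h1 i.val i.2⟩
    · exact ⟨A, hA, Rch.edge (N3_A G A u u' m i) (N3_inr _) (fun h => hA (N3_mem.1 h))⟩

theorem fan_join (G : SimpleGraph V) (A u u' : V) (m : ℕ) (hm : 1 ≤ m) (S : Finset V)
    (hu : u ∉ S) (hu' : u' ∉ S) :
    Rch (fan G A u u' m) (S.map (old m)) (Sum.inl u) (Sum.inl u') :=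
  Rch.trans (Rch.symm (N3_down G A u u' m S hu 0 (by omega)))
    (N3_up G A u u' m S hu' (m - 1) 0 (by omega) (by omega))

theorem fan_cc_le [Finite V] (G : SimpleGraph V) (A u u' : V) (hu : G.Adj A u)
    (hu' : G.Adj A u') (huu : u ≠ u') (m : ℕ) (S : Finset V) (hS : S.card ≤ 2) :
    cc (fan G A u u' m) (S.map (old m)) ≤ cc G S :=
  cc_le_of_map G (fan G A u u' m) S (S.map (old m)) Sum.inl (fun _ hx h => hx (N3_mem.1 h))
    (fun x y hx hy h => Rch.edge (N3_old G A u u' m h) (fun h => hx (N3_mem.1 h))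
      (fun h => hy (N3_mem.1 h)))
    (fun z hz => fan_reach G A u u' hu hu' huu m S hS z hz)

theorem fan_cc_lt [Finite V] (G : SimpleGraph V) (A u u' : V) (hu : G.Adj A u)
    (hu' : G.Adj A u') (huu : u ≠ u') (m : ℕ) (hm : 1 ≤ m) (S : Finset V) (hS : S.card ≤ 2)
    (huS : u ∉ S) (huS' : u' ∉ S) (hn : ¬ Rch G S u u') :
    cc (fan G A u u' m) (S.map (old m)) < cc G S :=
  cc_lt_of_map G (fan G A u u' m) S (S.map (old m)) Sum.inl (fun _ hx h => hx (N3_mem.1 h))
    (fun x y hx hy h => Rch.edge (N3_old G A u u' m h) (fun h => hx (N3_mem.1 h))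
      (fun h => hy (N3_mem.1 h)))
    (fun z hz => fan_reach G A u u' hu hu' huu m S hS z hz) u u' huS huS' hn
    (fan_join G A u u' m hm S huS huS')

end Pool.Agent.TC47
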