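import Pool.Agent.TC47.N0

/-!
# N4: deleting new vertices of a fan
Plan. F = fan G A u u' m. `fan_connected`: every inr i is adjacent to inl A, G is connected (map of a walk).
`fan_new_one`: F - {inr i}: all other new vertices are adjacent to inl A, old vertices are joined by walks
of G. `fan_new_two`: S = {inr i, w}. w = inr j: as before. w = inl x with x ≠ A: old vertices other than x are
joined in G - x (h1 x, `cc_one_iff`, `connected_iff`), every inr j is adjacent to inl A. w = inl A: old vertices
are joined in G - A; inr j with j < i goes down to inr 0 and inl u, with j > i up to inr (m-1) and inl u'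
(u, u' ≠ A by adjacency). Use `cc_one_iff`, `connected_iff` for the conclusion, and for old vertices: if
Rch G T x y and inl z ∉ S for every z ∉ T then Rch F S (inl x) (inl y) (by `Rch.ind`).
-/

namespace Pool.Agent.TC47

open Filter Topology

variable {V : Type}

private theorem N4_adj_old (G : SimpleGraph V) (A u u' : V) (m : ℕ) {x y : V} (h : G.Adj x y) :
    (fan G A u u' m).Adj (Sum.inl x) (Sum.inl y) := by
  rw [fan_adj]
  exact Or.inl h

private theorem N4_adj_A (G : SimpleGraph V) (A u u' : V) (m : ℕ) (i : Fin m) :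
    (fan G A u u' m).Adj (Sum.inr i) (Sum.inl A) := by
  rw [fan_adj]
  exact Or.inr (Or.inl rfl)

private theorem N4_adj_u (G : SimpleGraph V) (A u u' : V) (m : ℕ) (i : Fin m) (h : i.val = 0) :
    (fan G A u u' m).Adj (Sum.inr i) (Sum.inl u) := by
  rw [fan_adj]
  exact Or.inr (Or.inr (Or.inl ⟨rfl, h⟩))

private theorem N4_adj_u' (G : SimpleGraph V) (A u u' : V) (m : ℕ) (i : Fin m)
    (h : i.val + 1 = m) : (fan G A u u' m).Adj (Sum.inr i) (Sum.inl u') := by
  rw [fan_adj]
  exact Or.inr (Or.inr (Or.inr ⟨rfl, h⟩))

private theorem N4_adj_new (G : SimpleGraph V) (A u u' : V) (m : ℕ) (i j : Fin m)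
    (h : i.val + 1 = j.val) : (fan G A u u' m).Adj (Sum.inr i) (Sum.inr j) := by
  rw [fan_adj]
  exact Or.inl h

/-- reachability of old vertices -/
private theorem N4_lift (G : SimpleGraph V) (A u u' : V) (m : ℕ) (T : Finset V)
    (S : Finset (V ⊕ Fin m)) (h : ∀ z, z ∉ T → (Sum.inl z : V ⊕ Fin m) ∉ S) {x y : V}
    (hR : Rch G T x y) : Rch (fan G A u u' m) S (Sum.inl x) (Sum.inl y) := by
  have hx : x ∉ T := by
    obtain ⟨hx, -, -⟩ := hR
    simpa using hx
  refine Rch.ind (fun z => Rch (fan G A u u' m) S (Sum.inl x) (Sum.inl z))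
    (Rch.refl _ (h x hx)) ?_ hR
  intro y z hy hz _ hadj ih
  exact ih.trans (Rch.edge (N4_adj_old G A u u' m hadj) (h y hy) (h z hz))

private theorem N4_conn (G : SimpleGraph V) (hG : G.Connected) (x y : V) : Rch G ∅ x y := by
  obtain ⟨p⟩ := hG.preconnected x y
  induction p with
  | nil => exact Rch.refl _ (Finset.notMem_empty _)
  | cons h _ ih =>
    exact (Rch.edge h (Finset.notMem_empty _) (Finset.notMem_empty _)).trans ih

private theorem N4_one (G : SimpleGraph V) [Finite V] {S : Finset V} (b : V) (hb : b ∉ S)
    (h : ∀ x, x ∉ S → Rch G S x b) : cc G S = 1 := by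
  rw [cc_one_iff, connected_iff]
  exact ⟨⟨b, hb⟩, fun x y hx hy => (h x hx).trans (h y hy).symm⟩

theorem fan_connected [Finite V] (G : SimpleGraph V) (A u u' : V) (m : ℕ) (hG : G.Connected) :
    (fan G A u u' m).Connected := by
  have hA : ∀ x : V ⊕ Fin m, (fan G A u u' m).Reachable x (Sum.inl A) := by
    rintro (x | i)
    · let f : G →g fan G A u u' m := ⟨Sum.inl, fun h => N4_adj_old G A u u' m h⟩
      exact (hG.preconnected x A).map f
    · exact (N4_adj_A G A u u' m i).reachable
  have : Nonempty (V ⊕ Fin m) := ⟨Sum.inl A⟩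
  exact ⟨fun x y => (hA x).trans (hA y).symm⟩

theorem fan_new_one [Finite V] (G : SimpleGraph V) (A u u' : V) (m : ℕ) (hG : G.Connected)
    (i : Fin m) : cc (fan G A u u' m) {Sum.inr i} = 1 := by
  have hA : (Sum.inl A : V ⊕ Fin m) ∉ ({Sum.inr i} : Finset (V ⊕ Fin m)) := by simp
  refine N4_one _ (Sum.inl A) hA ?_
  rintro (x | j) hx
  · exact N4_lift G A u u' m ∅ _ (fun z _ => by simp) (N4_conn G hG x A)
  · exact Rch.edge (N4_adj_A G A u u' m j) hx hA

theorem fan_new_two [Finite V] (G : SimpleGraph V) (A u u' : V) (hu : G.Adj A u)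
    (hu' : G.Adj A u') (m : ℕ) (hG : G.Connected) (h1 : ∀ x, cc G {x} = 1)
    (S : Finset (V ⊕ Fin m)) (hS : S.card = 2) (i : Fin m) (hi : Sum.inr i ∈ S) :
    cc (fan G A u u' m) S = 1 := by
  classical
  obtain ⟨w, hwi, hw⟩ : ∃ w : V ⊕ Fin m, w ≠ Sum.inr i ∧ ∀ z, z ∈ S ↔ z = Sum.inr i ∨ z = w := by
    obtain ⟨a, c, hac, rfl⟩ := Finset.card_eq_two.mp hS
    simp only [Finset.mem_insert, Finset.mem_singleton] at hi ⊢
    rcases hi with h | h
    · exact ⟨c, by rw [h]; exact hac.symm, fun z => by rw [h]⟩
    · exact ⟨a, by rw [h]; exact hac, fun z => by rw [h]; exact or_comm⟩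
  have h1' : ∀ x y z : V, y ≠ x → z ≠ x → Rch G {x} y z := by
    intro x y z hy hz
    have h2 := h1 x
    rw [cc_one_iff, connected_iff] at h2
    exact h2.2 y z (by simpa using hy) (by simpa using hz)
  rcases w with x₀ | j
  · have hx₀ : ∀ z, z ∉ ({x₀} : Finset V) → (Sum.inl z : V ⊕ Fin m) ∉ S := by
      intro z hz
      rw [hw]
      simpa using hz
    by_cases hxA : x₀ = A
    · subst hxA
      have hu0 : u ≠ x₀ := hu.ne'
      have hu0' : u' ≠ x₀ := hu'.ne'
      have huS : (Sum.inl u : V ⊕ Fin m) ∉ S := hx₀ u (by simpa using hu0)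
      have huS' : (Sum.inl u' : V ⊕ Fin m) ∉ S := hx₀ u' (by simpa using hu0')
      have hdown : ∀ (k : ℕ) (j : Fin m), j.val = k → j.val < i.val →
          Rch (fan G x₀ u u' m) S (Sum.inr j) (Sum.inl u) := by
        intro k
        induction k with
        | zero =>
          intro j hj hji
          have hjS : (Sum.inr j : V ⊕ Fin m) ∉ S := by
            rw [hw]
            simp only [Sum.inr.injEq, reduceCtorEq, or_false]
            intro h
            rw [h] at hji
            omega
          exact Rch.edge (N4_adj_u G x₀ u u' m j hj) hjS huS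
        | succ k ih =>
          intro j hj hji
          have hjS : (Sum.inr j : V ⊕ Fin m) ∉ S := by
            rw [hw]
            simp only [Sum.inr.injEq, reduceCtorEq, or_false]
            intro h
            rw [h] at hji
            omega
          have hk : k < m := by omega
          have hkS : (Sum.inr ⟨k, hk⟩ : V ⊕ Fin m) ∉ S := by
            rw [hw]
            simp only [Sum.inr.injEq, reduceCtorEq, or_false]
            intro h
            rw [← h] at hji
            simp only at hji
            omega
          have h3 := ih ⟨k, hk⟩ rfl (by simp only; omega)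
          exact (Rch.edge (N4_adj_new G x₀ u u' m ⟨k, hk⟩ j (by simp only; omega)) hkS
            hjS).symm.trans h3
      have hup : ∀ (k : ℕ) (j : Fin m), j.val + 1 + k = m → i.val < j.val →
          Rch (fan G x₀ u u' m) S (Sum.inr j) (Sum.inl u') := by
        intro k
        induction k with
        | zero =>
          intro j hj hji
          have hjS : (Sum.inr j : V ⊕ Fin m) ∉ S := by
            rw [hw]
            simp only [Sum.inr.injEq, reduceCtorEq, or_false]
            intro h
            rw [h] at hji
            omega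
          exact Rch.edge (N4_adj_u' G x₀ u u' m j hj) hjS huS'
        | succ k ih =>
          intro j hj hji
          have hjS : (Sum.inr j : V ⊕ Fin m) ∉ S := by
            rw [hw]
            simp only [Sum.inr.injEq, reduceCtorEq, or_false]
            intro h
            rw [h] at hji
            omega
          have hk : j.val + 1 < m := by omega
          have hkS : (Sum.inr ⟨j.val + 1, hk⟩ : V ⊕ Fin m) ∉ S := by
            rw [hw]
            simp only [Sum.inr.injEq, reduceCtorEq, or_false]
            intro h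
            rw [← h] at hji
            simp only at hji
            omega
          have h3 := ih ⟨j.val + 1, hk⟩ (by simp only; omega) (by simp only; omega)
          exact (Rch.edge (N4_adj_new G x₀ u u' m j ⟨j.val + 1, hk⟩ rfl) hjS hkS).trans h3
      refine N4_one _ (Sum.inl u) huS ?_
      rintro (x | j) hx
      · have hxx : x ≠ x₀ := by
          rintro rfl
          exact hx ((hw _).2 (Or.inr rfl))
        exact N4_lift G x₀ u u' m {x₀} S hx₀ (h1' x₀ x u hxx hu0)
      · have hji : j ≠ i := by
          rintro rfl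
          exact hx ((hw _).2 (Or.inl rfl))
        rcases lt_or_gt_of_ne (fun h => hji (Fin.ext h) : j.val ≠ i.val) with h | h
        · exact hdown j.val j rfl h
        · exact (hup (m - (j.val + 1)) j (by omega) h).trans
            (N4_lift G x₀ u u' m {x₀} S hx₀ (h1' x₀ u' u hu0' hu0))
    · have hAS : (Sum.inl A : V ⊕ Fin m) ∉ S := hx₀ A (by simpa using fun h => hxA h.symm)
      refine N4_one _ (Sum.inl A) hAS ?_
      rintro (x | j) hx
      · have hxx : x ≠ x₀ := by
          rintro rfl
          exact hx ((hw _).2 (Or.inr rfl))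
        exact N4_lift G A u u' m {x₀} S hx₀ (h1' x₀ x A hxx (fun h => hxA h.symm))
      · exact Rch.edge (N4_adj_A G A u u' m j) hx hAS
  · have hold : ∀ z : V, z ∉ (∅ : Finset V) → (Sum.inl z : V ⊕ Fin m) ∉ S := by
      intro z _
      rw [hw]
      simp
    have hAS : (Sum.inl A : V ⊕ Fin m) ∉ S := hold A (Finset.notMem_empty _)
    refine N4_one _ (Sum.inl A) hAS ?_
    rintro (x | k) hx
    · exact N4_lift G A u u' m ∅ S hold (N4_conn G hG x A)
    · exact Rch.edge (N4_adj_A G A u u' m k) hx hAS

end Pool.Agent.TC47
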