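import Pool.Agent.TC47.Rch

/-!
# N5: the defect
Plan: `defect` is a sum over all finsets. A finset S of V ⊕ Fin m without element inr i is
T.map (old m) with T = its preimage; the terms with some inr i vanish by h1. So
defect G' k = sum over T of (if T.card = k then cc G' (T.map (old m)) - 1 else 0)
(`Finset.sum_subset` / `Finset.sum_image` / `Finset.sum_nbij` for the injective map T ↦ T.map (old m),
`Finset.card_map`), then compare term by term (`Finset.sum_le_sum`, `Finset.sum_lt_sum`).
-/

namespace Pool.Agent.TC47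

open Filter Topology

variable {V : Type}

private theorem N5_sum [Fintype V] (m : ℕ) (G' : SimpleGraph (V ⊕ Fin m)) (k : ℕ)
    (h1 : ∀ (S : Finset (V ⊕ Fin m)) (i : Fin m), S.card = k → Sum.inr i ∈ S → cc G' S = 1) :
    defect G' k = ∑ T : Finset V, if T.card = k then cc G' (T.map (old m)) - 1 else 0 := by
  classical
  unfold defect
  let e : Finset V ↪ Finset (V ⊕ Fin m) := ⟨fun T => T.map (old m), Finset.map_injective _⟩
  have hm := Finset.sum_map (Finset.univ : Finset (Finset V)) e
    (fun S : Finset (V ⊕ Fin m) => if S.card = k then cc G' S - 1 else 0)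
  have hsub : ∑ S ∈ Finset.univ.map e, (if S.card = k then cc G' S - 1 else 0) =
      ∑ S : Finset (V ⊕ Fin m), (if S.card = k then cc G' S - 1 else 0) := by
    apply Finset.sum_subset (Finset.subset_univ _)
    intro S _ hS
    by_cases hc : S.card = k
    · rw [if_pos hc]
      have hex : ∃ i : Fin m, Sum.inr i ∈ S := by
        by_contra hcon
        push Not at hcon
        apply hS
        rw [Finset.mem_map]
        refine ⟨Finset.univ.filter (fun v => Sum.inl v ∈ S), Finset.mem_univ _, ?_⟩
        show (Finset.univ.filter (fun v => Sum.inl v ∈ S)).map (old m) = S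
        ext x
        rw [Finset.mem_map]
        constructor
        · rintro ⟨v, hv, rfl⟩
          exact (Finset.mem_filter.1 hv).2
        · intro hx
          rcases x with v | i
          · exact ⟨v, Finset.mem_filter.2 ⟨Finset.mem_univ _, hx⟩, rfl⟩
          · exact absurd hx (hcon i)
      obtain ⟨i, hi⟩ := hex
      rw [h1 S i hc hi, Nat.sub_self]
    · rw [if_neg hc]
  rw [← hsub, hm]
  refine Finset.sum_congr rfl fun T _ => ?_
  show (if (T.map (old m)).card = k then cc G' (T.map (old m)) - 1 else 0) = _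
  rw [Finset.card_map]

private theorem N5_term [Fintype V] (G : SimpleGraph V) (m : ℕ) (G' : SimpleGraph (V ⊕ Fin m))
    (k : ℕ) (h2 : ∀ S : Finset V, S.card = k → cc G' (S.map (old m)) ≤ cc G S) (T : Finset V) :
    (if T.card = k then cc G' (T.map (old m)) - 1 else 0) ≤ if T.card = k then cc G T - 1 else 0 := by
  by_cases hc : T.card = k
  · rw [if_pos hc, if_pos hc]
    exact Nat.sub_le_sub_right (h2 T hc) 1
  · rw [if_neg hc, if_neg hc]

theorem defect_le [Fintype V] (G : SimpleGraph V) (m : ℕ) (G' : SimpleGraph (V ⊕ Fin m)) (k : ℕ)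
    (h1 : ∀ (S : Finset (V ⊕ Fin m)) (i : Fin m), S.card = k → Sum.inr i ∈ S → cc G' S = 1)
    (h2 : ∀ S : Finset V, S.card = k → cc G' (S.map (old m)) ≤ cc G S) :
    defect G' k ≤ defect G k := by
  rw [N5_sum m G' k h1]
  unfold defect
  exact Finset.sum_le_sum fun T _ => N5_term G m G' k h2 T

theorem defect_lt [Fintype V] (G : SimpleGraph V) (m : ℕ) (G' : SimpleGraph (V ⊕ Fin m)) (k : ℕ)
    (h1 : ∀ (S : Finset (V ⊕ Fin m)) (i : Fin m), S.card = k → Sum.inr i ∈ S → cc G' S = 1)
    (h2 : ∀ S : Finset V, S.card = k → cc G' (S.map (old m)) ≤ cc G S) (S0 : Finset V)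
    (h3 : S0.card = k) (h4 : cc G' (S0.map (old m)) < cc G S0) (h5 : 1 < cc G S0) :
    defect G' k < defect G k := by
  rw [N5_sum m G' k h1]
  unfold defect
  refine Finset.sum_lt_sum (fun T _ => N5_term G m G' k h2 T) ⟨S0, Finset.mem_univ _, ?_⟩
  rw [if_pos h3, if_pos h3]
  omega

theorem defect_pos [Fintype V] (G : SimpleGraph V) (k : ℕ) (h : defect G k ≠ 0) :
    ∃ S : Finset V, S.card = k ∧ 1 < cc G S := by
  by_contra hcon
  push Not at hcon
  apply h
  unfold defect
  refine Finset.sum_eq_zero fun S _ => ?_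
  by_cases hc : S.card = k
  · rw [if_pos hc]
    have := hcon S hc
    omega
  · rw [if_neg hc]

theorem defect_zero [Fintype V] (G : SimpleGraph V) (k : ℕ) (h : defect G k = 0) (S : Finset V)
    (hS : S.card = k) : cc G S ≤ 1 := by
  unfold defect at h
  have h1 := (Finset.sum_eq_zero_iff.1 h) S (Finset.mem_univ _)
  rw [if_pos hS] at h1
  omega

end Pool.Agent.TC47
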