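import Pool.Agent.TC47.Defs
import Pool.Agent.Ch3.Stmt
import Pool.Agent.LibChromRoots.Whitney

/-!
# S0: small graphs
Plan. `small_roots`: card V is 1 or 2 (connected graphs are nonempty) and G = ⊤ (for card 1 trivially, for card 2 because the two
vertices are joined). Colourings of ⊤ are injective maps V → Fin k (`SimpleGraph.Coloring` of ⊤ ≃ V ↪ Fin k), their number is
k.descFactorial (card V) (`Fintype.card_embedding_eq`) = k or k (k-1). So P = X or P = X (X - 1) (two polynomials which agree on
all natural numbers, `LibChromRoots.poly_eq_of_nat` in Pool/Agent/LibChromRoots/Whitney.lean, import allowed).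
`chromatic_ne_zero`: P (card V) is the number of colourings with card V colours, which is positive.
-/

namespace Pool.Agent.TC47

variable {V : Type}

private lemma S0_adj [Fintype V] (G : SimpleGraph V) (hG : G.Connected) (h : Fintype.card V ≤ 2)
    (u v : V) (huv : u ≠ v) : G.Adj u v := by
  classical
  obtain ⟨p⟩ := hG.preconnected u v
  cases p with
  | nil => exact absurd rfl huv
  | @cons _ w _ hw q =>
    by_cases hwv : w = v
    · rw [← hwv]; exact hw
    · exfalso
      have h1 : ({u, v, w} : Finset V).card = 3 := by
        rw [Finset.card_eq_three]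
        exact ⟨u, v, w, huv, hw.ne, fun e => hwv e.symm, rfl⟩
      have h2 := Finset.card_le_univ ({u, v, w} : Finset V)
      omega

private lemma S0_card [Fintype V] (G : SimpleGraph V) (hG : ∀ u v : V, u ≠ v → G.Adj u v) (k : ℕ) :
    Nat.card (G.Coloring (Fin k)) = k.descFactorial (Fintype.card V) := by
  classical
  have e : G.Coloring (Fin k) ≃ (V ↪ Fin k) :=
    { toFun := fun C => ⟨C, fun a b hab => by
        by_contra hne
        exact C.valid (hG a b hne) hab⟩
      invFun := fun f => SimpleGraph.Coloring.mk f (fun {a b} hab he => hab.ne (f.injective he))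
      left_inv := fun C => by
        ext a
        rfl
      right_inv := fun f => by
        ext a
        rfl }
  rw [Nat.card_congr e, Nat.card_eq_fintype_card, Fintype.card_embedding_eq, Fintype.card_fin]

theorem small_roots [Fintype V] (G : SimpleGraph V) (hG : G.Connected) (h : Fintype.card V ≤ 2)
    (P : Polynomial ℂ) (hP : Ch3.IsChromaticPoly G P) (z : ℂ) (hz : P.eval z = 0) :
    z = 0 ∨ z = 1 := by
  classical
  have hne : Nonempty V := hG.nonempty
  have hpos : 0 < Fintype.card V := Fintype.card_pos
  have hk : ∀ k : ℕ, P.eval (k : ℂ) = ((k.descFactorial (Fintype.card V) : ℕ) : ℂ) := by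
    intro k
    rw [hP k, S0_card G (S0_adj G hG h) k]
  have hc : Fintype.card V = 1 ∨ Fintype.card V = 2 := by omega
  rcases hc with hc | hc
  · left
    have hPX : P = Polynomial.X := by
      apply LibChromRoots.poly_eq_of_nat
      intro k
      rw [hk k, hc, Nat.descFactorial_one, Polynomial.eval_X]
    rw [hPX, Polynomial.eval_X] at hz
    exact hz
  · have hPX : P = Polynomial.X * (Polynomial.X - 1) := by
      apply LibChromRoots.poly_eq_of_nat
      intro k
      rw [hk k, hc]
      have h2 : k.descFactorial 2 = (k - 1) * k := by
        rw [Nat.descFactorial_succ, Nat.descFactorial_one]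
      rw [h2]
      rcases Nat.eq_zero_or_pos k with h0 | h0
      · subst h0
        simp
      · rw [Nat.cast_mul, Nat.cast_sub h0]
        simp only [Polynomial.eval_mul, Polynomial.eval_X, Polynomial.eval_sub, Polynomial.eval_one,
          Nat.cast_one]
        ring
    rw [hPX] at hz
    simp only [Polynomial.eval_mul, Polynomial.eval_X, Polynomial.eval_sub, Polynomial.eval_one] at hz
    rcases mul_eq_zero.1 hz with h0 | h0
    · left; exact h0
    · right; exact sub_eq_zero.1 h0

theorem chromatic_ne_zero [Fintype V] (G : SimpleGraph V) (P : Polynomial ℂ)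
    (hP : Ch3.IsChromaticPoly G P) : P ≠ 0 := by
  classical
  rintro rfl
  have h := hP (Fintype.card V)
  rw [Polynomial.eval_zero] at h
  have h0 : Nat.card (G.Coloring (Fin (Fintype.card V))) = 0 := by
    exact_mod_cast h.symm
  have e : V ≃ Fin (Fintype.card V) := Fintype.equivFin V
  have hn : Nonempty (G.Coloring (Fin (Fintype.card V))) :=
    ⟨SimpleGraph.Coloring.mk e (fun {a b} hab he => hab.ne (e.injective he))⟩
  have hf : Finite (G.Coloring (Fin (Fintype.card V))) :=
    Finite.of_injective (fun C : G.Coloring (Fin (Fintype.card V)) =>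
      (C : V → Fin (Fintype.card V))) DFunLike.coe_injective
  have hp := Nat.card_pos (α := G.Coloring (Fin (Fintype.card V)))
  omega

end Pool.Agent.TC47
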