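import Pool.Agent.TC47.WheelDefs
import Pool.Agent.TC47.GB
import Pool.Agent.TC47.GE

/-!
# W1: a straight-line drawing of the wheel with subdivided rim
N = s.length + 1 ≥ 3 rim vertices. Places: hub at 0, rim vertex j at pt 1 (2π j / N). Plan. `drawing_of_rel` with
r = wrel s. Rim segments: j to j+1 for j+1 ≤ N-1, and (last, 0): from angle 2π (N-1)/N to 2π (= angle 0, pt 1 0 = pt 1 (2π)).
So every rim segment j (0 ≤ j ≤ N-1) is the segment from pt 1 (2π j/N) to pt 1 (2π (j+1)/N), the angle is 2π/N < π:
`seg_pt`. With `pt_inj` (angles in [0, 2π)): a rim vertex k on the rim segment j is j or j+1 mod N (for j = N-1 and φ = 2π: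
z = pt 1 (2π) = rim vertex 0); rim segments j, k without common end are disjoint; the spoke 0 - pt 1 (2πk/N) meets the rim segment j
only if k is an end of it (a point of the spoke is 0 or pt t (2πk/N); 0 is not on a rim segment); two spokes have the common end 0;
no rim vertex is on another spoke; the hub is on no rim segment. Injectivity: `pt_inj`, pt 1 _ ≠ 0.
-/

namespace Pool.Agent.TC47

private theorem W1_ne {r θ : ℝ} (hr : 0 < r) : pt r θ ≠ 0 := by
  unfold pt
  exact mul_ne_zero (by exact_mod_cast hr.ne') (Complex.exp_ne_zero _)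

private theorem W1_two : pt 1 (2 * Real.pi) = pt 1 0 := by
  unfold pt
  congr 1
  push_cast
  rw [Complex.exp_two_pi_mul_I, zero_mul, Complex.exp_zero]

private theorem W1_spoke {θ : ℝ} {z : ℂ} (hz : z ∈ segment ℝ (0 : ℂ) (pt 1 θ)) :
    ∃ a : ℝ, 0 ≤ a ∧ z = pt a θ := by
  obtain ⟨a, b, ha, hb, hab, rfl⟩ := hz
  refine ⟨b, hb, ?_⟩
  rw [smul_zero, zero_add, Complex.real_smul]
  unfold pt
  push_cast
  ring

/-- The rim segments in polar coordinates. -/
private theorem W1_rim {c : ℝ} {N : ℕ} (hN : 3 ≤ N) (hc : c * N = 2 * Real.pi) (i : ℕ)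
    {z : ℂ} (hz : z ∈ segment ℝ (pt 1 (c * i)) (pt 1 (c * (i + 1)))) :
    ∃ t φ : ℝ, 0 < t ∧ c * i ≤ φ ∧ φ ≤ c * (i + 1) ∧ z = pt t φ := by
  have hN' : (3 : ℝ) ≤ N := by exact_mod_cast hN
  have hpi := Real.pi_pos
  have hc0 : 0 < c := by
    by_contra h
    have : c * N ≤ 0 := mul_nonpos_of_nonpos_of_nonneg (not_lt.1 h) (by linarith)
    linarith
  have hcpi : c < Real.pi := by nlinarith
  obtain ⟨t, φ, h1, h2, h3, h4, -, -⟩ := seg_pt (r := 1) (r' := 1) (θ := c * i)
    (θ' := c * (i + 1)) one_pos one_pos (by linarith) (by linarith) hz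
  exact ⟨t, φ, h1, h2, h3, h4⟩

/-- Two points in polar coordinates, angles in `[0, 2π]`. -/
private theorem W1_cmp {r r' φ φ' : ℝ} (hr : 0 < r) (hr' : 0 < r') (h1 : 0 ≤ φ)
    (h2 : φ ≤ 2 * Real.pi) (h3 : 0 ≤ φ') (h4 : φ' ≤ 2 * Real.pi) (h : pt r φ = pt r' φ') :
    φ = φ' ∨ (φ = 0 ∧ φ' = 2 * Real.pi) ∨ (φ = 2 * Real.pi ∧ φ' = 0) := by
  by_cases hlt : |φ - φ'| < 2 * Real.pi
  · exact Or.inl (pt_inj hr hr' hlt h).2
  · refine Or.inr ?_
    rw [not_lt, le_abs] at hlt
    rcases hlt with hlt | hlt
    · exact Or.inr ⟨by linarith, by linarith⟩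
    · exact Or.inl ⟨by linarith, by linarith⟩

theorem wh_straight (s : List Bool) (hs : 2 ≤ s.length) : StraightPlanar (wh s) := by
  obtain ⟨N, hN⟩ : ∃ N : ℕ, N = s.length + 1 := ⟨_, rfl⟩
  have hN3 : 3 ≤ N := by omega
  have hNr : (0 : ℝ) < N := by exact_mod_cast (by omega : 0 < N)
  have hpi := Real.pi_pos
  obtain ⟨c, hcdef⟩ : ∃ c : ℝ, c = 2 * Real.pi / N := ⟨_, rfl⟩
  have hc : c * N = 2 * Real.pi := by rw [hcdef]; field_simp
  have hc0 : 0 < c := by rw [hcdef]; positivity
  have hle : ∀ a b : ℕ, c * a ≤ c * b ↔ a ≤ b := by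
    intro a b
    rw [mul_le_mul_iff_of_pos_left hc0]
    exact Nat.cast_le
  have heq : ∀ a b : ℕ, c * a = c * b ↔ a = b := by
    intro a b
    rw [mul_right_inj' hc0.ne']
    exact Nat.cast_inj
  have hrange : ∀ a : ℕ, a ≤ N → 0 ≤ c * a ∧ c * a ≤ 2 * Real.pi := by
    intro a ha
    refine ⟨by positivity, ?_⟩
    rw [← hc]
    exact (hle a N).2 ha
  have hsucc : ∀ a : ℕ, c * ((a : ℝ) + 1) = c * ((a + 1 : ℕ) : ℝ) := by
    intro a
    push_cast
    ring
  obtain ⟨f, hf⟩ : ∃ f : WV s → ℂ, f = Sum.elim (fun _ => 0) (fun j => pt 1 (c * (j.val : ℝ))) :=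
    ⟨_, rfl⟩
  have hf0 : ∀ x, f (.inl x) = 0 := fun x => by rw [hf]; rfl
  have hf1 : ∀ j : Fin (s.length + 1), f (.inr j) = pt 1 (c * (j.val : ℝ)) := fun j => by
    rw [hf]; rfl
  -- the end of a rim segment
  have hend : ∀ i j : Fin (s.length + 1), wrel s (.inr i) (.inr j) →
      f (.inr j) = pt 1 (c * ((i.val : ℝ) + 1)) := by
    intro i j h
    rw [hf1]
    rcases h with h | ⟨h, h'⟩
    · rw [← h]
      push_cast
      rfl
    · have e : ((s.length + 1 : ℕ) : ℝ) = (N : ℝ) := by rw [hN]
      rw [h', h, Fin.val_last, hsucc, e, hc, W1_two]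
      congr 1
      simp
  -- a point of a ray on a rim segment
  have hray : ∀ (i j l : Fin (s.length + 1)) (a : ℝ) (z : ℂ), wrel s (.inr i) (.inr j) → 0 < a →
      z = pt a (c * (l.val : ℝ)) → z ∈ segment ℝ (f (.inr i)) (f (.inr j)) → l = i ∨ l = j := by
    intro i j l a z hr ha hz hseg
    rw [hend i j hr, hf1] at hseg
    obtain ⟨t, φ, h1, h2, h3, h4⟩ := W1_rim hN3 hc i.val hseg
    have hi := i.2
    have hj := j.2
    have hl := l.2
    have b1 := hrange i.val (by omega)
    have b2 := hrange (i.val + 1) (by omega)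
    have b3 := hrange l.val (by omega)
    rw [hsucc] at h3
    have h5 : pt a (c * (l.val : ℝ)) = pt t φ := by rw [← hz, h4]
    rcases W1_cmp ha h1 b3.1 b3.2 (b1.1.trans h2) (h3.trans b2.2) h5 with h6 | ⟨h6, h7⟩ | ⟨h6, h7⟩
    · rw [← h6, hle] at h2 h3
      rcases hr with hr | ⟨hr, hr'⟩
      · by_cases e : l.val = i.val
        · exact Or.inl (Fin.ext e)
        · exact Or.inr (Fin.ext (by omega))
      · left
        have : i.val = s.length := by rw [hr]; exact Fin.val_last _
        exact Fin.ext (by omega)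
    · -- `l = 0`, `φ = 2π`
      right
      have e1 : l.val = 0 := by
        have : c * (l.val : ℝ) = c * ((0 : ℕ) : ℝ) := by rw [h6]; simp
        exact (heq _ _).1 this
      have e2 : N ≤ i.val + 1 := by
        rw [← hle, hc, ← h7]
        exact h3
      rcases hr with hr | ⟨hr, hr'⟩
      · omega
      · rw [hr']
        exact Fin.ext e1
    · exfalso
      have : c * (N : ℝ) = c * (l.val : ℝ) := by rw [hc, h6]
      have := (heq _ _).1 this
      omega
  refine ⟨f, drawing_of_rel (wrel s) f ?_ ?_ ?_⟩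
  · -- injective
    rintro (x | i) (y | j) h
    · rfl
    · rw [hf0, hf1] at h
      exact absurd h.symm (W1_ne one_pos)
    · rw [hf0, hf1] at h
      exact absurd h (W1_ne one_pos)
    · rw [hf1, hf1] at h
      have hi := i.2
      have hj := j.2
      have b1 := hrange i.val (by omega)
      have b2 := hrange j.val (by omega)
      congr 1
      rcases W1_cmp one_pos one_pos b1.1 b1.2 b2.1 b2.2 h with h6 | ⟨h6, h7⟩ | ⟨h6, h7⟩
      · exact Fin.ext ((heq _ _).1 h6)
      · have : c * (N : ℝ) = c * (j.val : ℝ) := by rw [hc, h7]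
        have := (heq _ _).1 this
        omega
      · have : c * (N : ℝ) = c * (i.val : ℝ) := by rw [hc, h6]
        have := (heq _ _).1 this
        omega
  · -- vertices and edges
    rintro (x | i) (y | j) w hr hw1 hw2 hseg
    · exact hr.elim
    · rcases w with w | l
      · exact hw1 rfl
      · rw [hf0, hf1, hf1] at hseg
        obtain ⟨a, ha, hz⟩ := W1_spoke hseg
        rcases ha.eq_or_lt with ha | ha
        · rw [← ha] at hz
          refine W1_ne one_pos (hz.trans ?_)
          unfold pt
          simp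
        · have hl := l.2
          have hj := j.2
          have b1 := hrange l.val (by omega)
          have b2 := hrange j.val (by omega)
          rcases W1_cmp one_pos ha b1.1 b1.2 b2.1 b2.2 hz with h6 | ⟨h6, h7⟩ | ⟨h6, h7⟩
          · exact hw2 (by rw [Fin.ext ((heq _ _).1 h6)])
          · have : c * (N : ℝ) = c * (j.val : ℝ) := by rw [hc, h7]
            have := (heq _ _).1 this
            omega
          · have : c * (N : ℝ) = c * (l.val : ℝ) := by rw [hc, h6]
            have := (heq _ _).1 this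
            omega
    · exact hr.elim
    · rcases w with w | l
      · rw [hf0, hend i j hr, hf1] at hseg
        obtain ⟨t, φ, h1, h2, h3, h4⟩ := W1_rim hN3 hc i.val hseg
        exact W1_ne h1 h4.symm
      · rcases hray i j l 1 _ hr one_pos (hf1 l) hseg with h | h
        · exact hw1 (by rw [h])
        · exact hw2 (by rw [h])
  · -- two edges
    have hsr : ∀ k i j : Fin (s.length + 1), wrel s (.inr i) (.inr j) → k ≠ i → k ≠ j →
        ∀ z, z ∈ segment ℝ (0 : ℂ) (f (.inr k)) → z ∉ segment ℝ (f (.inr i)) (f (.inr j)) := by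
      intro k i j hr hk1 hk2 z hz hz'
      rw [hf1] at hz
      obtain ⟨a, ha, hza⟩ := W1_spoke hz
      rcases ha.eq_or_lt with ha | ha
      · rw [hend i j hr, hf1] at hz'
        obtain ⟨t, φ, h1, h2, h3, h4⟩ := W1_rim hN3 hc i.val hz'
        refine W1_ne h1 (h4.symm.trans (hza.trans ?_))
        rw [← ha]
        unfold pt
        simp
      · rcases hray i j k a z hr ha hza hz' with h | h
        · exact hk1 h
        · exact hk2 h
    have hrr : ∀ i j i' j' : Fin (s.length + 1), wrel s (.inr i) (.inr j) →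
        wrel s (.inr i') (.inr j') → i.val < i'.val → i ≠ j' → j ≠ i' →
        ∀ z, z ∈ segment ℝ (f (.inr i)) (f (.inr j)) →
          z ∉ segment ℝ (f (.inr i')) (f (.inr j')) := by
      intro i j i' j' hr hr' hlt h1 h2 z hz hz'
      rw [hend i j hr, hf1] at hz
      rw [hend i' j' hr', hf1] at hz'
      obtain ⟨t, φ, a1, a2, a3, a4⟩ := W1_rim hN3 hc i.val hz
      obtain ⟨t', φ', b1, b2, b3, b4⟩ := W1_rim hN3 hc i'.val hz'
      have hi := i.2
      have hi' := i'.2
      have hj := j.2
      have hj' := j'.2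
      rw [hsucc] at a3 b3
      have c1 := hrange i.val (by omega)
      have c2 := hrange (i.val + 1) (by omega)
      have c3 := hrange i'.val (by omega)
      have c4 := hrange (i'.val + 1) (by omega)
      have h5 : pt t φ = pt t' φ' := by rw [← a4, b4]
      rcases W1_cmp a1 b1 (c1.1.trans a2) (a3.trans c2.2) (c3.1.trans b2) (b3.trans c4.2) h5 with
        h6 | ⟨h6, h7⟩ | ⟨h6, h7⟩
      · have e1 : i'.val ≤ i.val + 1 := by
          rw [← hle]
          exact b2.trans (h6 ▸ a3)
        rcases hr with hr | ⟨hr, -⟩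
        · exact h2 (Fin.ext (by omega))
        · have : i.val = s.length := by rw [hr]; exact Fin.val_last _
          omega
      · have e1 : i.val = 0 := by
          have : i.val ≤ 0 := by
            rw [← hle]
            have := a2
            rw [h6] at this
            simpa using this
          omega
        have e2 : N ≤ i'.val + 1 := by
          rw [← hle, hc, ← h7]
          exact b3
        rcases hr' with hr' | ⟨-, hr'⟩
        · omega
        · exact h1 (by rw [hr']; exact Fin.ext e1)
      · have : i'.val ≤ 0 := by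
          rw [← hle]
          have := b2
          rw [h7] at this
          simpa using this
        omega
    rintro (u | i) (v | j) (x | i') (y | j') hr hr' h1 h2 h3 h4
    · exact hr.elim
    · exact hr.elim
    · exact hr.elim
    · exact hr.elim
    · exact hr'.elim
    · exact absurd rfl h1
    · exact hr'.elim
    · rw [Set.disjoint_left]
      intro z hz hz'
      rw [hf0] at hz
      exact hsr j i' j' hr' (fun h => h3 (by rw [h])) (fun h => h4 (by rw [h])) z hz hz'
    · exact hr.elim
    · exact hr.elim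
    · exact hr.elim
    · exact hr.elim
    · exact hr'.elim
    · rw [Set.disjoint_left]
      intro z hz hz'
      rw [hf0] at hz'
      exact hsr j' i j hr (fun h => h2 (by rw [h])) (fun h => h4 (by rw [h])) z hz' hz
    · exact hr'.elim
    · rw [Set.disjoint_left]
      intro z hz hz'
      rcases lt_trichotomy i.val i'.val with h | h | h
      · exact hrr i j i' j' hr hr' h (fun h => h2 (by rw [h])) (fun h => h3 (by rw [h])) z hz hz'
      · exact h1 (by rw [Fin.ext h])
      · exact hrr i' j' i j hr' hr h (fun h => h3 (by rw [h])) (fun h => h2 (by rw [h])) z hz' hz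

end Pool.Agent.TC47
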