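import Pool.Agent.TC47.WheelDefs

/-!
# W2: the wheel with subdivided rim is connected
-/

namespace Pool.Agent.TC47

lemma wrel_irrefl (s : List Bool) (hs : 2 ≤ s.length) (x : WV s) : ¬ wrel s x x := by
  rcases x with b | i
  · exact id
  · rintro (h | ⟨h1, h2⟩)
    · omega
    · rw [h1] at h2
      have := congrArg Fin.val h2
      simp only [Fin.val_last, Fin.val_zero] at this
      omega

lemma wh_adj (s : List Bool) (hs : 2 ≤ s.length) (x y : WV s) :
    (wh s).Adj x y ↔ wrel s x y ∨ wrel s y x := by
  rw [wh, SimpleGraph.fromRel_adj]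
  constructor
  · exact fun h => h.2
  · intro h
    refine ⟨?_, h⟩
    rintro rfl
    exact wrel_irrefl s hs x (h.elim id id)

theorem wh_connected (s : List Bool) (hs : 2 ≤ s.length) : (wh s).Connected := by
  have h1 : ∀ i : ℕ, ∀ hi : i < s.length + 1,
      (wh s).Reachable (.inl ()) (.inr ⟨i, hi⟩) := by
    intro i
    induction i with
    | zero =>
      intro hi
      refine SimpleGraph.Adj.reachable ?_
      rw [wh_adj s hs]
      left
      trivial
    | succ i ih =>
      intro hi
      refine (ih (by omega)).trans (SimpleGraph.Adj.reachable ?_)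
      rw [wh_adj s hs]
      left
      left
      rfl
  have h2 : ∀ x : WV s, (wh s).Reachable (.inl ()) x := by
    rintro (⟨⟩ | i)
    · exact SimpleGraph.Reachable.refl _
    · exact h1 i.val i.2
  haveI : Nonempty (WV s) := ⟨.inl ()⟩
  exact ⟨fun x y => (h2 x).symm.trans (h2 y)⟩

end Pool.Agent.TC47
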