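import Pool.Agent.TC47.Sets
import Pool.Agent.TC47.C4
import Pool.Agent.TC47.A1
import Pool.Agent.TC47.N1
import Pool.Agent.TC47.N3
import Pool.Agent.TC47.N4
import Pool.Agent.TC47.N5
import Pool.Agent.TC47.G4
import Pool.Agent.TC47.K1
import Pool.Agent.TC47.S0
import Pool.Agent.TC47.W1
import Pool.Agent.TC47.W2
import Pool.Agent.TC47.D1

/-!
# The induction
-/

namespace Pool.Agent.TC47

open Filter Topology Classical

/-- all chromatic roots `z` of `G` with `|z - 2| > 1` are limits of chromatic roots of
3-connected planar graphs -/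
def Good {V : Type} [Fintype V] (G : SimpleGraph V) : Prop :=
  ∀ (P : Polynomial ℂ) (z : ℂ), Ch3.IsChromaticPoly G P → P.eval z = 0 → 1 < ‖z - 2‖ →
    z ∈ closure threeConnRoots

variable {V : Type} [Fintype V]

lemma good_of_fan (G : SimpleGraph V) (A u u' : V) (hu : G.Adj A u) (hu' : G.Adj A u')
    (h : ∀ m : ℕ, 3 ≤ m → Good (fan G A u u' m)) : Good G := by
  intro P z hP hz hz2
  obtain ⟨Q, hQ⟩ := fan_poly G A u u' hu hu' P hP
  choose! R hR using hQ
  rw [Metric.mem_closure_iff]
  intro ε hε
  obtain ⟨m, hm, w, hw, hw0⟩ := near_root P Q (chromatic_ne_zero G P hP) z hz hz2 R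
    (fun m hm => (hR m hm).2) (min (ε / 2) (‖z - 2‖ - 1)) (lt_min (by linarith) (by linarith))
  have hw1 : ‖w - z‖ < ε / 2 := lt_of_lt_of_le hw (min_le_left _ _)
  have hw2 : ‖w - z‖ < ‖z - 2‖ - 1 := lt_of_lt_of_le hw (min_le_right _ _)
  have hw3 : 1 < ‖w - 2‖ := by
    have : ‖z - 2‖ ≤ ‖w - 2‖ + ‖w - z‖ := by
      calc ‖z - 2‖ = ‖(w - 2) - (w - z)‖ := by congr 1; ring
        _ ≤ _ := norm_sub_le _ _
    linarith
  have hcl := h m hm (R m) w (hR m (by omega)).1 hw0 hw3
  rw [Metric.mem_closure_iff] at hcl
  obtain ⟨q, hq, hq1⟩ := hcl (ε / 2) (by linarith)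
  refine ⟨q, hq, ?_⟩
  calc dist z q ≤ dist z w + dist w q := dist_triangle _ _ _
    _ < ε / 2 + ε / 2 := by
      refine add_lt_add ?_ hq1
      rw [dist_comm, dist_eq_norm]
      exact hw1
    _ = ε := by ring

lemma cc_pos (G : SimpleGraph V) (S : Finset V) (h : S.card < Fintype.card V) : 1 ≤ cc G S := by
  obtain ⟨x, hx⟩ : ∃ x, x ∉ S := by
    by_contra hcon
    push Not at hcon
    have : S = Finset.univ := Finset.eq_univ_iff_forall.mpr hcon
    rw [this, Finset.card_univ] at h
    exact lt_irrefl _ h
  have : Nonempty (G.induce ((↑S : Set V)ᶜ)).ConnectedComponent :=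
    ⟨(G.induce ((↑S : Set V)ᶜ)).connectedComponentMk ⟨x, by simpa using hx⟩⟩
  exact Nat.one_le_iff_ne_zero.mpr (Nat.card_ne_zero.mpr ⟨this, inferInstance⟩)

lemma cc_empty (G : SimpleGraph V) (hG : G.Connected) : (G.induce ((↑(∅ : Finset V) : Set V)ᶜ)).Connected := by
  rw [connected_iff]
  obtain ⟨x⟩ := hG.nonempty
  refine ⟨⟨x, Finset.notMem_empty x⟩, ?_⟩
  intro a b _ _
  obtain ⟨w⟩ := hG.preconnected a b
  induction w with
  | nil => exact Rch.refl G (Finset.notMem_empty _)
  | cons h _ ih => exact (Rch.edge h (Finset.notMem_empty _) (Finset.notMem_empty _)).trans (ih (Finset.notMem_empty _) (Finset.notMem_empty _))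

lemma threeConn_of (G : SimpleGraph V) (h4 : 4 ≤ Fintype.card V) (hG : G.Connected)
    (h1 : ∀ x, cc G {x} = 1) (h2 : defect G 2 = 0) : Ch3.ThreeConn G := by
  refine ⟨h4, ?_⟩
  intro S hS
  have h0 : S.card = 0 ∨ S.card = 1 ∨ S.card = 2 := by omega
  rcases h0 with h | h | h
  · rw [Finset.card_eq_zero] at h
    subst h
    exact cc_empty G hG
  · rw [Finset.card_eq_one] at h
    obtain ⟨x, rfl⟩ := h
    exact (cc_one_iff G {x}).mp (h1 x)
  · refine (cc_one_iff G S).mp (le_antisymm (defect_zero G 2 h2 S h) (cc_pos G S (by omega)))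

lemma good_two : ∀ (d : ℕ) (V : Type) [Fintype V] (G : SimpleGraph V), 4 ≤ Fintype.card V →
    G.Connected → (∀ x, cc G {x} = 1) → StraightPlanar G → defect G 2 = d → Good G := by
  intro d
  induction d using Nat.strong_induction_on with
  | _ d ih =>
    intro V _ G h4 hG h1 hS hd
    rcases Nat.eq_zero_or_pos d with hd0 | hd0
    · intro P z hP hz _
      exact subset_closure (mem_threeConnRoots G (threeConn_of G h4 hG h1 (hd.trans hd0))
        hS P hP z hz)
    · obtain ⟨f, hf⟩ := hS
      obtain ⟨S, hSc, hcc⟩ := defect_pos G 2 (by omega)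
      obtain ⟨A, t, hAt, rfl⟩ := Finset.card_eq_two.mp hSc
      obtain ⟨x, y, hx, hy, hxy⟩ := exists_not_rch G {A, t} hcc
      have her : ({A, t} : Finset V).erase A = {t} := by
        ext v
        simp only [Finset.mem_erase, Finset.mem_insert, Finset.mem_singleton]
        constructor
        · rintro ⟨h, h' | h'⟩
          · exact absurd h' h
          · exact h'
        · rintro rfl
          exact ⟨fun e => hAt e.symm, Or.inr rfl⟩
      have hcon : (G.induce ((↑(({A, t} : Finset V).erase A) : Set V)ᶜ)).Connected := by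
        rw [her]
        exact (cc_one_iff G {t}).mp (h1 t)
      obtain ⟨a, haS, ha, hxa⟩ := exists_nb G {A, t} A (by simp) hcon x hx
      obtain ⟨b, hbS, hb, hyb⟩ := exists_nb G {A, t} A (by simp) hcon y hy
      obtain ⟨u, u', τ, α, β, hc, huS, huS', hX⟩ := exists_corner G f hf A {A, t} (by omega)
        (by simp) (fun v => Rch G {A, t} x v) a b ha hb haS hbS hxa
        (fun h => hxy (h.trans hyb.symm))
      have hne := corner_ne G f A u u' τ α β hc
      have hnr : ¬ Rch G {A, t} u u' := by
        intro h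
        exact hX ⟨fun h' => h'.trans h, fun h' => h'.trans h.symm⟩
      refine good_of_fan G A u u' hc.1 hc.2.1 ?_
      intro m hm
      refine ih (defect (fan G A u u' m) 2) ?_ (V ⊕ Fin m) (fan G A u u' m) ?_
        (fan_connected G A u u' m hG) ?_ (fan_drawing G f hf A u u' τ α β hc m hm) rfl
      · rw [← hd]
        exact defect_lt G m (fan G A u u' m) 2
          (fun S i hS hi => fan_new_two G A u u' hc.1 hc.2.1 m hG h1 S hS i hi)
          (fun S hS => fan_cc_le G A u u' hc.1 hc.2.1 hne m S (by omega)) {A, t} hSc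
          (fan_cc_lt G A u u' hc.1 hc.2.1 hne m (by omega) {A, t} (by omega) huS huS' hnr) hcc
      · rw [Fintype.card_sum, Fintype.card_fin]
        omega
      · intro v
        rcases v with v | i
        · refine le_antisymm ?_ (cc_pos _ _ ?_)
          · have := fan_cc_le G A u u' hc.1 hc.2.1 hne m {v} (by simp)
            rw [Finset.map_singleton, h1 v] at this
            exact this
          · rw [Finset.card_singleton, Fintype.card_sum]
            omega
        · exact fan_new_one G A u u' m hG i

lemma good_one : ∀ (d : ℕ) (V : Type) [Fintype V] (G : SimpleGraph V), 4 ≤ Fintype.card V →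
    G.Connected → StraightPlanar G → defect G 1 = d → Good G := by
  intro d
  induction d using Nat.strong_induction_on with
  | _ d ih =>
    intro V _ G h4 hG hS hd
    rcases Nat.eq_zero_or_pos d with hd0 | hd0
    · refine good_two (defect G 2) V G h4 hG ?_ hS rfl
      intro x
      refine le_antisymm (defect_zero G 1 (hd.trans hd0) {x} (Finset.card_singleton x))
        (cc_pos _ _ ?_)
      rw [Finset.card_singleton]
      omega
    · obtain ⟨f, hf⟩ := hS
      obtain ⟨S, hSc, hcc⟩ := defect_pos G 1 (by omega)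
      obtain ⟨A, rfl⟩ := Finset.card_eq_one.mp hSc
      obtain ⟨x, y, hx, hy, hxy⟩ := exists_not_rch G {A} hcc
      have hcon : (G.induce ((↑(({A} : Finset V).erase A) : Set V)ᶜ)).Connected := by
        have : ({A} : Finset V).erase A = ∅ := by simp
        rw [this]
        exact cc_empty G hG
      obtain ⟨a, haS, ha, hxa⟩ := exists_nb G {A} A (by simp) hcon x hx
      obtain ⟨b, hbS, hb, hyb⟩ := exists_nb G {A} A (by simp) hcon y hy
      obtain ⟨u, u', τ, α, β, hc, huS, huS', hX⟩ := exists_corner G f hf A {A} (by simp)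
        (by simp) (fun v => Rch G {A} x v) a b ha hb haS hbS hxa
        (fun h => hxy (h.trans hyb.symm))
      have hne := corner_ne G f A u u' τ α β hc
      have hnr : ¬ Rch G {A} u u' := by
        intro h
        exact hX ⟨fun h' => h'.trans h, fun h' => h'.trans h.symm⟩
      refine good_of_fan G A u u' hc.1 hc.2.1 ?_
      intro m hm
      refine ih (defect (fan G A u u' m) 1) ?_ (V ⊕ Fin m) (fan G A u u' m) ?_
        (fan_connected G A u u' m hG) (fan_drawing G f hf A u u' τ α β hc m hm) rfl
      · rw [← hd]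
        refine defect_lt G m (fan G A u u' m) 1 ?_
          (fun S hS => fan_cc_le G A u u' hc.1 hc.2.1 hne m S (by omega)) {A} hSc
          (fan_cc_lt G A u u' hc.1 hc.2.1 hne m (by omega) {A} (by simp) huS huS' hnr) hcc
        intro S i hS hi
        obtain ⟨w, rfl⟩ := Finset.card_eq_one.mp hS
        rw [Finset.mem_singleton] at hi
        rw [← hi]
        exact fan_new_one G A u u' m hG i
      · rw [Fintype.card_sum, Fintype.card_fin]
        omega

/-- a connected graph with at least three vertices has a vertex with two neighbours -/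
lemma exists_two_nb (G : SimpleGraph V) (hG : G.Connected) (h3 : 3 ≤ Fintype.card V) :
    ∃ A a b, G.Adj A a ∧ G.Adj A b ∧ a ≠ b := by
  by_contra hcon
  push Not at hcon
  obtain ⟨x⟩ := hG.nonempty
  have : Nontrivial V := Fintype.one_lt_card_iff_nontrivial.mp (by omega)
  obtain ⟨y, hy⟩ := hG.preconnected.exists_adj_of_nontrivial x
  have key : ∀ (z : V) (w : G.Walk x z), z = x ∨ z = y := by
    intro z w
    have : ∀ (a b : V) (w : G.Walk a b), (a = x ∨ a = y) → (b = x ∨ b = y) := by
      intro a b w
      induction w with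
      | nil => exact id
      | cons h _ ih =>
        intro ha
        apply ih
        rcases ha with rfl | rfl
        · right; exact hcon _ _ _ h hy
        · left; exact hcon _ _ _ h hy.symm
    exact this x z w (Or.inl rfl)
  have hsub : (Finset.univ : Finset V) ⊆ {x, y} := by
    intro z _
    obtain ⟨w⟩ := hG.preconnected x z
    rcases key z w with h | h <;> simp [h]
  have := Finset.card_le_card hsub
  rw [Finset.card_univ] at this
  have := this.trans Finset.card_le_two
  omega

/-- the complete graph with four vertices -/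
lemma zero_mem : (0 : ℂ) ∈ threeConnRoots := by
  have hadj : ∀ x y : WV [true, true], x ≠ y → (wh [true, true]).Adj x y := by
    intro x y hxy
    rw [wh_adj [true, true] (le_refl 2)]
    rcases x with ⟨⟩ | i
    · rcases y with ⟨⟩ | j
      · exact absurd rfl hxy
      · left
        show Ch4.Xr [true, true] j.val
        fin_cases j <;> simp [Ch4.Xr, Ch4.Xw]
    · rcases y with ⟨⟩ | j
      · right
        show Ch4.Xr [true, true] i.val
        fin_cases i <;> simp [Ch4.Xr, Ch4.Xw]
      · have hij : i ≠ j := fun h => hxy (by rw [h])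
        fin_cases i <;> fin_cases j <;> simp_all [wrel, Fin.last, Fin.ext_iff]
  obtain ⟨P, hP'⟩ := exists_chromPoly (wh [true, true])
  refine mem_threeConnRoots (wh [true, true]) ⟨?_, ?_⟩ (wh_straight [true, true] (le_refl 2)) P hP' 0
    (eval_zero _ P hP')
  · simp
  · intro S hS
    rw [connected_iff]
    refine ⟨?_, ?_⟩
    · by_contra hcon
      push Not at hcon
      have : S = Finset.univ := Finset.eq_univ_iff_forall.mpr hcon
      rw [this] at hS
      simp at hS
    · intro x y hx hy
      rcases eq_or_ne x y with rfl | hxy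
      · exact Rch.refl _ hx
      · exact Rch.edge (hadj x y hxy) hx hy

theorem good_all (G : SimpleGraph V) (hG : G.Connected) (hS : StraightPlanar G) : Good G := by
  rcases le_or_gt (Fintype.card V) 2 with h2 | h2
  · intro P z hP hz hz2
    rcases small_roots G hG h2 P hP z hz with rfl | rfl
    · exact subset_closure zero_mem
    · exfalso; norm_num at hz2
  · rcases le_or_gt 4 (Fintype.card V) with h4 | h4
    · exact good_one (defect G 1) V G h4 hG hS rfl
    · obtain ⟨A, a, b, ha, hb, hab⟩ := exists_two_nb G hG (by omega)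
      obtain ⟨f, hf⟩ := hS
      obtain ⟨u, u', τ, α, β, hc, -, -, -⟩ := exists_corner G f hf A {A} (by simp)
        (by simp) (fun v => v = a) a b ha hb (by simpa using ha.ne') (by simpa using hb.ne') rfl
        (fun h => hab h.symm)
      refine good_of_fan G A u u' hc.1 hc.2.1 ?_
      intro m hm
      refine good_one (defect (fan G A u u' m) 1) _ _ ?_ (fan_connected G A u u' m hG)
        (fan_drawing G f hf A u u' τ α β hc m hm) rfl
      rw [Fintype.card_sum, Fintype.card_fin]
      omega

/-- the transfer theorem -/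
theorem transfer : closure threeConnRoots \ Metric.closedBall 2 1 =
    closure planarRoots \ Metric.closedBall 2 1 := by
  apply Set.Subset.antisymm
  · exact Set.sdiff_subset_sdiff_left (closure_mono threeConnRoots_subset)
  · rintro z ⟨hz, hz2⟩
    refine ⟨?_, hz2⟩
    rw [Metric.mem_closedBall, not_le, dist_eq_norm] at hz2
    rw [Metric.mem_closure_iff] at hz ⊢
    intro ε hε
    obtain ⟨w, ⟨n, G, hG, P, hP, hw⟩, hzw⟩ := hz (min (ε / 2) (‖z - 2‖ - 1))
      (lt_min (by linarith) (by linarith))
    have h1 : dist z w < ε / 2 := lt_of_lt_of_le hzw (min_le_left _ _)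
    have h2 : dist z w < ‖z - 2‖ - 1 := lt_of_lt_of_le hzw (min_le_right _ _)
    have h3 : 1 < ‖w - 2‖ := by
      rw [dist_eq_norm] at h2
      have : ‖z - 2‖ ≤ ‖w - 2‖ + ‖z - w‖ := by
        calc ‖z - 2‖ = ‖(w - 2) + (z - w)‖ := by congr 1; ring
          _ ≤ _ := norm_add_le _ _
      linarith
    obtain ⟨W, _, H, Q, hH, hS, hQ, hQw⟩ := exists_component G hG P hP w hw
    have h4 := good_all H hH hS Q w hQ hQw h3
    rw [Metric.mem_closure_iff] at h4
    obtain ⟨q, hq, hq1⟩ := h4 (ε / 2) (by linarith)
    exact ⟨q, hq, (dist_triangle z w q).trans_lt (by linarith)⟩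

end Pool.Agent.TC47
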