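import Pool.Agent.TC47.Rch

/-!
# N0: basic facts on reachability and components
Plan: unfold `Rch`, `cc`. `cc_one_iff`: `Nat.card` of the components is 1 iff there is exactly one
component (`Nat.card_eq_one_iff_unique`) iff nonempty and preconnected. `exists_not_rch`: if all
pairs are joined then the type of components is subsingleton (`ConnectedComponent.ind`, `sound`).
-/

namespace Pool.Agent.TC47

open Filter Topology

variable {V : Type}

theorem Rch.refl (G : SimpleGraph V) {S : Finset V} {x : V} (hx : x ∉ S) : Rch G S x x :=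
  ⟨fun h => hx (Finset.mem_coe.mp h), fun h => hx (Finset.mem_coe.mp h),
    SimpleGraph.Reachable.refl _⟩

theorem Rch.symm {G : SimpleGraph V} {S : Finset V} {x y : V} (h : Rch G S x y) :
    Rch G S y x := by
  obtain ⟨hx, hy, hr⟩ := h
  exact ⟨hy, hx, hr.symm⟩

theorem Rch.trans {G : SimpleGraph V} {S : Finset V} {x y z : V} (h : Rch G S x y)
    (h' : Rch G S y z) : Rch G S x z := by
  obtain ⟨hx, hy, hr⟩ := h
  obtain ⟨hy', hz, hr'⟩ := h'
  exact ⟨hx, hz, SimpleGraph.Reachable.trans hr hr'⟩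

theorem Rch.edge {G : SimpleGraph V} {S : Finset V} {x y : V} (h : G.Adj x y) (hx : x ∉ S)
    (hy : y ∉ S) : Rch G S x y := by
  refine ⟨fun h => hx (Finset.mem_coe.mp h), fun h => hy (Finset.mem_coe.mp h), ?_⟩
  apply SimpleGraph.Adj.reachable
  exact h

private theorem N0_walk {G : SimpleGraph V} {S : Finset V} (motive : V → Prop)
    (hs : ∀ y z, y ∉ S → z ∉ S → G.Adj y z → motive y → motive z)
    {a b : ((↑S : Set V)ᶜ : Set V)} (p : (G.induce ((↑S : Set V)ᶜ)).Walk a b) :
    motive a.1 → motive b.1 := by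
  induction p with
  | nil => exact id
  | @cons u v w huv p ih =>
    intro hu
    apply ih
    exact hs u.1 v.1 (fun h => u.2 (Finset.mem_coe.mpr h)) (fun h => v.2 (Finset.mem_coe.mpr h))
      huv hu

/-- induction over a path -/
theorem Rch.ind {G : SimpleGraph V} {S : Finset V} {x : V} (motive : V → Prop) (h0 : motive x)
    (hs : ∀ y z, y ∉ S → z ∉ S → Rch G S x y → G.Adj y z → motive y → motive z) {y : V}
    (h : Rch G S x y) : motive y := by
  obtain ⟨hx, hy, ⟨p⟩⟩ := h
  have hxS : x ∉ S := fun h => hx (Finset.mem_coe.mpr h)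
  have := N0_walk (G := G) (S := S) (fun v => Rch G S x v ∧ motive v)
    (fun y z hy hz hyz hm => ⟨hm.1.trans (Rch.edge hyz hy hz), hs y z hy hz hm.1 hyz hm.2⟩) p
    ⟨Rch.refl G hxS, h0⟩
  exact this.2

theorem cc_one_iff [Finite V] (G : SimpleGraph V) (S : Finset V) :
    cc G S = 1 ↔ (G.induce ((↑S : Set V)ᶜ)).Connected := by
  unfold cc
  rw [Nat.card_eq_one_iff_unique]
  constructor
  · rintro ⟨h1, h2⟩
    obtain ⟨c⟩ := h2
    obtain ⟨v, -⟩ := c.exists_rep
    haveI : Nonempty ((↑S : Set V)ᶜ : Set V) := ⟨v⟩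
    exact ⟨fun a b => SimpleGraph.ConnectedComponent.exact (Subsingleton.elim _ _)⟩
  · intro h
    haveI := h.nonempty
    refine ⟨⟨fun a b => ?_⟩, ⟨SimpleGraph.connectedComponentMk _ (Classical.arbitrary _)⟩⟩
    induction a using SimpleGraph.ConnectedComponent.ind
    induction b using SimpleGraph.ConnectedComponent.ind
    exact SimpleGraph.ConnectedComponent.sound (h.preconnected _ _)

theorem connected_iff (G : SimpleGraph V) (S : Finset V) :
    (G.induce ((↑S : Set V)ᶜ)).Connected ↔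
      (∃ x, x ∉ S) ∧ ∀ x y, x ∉ S → y ∉ S → Rch G S x y := by
  constructor
  · intro h
    refine ⟨?_, ?_⟩
    · obtain ⟨v⟩ := h.nonempty
      exact ⟨v.1, fun hv => v.2 (Finset.mem_coe.mpr hv)⟩
    · intro x y hx hy
      exact ⟨fun h => hx (Finset.mem_coe.mp h), fun h => hy (Finset.mem_coe.mp h),
        h.preconnected _ _⟩
  · rintro ⟨⟨x, hx⟩, h⟩
    haveI : Nonempty ((↑S : Set V)ᶜ : Set V) := ⟨⟨x, fun h => hx (Finset.mem_coe.mp h)⟩⟩
    refine ⟨fun a b => ?_⟩
    obtain ⟨ha, hb, hr⟩ := h a.1 b.1 (fun hv => a.2 (Finset.mem_coe.mpr hv))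
      (fun hv => b.2 (Finset.mem_coe.mpr hv))
    exact hr

theorem exists_not_rch [Finite V] (G : SimpleGraph V) (S : Finset V) (h : 1 < cc G S) :
    ∃ x y, x ∉ S ∧ y ∉ S ∧ ¬ Rch G S x y := by
  by_contra hcon
  push Not at hcon
  have hsub : Subsingleton (G.induce ((↑S : Set V)ᶜ)).ConnectedComponent := by
    refine ⟨fun a b => ?_⟩
    induction a using SimpleGraph.ConnectedComponent.ind with | _ a => ?_
    induction b using SimpleGraph.ConnectedComponent.ind with | _ b => ?_
    apply SimpleGraph.ConnectedComponent.sound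
    obtain ⟨ha, hb, hr⟩ := hcon a.1 b.1 (fun hv => a.2 (Finset.mem_coe.mpr hv))
      (fun hv => b.2 (Finset.mem_coe.mpr hv))
    exact hr
  have h1 : Nat.card (G.induce ((↑S : Set V)ᶜ)).ConnectedComponent ≤ 1 := Finite.card_le_one_iff_subsingleton.mpr hsub
  unfold cc at h
  omega

end Pool.Agent.TC47
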