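import Pool.Agent.TC47.N0

/-!
# N2: comparing numbers of components
Plan: the map `ConnectedComponent (G - S) → ConnectedComponent (G' - S')`, component of x ↦ component of
`φ x` (`ConnectedComponent.lift` or `Quot.lift`; well defined by h2 and induction over walks, see
`Rch.ind`), is surjective by h3. `Nat.card_le_card_of_surjective` (finite source). For the strict form:
a surjective map between finite types of equal cardinality is injective
(`Function.Surjective.injective_of_finite..` or `Finite.card_lt_of_surjective_not_injective`-type lemma), but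
x and y have different components with the same image.
-/

namespace Pool.Agent.TC47

open Filter Topology

variable {V V' : Type}

private theorem rch_map {G : SimpleGraph V} {G' : SimpleGraph V'}
    {S : Finset V} {S' : Finset V'} {φ : V → V'} (h1 : ∀ x, x ∉ S → φ x ∉ S')
    (h2 : ∀ x y, x ∉ S → y ∉ S → G.Adj x y → Rch G' S' (φ x) (φ y)) {x y : V}
    (h : Rch G S x y) : Rch G' S' (φ x) (φ y) := by
  have hx : x ∉ S := by
    obtain ⟨hx, -, -⟩ := h
    simpa using hx
  refine Rch.ind (fun z => Rch G' S' (φ x) (φ z)) (Rch.refl G' (h1 x hx)) ?_ h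
  intro y z hy hz _ hadj hm
  exact hm.trans (h2 y z hy hz hadj)

private theorem out {S : Finset V} (x : ((↑S : Set V)ᶜ : Set V)) : x.1 ∉ S := by
  intro h
  exact x.2 (by simpa using h)

private noncomputable def ccMap {G : SimpleGraph V} {G' : SimpleGraph V'}
    {S : Finset V} {S' : Finset V'} {φ : V → V'} (h1 : ∀ x, x ∉ S → φ x ∉ S')
    (h2 : ∀ x y, x ∉ S → y ∉ S → G.Adj x y → Rch G' S' (φ x) (φ y)) :
    (G.induce ((↑S : Set V)ᶜ)).ConnectedComponent →
      (G'.induce ((↑S' : Set V')ᶜ)).ConnectedComponent :=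
  Quot.lift (fun x => (G'.induce ((↑S' : Set V')ᶜ)).connectedComponentMk
      ⟨φ x.1, by simpa using h1 x.1 (out x)⟩) (by
    intro a b hab
    apply SimpleGraph.ConnectedComponent.sound
    have h : Rch G S a.1 b.1 := ⟨a.2, b.2, hab⟩
    obtain ⟨_, _, h'⟩ := rch_map h1 h2 h
    exact h')

private theorem ccMap_surj {G : SimpleGraph V} {G' : SimpleGraph V'}
    {S : Finset V} {S' : Finset V'} {φ : V → V'} (h1 : ∀ x, x ∉ S → φ x ∉ S')
    (h2 : ∀ x y, x ∉ S → y ∉ S → G.Adj x y → Rch G' S' (φ x) (φ y))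
    (h3 : ∀ z, z ∉ S' → ∃ x, x ∉ S ∧ Rch G' S' z (φ x)) :
    Function.Surjective (ccMap h1 h2) := by
  intro c
  induction c using SimpleGraph.ConnectedComponent.ind with
  | h z =>
    obtain ⟨x, hx, hr⟩ := h3 z.1 (out z)
    refine ⟨(G.induce ((↑S : Set V)ᶜ)).connectedComponentMk ⟨x, by simpa using hx⟩, ?_⟩
    obtain ⟨_, _, h'⟩ := hr
    exact (SimpleGraph.ConnectedComponent.sound h').symm

theorem cc_le_of_map [Finite V] (G : SimpleGraph V) (G' : SimpleGraph V')
    (S : Finset V) (S' : Finset V') (φ : V → V') (h1 : ∀ x, x ∉ S → φ x ∉ S')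
    (h2 : ∀ x y, x ∉ S → y ∉ S → G.Adj x y → Rch G' S' (φ x) (φ y))
    (h3 : ∀ z, z ∉ S' → ∃ x, x ∉ S ∧ Rch G' S' z (φ x)) : cc G' S' ≤ cc G S := by
  have : Finite (G.induce ((↑S : Set V)ᶜ)).ConnectedComponent := Quot.finite _
  exact Nat.card_le_card_of_surjective _ (ccMap_surj h1 h2 h3)

theorem cc_lt_of_map [Finite V] (G : SimpleGraph V) (G' : SimpleGraph V')
    (S : Finset V) (S' : Finset V') (φ : V → V') (h1 : ∀ x, x ∉ S → φ x ∉ S')
    (h2 : ∀ x y, x ∉ S → y ∉ S → G.Adj x y → Rch G' S' (φ x) (φ y))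
    (h3 : ∀ z, z ∉ S' → ∃ x, x ∉ S ∧ Rch G' S' z (φ x))
    (x y : V) (hx : x ∉ S) (hy : y ∉ S) (hn : ¬ Rch G S x y) (hr : Rch G' S' (φ x) (φ y)) :
    cc G' S' < cc G S := by
  have : Finite (G.induce ((↑S : Set V)ᶜ)).ConnectedComponent := Quot.finite _
  refine lt_of_le_of_ne (cc_le_of_map G G' S S' φ h1 h2 h3) ?_
  intro heq
  have hsurj := ccMap_surj h1 h2 h3
  have : Finite (G'.induce ((↑S' : Set V')ᶜ)).ConnectedComponent := Finite.of_surjective _ hsurj
  have hbij : Function.Bijective (ccMap h1 h2) :=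
    (Nat.bijective_iff_surjective_and_card _).2 ⟨hsurj, heq.symm⟩
  apply hn
  have hx' : x ∈ ((↑S : Set V)ᶜ) := by simpa using hx
  have hy' : y ∈ ((↑S : Set V)ᶜ) := by simpa using hy
  obtain ⟨_, _, h'⟩ := hr
  have he : ccMap h1 h2 ((G.induce ((↑S : Set V)ᶜ)).connectedComponentMk ⟨x, hx'⟩) =
      ccMap h1 h2 ((G.induce ((↑S : Set V)ᶜ)).connectedComponentMk ⟨y, hy'⟩) :=
    SimpleGraph.ConnectedComponent.sound h'
  exact ⟨hx', hy', SimpleGraph.ConnectedComponent.exact (hbij.1 he)⟩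

end Pool.Agent.TC47
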