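import Pool.Agent.TC47.Defs

/-!
# Reachability after deleting a set of vertices (definitions for the rows N0 - N4)
-/

namespace Pool.Agent.TC47

variable {V : Type}

/-- `x` and `y` are outside `S` and are joined by a path in `G - S`. -/
def Rch (G : SimpleGraph V) (S : Finset V) (x y : V) : Prop :=
  ∃ (hx : x ∈ ((↑S : Set V)ᶜ)) (hy : y ∈ ((↑S : Set V)ᶜ)),
    (G.induce ((↑S : Set V)ᶜ)).Reachable ⟨x, hx⟩ ⟨y, hy⟩

/-- the old vertices -/
def old {V : Type} (m : ℕ) : V ↪ V ⊕ Fin m := ⟨Sum.inl, Sum.inl_injective⟩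

end Pool.Agent.TC47
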