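import Pool.Agent.TC47.Defs
import Pool.Agent.Ch3.Transport
import Pool.Agent.LibChromRoots.Whitney

/-!
# The two sets of chromatic roots
-/

namespace Pool.Agent.TC47

/-- The chromatic roots of all finite planar graphs (with a straight-line drawing). -/
def planarRoots : Set ℂ :=
  {q : ℂ | ∃ (n : ℕ) (G : SimpleGraph (Fin n)), StraightPlanar G ∧
    ∃ P : Polynomial ℂ, Ch3.IsChromaticPoly G P ∧ P.eval q = 0}

/-- The chromatic roots of all finite 3-connected planar graphs (with a straight-line
drawing). -/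
def threeConnRoots : Set ℂ :=
  {q : ℂ | ∃ (n : ℕ) (G : SimpleGraph (Fin n)), Ch3.ThreeConn G ∧ StraightPlanar G ∧
    ∃ P : Polynomial ℂ, Ch3.IsChromaticPoly G P ∧ P.eval q = 0}

variable {V : Type}

lemma straight_comap {W : Type} (e : W → V) (he : Function.Injective e) (G : SimpleGraph V)
    (h : StraightPlanar G) : StraightPlanar (G.comap e) := by
  obtain ⟨f, h1, h2, h3⟩ := h
  refine ⟨f ∘ e, h1.comp he, ?_, ?_⟩
  · intro u v w huv hwu hwv
    exact h2 (e u) (e v) (e w) huv (fun h => hwu (he h)) (fun h => hwv (he h))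
  · intro u v x y huv hxy h1' h2' h3' h4'
    exact h3 (e u) (e v) (e x) (e y) huv hxy (fun h => h1' (he h)) (fun h => h2' (he h))
      (fun h => h3' (he h)) (fun h => h4' (he h))

theorem mem_threeConnRoots [Fintype V] (G : SimpleGraph V) (h1 : Ch3.ThreeConn G)
    (h2 : StraightPlanar G) (P : Polynomial ℂ) (h3 : Ch3.IsChromaticPoly G P) (q : ℂ)
    (hq : P.eval q = 0) : q ∈ threeConnRoots :=
  ⟨Fintype.card V, G.comap (Fintype.equivFin V).symm, Ch3.transport_conn _ G h1,
    straight_comap _ (Fintype.equivFin V).symm.injective G h2, P, Ch3.transport_poly _ G P h3, hq⟩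

theorem mem_planarRoots [Fintype V] (G : SimpleGraph V)
    (h2 : StraightPlanar G) (P : Polynomial ℂ) (h3 : Ch3.IsChromaticPoly G P) (q : ℂ)
    (hq : P.eval q = 0) : q ∈ planarRoots :=
  ⟨Fintype.card V, G.comap (Fintype.equivFin V).symm,
    straight_comap _ (Fintype.equivFin V).symm.injective G h2, P, Ch3.transport_poly _ G P h3, hq⟩

/-- every finite graph has a chromatic polynomial -/
theorem exists_chromPoly [Fintype V] (G : SimpleGraph V) :
    ∃ P : Polynomial ℂ, Ch3.IsChromaticPoly G P := by
  classical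
  obtain ⟨P, hP⟩ := LibChromRoots.constraint_poly
    (Finset.univ.filter fun e : V × V => G.Adj e.1 e.2) ∅
  refine ⟨P, fun k => ?_⟩
  rw [hP k]
  congr 1
  refine Nat.card_congr ?_
  exact
    { toFun := fun c => SimpleGraph.Coloring.mk c.1 (fun {a b} hab =>
        c.2.1 (a, b) (Finset.mem_filter.2 ⟨Finset.mem_univ _, hab⟩))
      invFun := fun c => ⟨fun v => c v, fun e he => c.valid (Finset.mem_filter.1 he).2,
        by simp⟩
      left_inv := fun c => by
        apply Subtype.ext
        rfl
      right_inv := fun c => by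
        ext v
        rfl }

lemma threeConnRoots_subset : threeConnRoots ⊆ planarRoots := by
  rintro q ⟨n, G, -, h⟩
  exact ⟨n, G, h⟩

/-- a graph with at least one vertex has the chromatic root 0 -/
lemma eval_zero [Nonempty V] [Finite V] (G : SimpleGraph V) (P : Polynomial ℂ)
    (hP : Ch3.IsChromaticPoly G P) : P.eval 0 = 0 := by
  have h := hP 0
  rw [Nat.cast_zero] at h
  rw [h]
  haveI : IsEmpty (G.Coloring (Fin 0)) := ⟨fun c => (c (Classical.arbitrary V)).elim0⟩
  rw [Nat.card_of_isEmpty, Nat.cast_zero]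

end Pool.Agent.TC47
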