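import Pool.Agent.TC47.Defs
import Pool.Agent.Ch4.Count2

/-!
# Wheels with a subdivided rim
-/

namespace Pool.Agent.TC47

/-- vertices: the hub and the rim -/
abbrev WV (s : List Bool) := Unit ⊕ Fin (s.length + 1)

/-- The edges, each listed in one direction only: the hub is joined to the rim vertex `0` and to
the rim vertices `i + 1` for which the `i`-th letter of `s` is `true`; the rim is a cycle. -/
def wrel (s : List Bool) : WV s → WV s → Prop
  | .inl _, .inr i => Ch4.Xr s i.val
  | .inr i, .inr j => i.val + 1 = j.val ∨ (i = Fin.last s.length ∧ j = 0)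
  | _, _ => False

/-- The wheel with subdivided rim. -/
def wh (s : List Bool) : SimpleGraph (WV s) := SimpleGraph.fromRel (wrel s)

end Pool.Agent.TC47
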